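import Pool.Agent.H98.WH.Rpn

/-!
# [H98 WH PAD] programs for the padding and the query

`pad_prog`: the program `comp ADD (comp (loop (loopBody SQ)) (pair id TWO))` with SQ the program of the `FP` function `v ↦ mulU v v` (`FP.mulU'`), TWO a constant program for `num 2`, ADD the
`FP` function `addU (num N) v`: `FP.eval_loop` with `B = 2 * 2 ^ (2 ^ m) + 1` (the iterates are `num (2 ^ (2 ^ i))`, `mulU_eq`, `len_num`, `size_num`), cost at most
`(m + 1) * (q B + 7 (size (num m) + B + 2))`, and `m ≤ 2 ^ (2 ^ m)`, so a polynomial in `N + 2 ^ (2 ^ m)` bounds everything.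
`ask_fp`: `O (dec T)` with T = node tt (falses (enc (rpn ..))); `falses`: iterate `fun s => node leaf s` (`addU`!): `addU (fst v) (enc w) = enc (replicate (len (fst v)) false ++ w)`;
`dec_enc`; `FP.query'`, `FP.addU'`, `FP.comp'` with `rpn_fp`.
`par_fp`: `len (fst v) + (rpn (fst (snd (snd v)))).length`: `addU (fst v) (ulen (enc (rpn ..)))`.
-/

set_option autoImplicit false

namespace Pool.H98.WH

open Pool.Agent.H88.RO Tr

theorem sq_iter (i : ℕ) : (fun v : Tr => mulU v v)^[i] (num 2) = num (2 ^ (2 ^ i)) := by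
  induction i with
  | zero => rfl
  | succ i ih =>
    rw [Function.iterate_succ_apply', ih]
    simp only [mulU_eq, len_num]
    congr 1
    rw [pow_succ 2 i, pow_mul, sq]

theorem pad_prog (O : List Bool → Bool) (N : ℕ) : ∃ (c : Prog) (q : Polynomial ℕ), ∀ m : ℕ,
    ∃ τ ≤ q.eval (2 ^ (2 ^ m)), Eval O c (num m) (num (N + 2 ^ (2 ^ m))) τ := by
  obtain ⟨c1, q1, h1⟩ : FP O (fun v => node v (num 2)) := FP.node' FP.id' (FP.const' _)
  obtain ⟨c2, q2, h2⟩ : FP O (fun v : Tr => mulU v v) := FP.mulU' FP.id' FP.id'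
  obtain ⟨c3, q3, h3⟩ : FP O (fun v : Tr => addU (num N) v) := FP.addU' (FP.const' _) FP.id'
  refine ⟨Prog.comp c3 (Prog.comp (Prog.loop (FP.loopBody c2)) c1),
    q1.comp (2 * Polynomial.X + 1) + (Polynomial.X + 1) * (q2.comp (2 * Polynomial.X + 1) +
      7 * (4 * Polynomial.X + 4)) + q3.comp (2 * Polynomial.X + 1) + 2 * (2 * Polynomial.X + 2), ?_⟩
  intro m
  have hmG : m ≤ 2 ^ (2 ^ m) := by
    have a1 := Nat.lt_two_pow_self (n := m)
    have a2 := Nat.lt_two_pow_self (n := 2 ^ m)
    omega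
  obtain ⟨t1, ht1, he1⟩ := h1 (num m)
  obtain ⟨t2, ht2, he2⟩ := FP.eval_loop h2 (2 * 2 ^ (2 ^ m) + 1) (num m) (num 2) (by
    intro i hi
    rw [len_num] at hi
    rw [sq_iter, size_num]
    have : 2 ^ (2 ^ i) ≤ 2 ^ (2 ^ m) :=
      Nat.pow_le_pow_right (by norm_num) (Nat.pow_le_pow_right (by norm_num) hi)
    omega)
  rw [len_num, sq_iter] at he2
  obtain ⟨t3, ht3, he3⟩ := h3 (num (2 ^ (2 ^ m)))
  have he3' : Eval O c3 (num (2 ^ (2 ^ m))) (num (N + 2 ^ (2 ^ m))) t3 := by
    have := he3
    simp only [addU_num] at this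
    exact this
  refine ⟨_, ?_, Eval.comp (Eval.comp he1 he2) he3'⟩
  rw [size_num] at ht1 ht2 ht3
  rw [len_num] at ht2
  simp only [size_num]
  generalize 2 ^ (2 ^ m) = G at *
  simp only [Polynomial.eval_add, Polynomial.eval_mul, Polynomial.eval_comp, Polynomial.eval_X,
      Polynomial.eval_one, Polynomial.eval_ofNat]
  have b1 := poly_mono q1 (show 2 * m + 1 ≤ 2 * G + 1 by omega)
  have b2 : (m + 1) * (q2.eval (2 * G + 1) + 7 * (2 * m + 1 + (2 * G + 1) + 2)) ≤
      (G + 1) * (q2.eval (2 * G + 1) + 7 * (4 * G + 4)) := by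
    apply Nat.mul_le_mul (by omega)
    omega
  omega

theorem addU_enc (a : Tr) (w : List Bool) :
    addU a (enc w) = enc (List.replicate (len a) false ++ w) := by
  unfold addU
  generalize len a = n
  induction n with
  | zero => simp
  | succ n ih =>
    rw [Function.iterate_succ_apply', ih]
    simp [List.replicate_succ, enc, Tr.bit]

theorem ask_fp (O : List Bool → Bool) (u : ℕ) : FP O (fun v =>
    Tr.bit (O (true :: (List.replicate (len (fst v)) false ++ rpn (node (num u) (snd v)))))) := by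
  have h : FP O (fun v => Tr.bit (O (dec (node tt (addU (fst v)
      (enc (rpn (node (num u) (snd v))))))))) :=
    FP.query' (FP.node' (FP.const' _) (FP.addU' (FP.fst' FP.id')
      (FP.comp' (rpn_fp O) (FP.node' (FP.const' _) (FP.snd' FP.id')))))
  have e : (fun v => Tr.bit (O (dec (node tt (addU (fst v)
      (enc (rpn (node (num u) (snd v))))))))) = (fun v =>
    Tr.bit (O (true :: (List.replicate (len (fst v)) false ++ rpn (node (num u) (snd v)))))) := by
    funext v
    rw [addU_enc]
    simp only [dec, dec_enc]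
    simp
  rw [← e]
  exact h

theorem par_fp (O : List Bool → Bool) :
    FP O (fun v => num (len (fst v) + size (fst (snd (snd v))))) := by
  have h : FP O (fun v => addU (ulen (fst v)) (ulen (enc (rpn (fst (snd (snd v))))))) :=
    FP.addU' (FP.ulen' (FP.fst' FP.id'))
      (FP.ulen' (FP.comp' (rpn_fp O) (FP.fst' (FP.snd' (FP.snd' FP.id')))))
  have e : (fun v => addU (ulen (fst v)) (ulen (enc (rpn (fst (snd (snd v))))))) =
      (fun v => num (len (fst v) + size (fst (snd (snd v))))) := by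
    funext v
    rw [ulen_eq, ulen_eq, addU_num, len_enc, size_rpn]
  rw [← e]
  exact h

end Pool.H98.WH
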