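import Pool.Agent.H98.WH.Orc
import Pool.Agent.H98.WH.Pad

/-!
# [H98 WH CLPS] the collapse: W[s+1] is contained in FPT relative to the oracle

Given u, e, f, c of `InW`.  With A = orc thr s Z and the programs PAR (`par_fp`), PADP (`pad_prog` with N = thr u), ASK (`ask_fp` u) the decider is
`comp ASK (pair (comp PADP PAR) id)` after `c`.  On x: c gives `I.tr` (cost τ ≤ T = f (κ x) (|x|+1)^e, size ≤ 2 τ by `Eval.size_le`), PAR gives `num I.par`, PADP gives `num P`, P = thr u + 2^(2^par),
ASK asks `true :: v`, `v = replicate P false ++ rpn (node (num u) I.tr)`, `decode v = node (num u) I.tr` (`decode_pad`), `|v| = P + size ..` (`size_rpn`), so the code is valid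
(`2 ^ ℓ ≤ size I.tr`) and `orc_code` gives the answer.  The cost is at most a polynomial p in `T + 2^(2^par) + thr u`, par ≤ f (κ x), hence at most
`C (T + G)^d` with G = 2^(2^(f κ)) + thr u + 1, `T + G ≤ (f κ + G) (|x|+1)^e`: so e' = e d and f' k = C (f k + 2^(2^(f k)) + thr u + 1)^d, computable
(`Primrec` of the power: `Primrec.nat_pow`? otherwise by `Primrec.nat_rec`).
-/

set_option autoImplicit false

namespace Pool.H98.WH

open Pool.Agent.H88.RO Tr

theorem prim_two_pow : Primrec (fun n : ℕ => 2 ^ n) := by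
  have h : Primrec (fun n : ℕ => Nat.rec (motive := fun _ => ℕ) 1 (fun _ a => a + a) n) :=
    Primrec.nat_rec₁ (f := fun _ a => a + a) 1
      (Primrec.nat_add.comp Primrec.snd Primrec.snd).to₂
  refine h.of_eq ?_
  intro n
  induction n with
  | zero => rfl
  | succ n ih =>
    have e : (Nat.rec (motive := fun _ => ℕ) 1 (fun _ a => a + a) (n + 1) : ℕ) =
      (Nat.rec (motive := fun _ => ℕ) 1 (fun _ a => a + a) n : ℕ) +
      (Nat.rec (motive := fun _ => ℕ) 1 (fun _ a => a + a) n : ℕ) := rfl
    rw [e, ih, pow_succ]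
    ring

theorem prim_pow (d : ℕ) : Primrec (fun n : ℕ => n ^ d) := by
  induction d with
  | zero => exact (Primrec.const 1).of_eq (fun n => by simp)
  | succ d ih =>
    exact (Primrec.nat_mul.comp ih Primrec.id).of_eq (fun n => by simp [pow_succ])

theorem poly_le_pow (q : Polynomial ℕ) (W : ℕ) (hW : 1 ≤ W) :
    q.eval W ≤ q.eval 1 * W ^ q.natDegree := by
  rw [Polynomial.eval_eq_sum_range, Polynomial.eval_eq_sum_range, Finset.sum_mul]
  apply Finset.sum_le_sum
  intro i hi
  simp only [one_pow, mul_one]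
  apply Nat.mul_le_mul_left
  apply Nat.pow_le_pow_right hW
  have := Finset.mem_range.mp hi
  omega

theorem clps (thr : ℕ → ℕ) (s : ℕ) (Z : List Bool → Bool) (Q : List Bool → Prop)
    (κ : List Bool → ℕ) (h : InW (orc thr s Z) (s + 1) Q κ) : InFPT (orc thr s Z) Q κ := by
  obtain ⟨u, e, f, c, hf, h⟩ := h
  obtain ⟨cP, qP, hP⟩ := par_fp (orc thr s Z)
  obtain ⟨cD, qD, hD⟩ := pad_prog (orc thr s Z) (thr u)
  obtain ⟨cA, qA, hA⟩ := ask_fp (orc thr s Z) u
  let R : Polynomial ℕ := qP.comp (2 * Polynomial.X) + qD + qA.comp (4 * Polynomial.X + 2) +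
    12 * Polynomial.X + 12
  let G : ℕ → ℕ := fun k => 2 ^ (2 ^ (f k)) + (thr u + 1)
  refine ⟨e * R.natDegree, fun k => R.eval 1 * (f k + G k) ^ R.natDegree,
    Prog.comp cA (Prog.comp (Prog.pair (Prog.comp cD cP) Prog.id) c), ?_, ?_⟩
  · have h2 : Computable (fun k => 2 ^ (2 ^ (f k))) :=
      (prim_two_pow.comp prim_two_pow).to_comp.comp hf
    have hG : Computable G := (Primrec.nat_add.to_comp).comp h2 (Computable.const (thr u + 1))
    have hs : Computable (fun k => f k + G k) := (Primrec.nat_add.to_comp).comp hf hG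
    have hp : Computable (fun k => (f k + G k) ^ R.natDegree) :=
      (prim_pow R.natDegree).to_comp.comp hs
    exact (Primrec.nat_mul.to_comp).comp (Computable.const (R.eval 1)) hp
  intro x
  obtain ⟨I, hpar, hsz, ⟨τ, hτ, hE⟩, hQ⟩ := h x
  obtain ⟨t1, ht1, he1⟩ := hP I.tr
  have ef : len (fst I.tr) + size (fst (snd (snd I.tr))) = I.par := by
    simp [Inst.tr, Inst.par, len_num]
  simp only [ef] at he1
  obtain ⟨t2, ht2, he2⟩ := hD I.par
  obtain ⟨g0, hg0⟩ : ∃ g0, g0 = 2 ^ (2 ^ I.par) := ⟨_, rfl⟩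
  obtain ⟨l0, hl0⟩ : ∃ l0, l0 = 2 ^ I.ℓ := ⟨_, rfl⟩
  rw [← hg0] at ht2 he2
  rw [← hl0] at hsz
  set P := thr u + g0 with hPd
  obtain ⟨t3, ht3, he3⟩ := hA (node (num P) I.tr)
  set v := List.replicate P false ++ rpn (node (num u) I.tr) with hv
  have e3 : (true :: (List.replicate (len (fst (node (num P) I.tr))) false ++
      rpn (node (num u) (snd (node (num P) I.tr))))) = true :: v := by
    simp [len_num, hv]
  simp only [e3] at he3
  refine ⟨orc thr s Z (true :: v), ?_, ?_⟩
  · rw [hQ]
    have hlen : v.length = P + size (node (num u) I.tr) := by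
      rw [hv, List.length_append, List.length_replicate, size_rpn]
    apply orc_code
    · rw [hv, decode_pad]
    · unfold Val
      rw [← hg0, ← hl0, hlen]
      simp only [size]
      refine ⟨by omega, by omega, by omega⟩
  · refine ⟨_, ?_, Eval.comp (Eval.comp hE (Eval.pair (Eval.comp he1 he2) (Eval.id _))) he3⟩
    set k := κ x with hk
    set n := x.length + 1 with hn
    have hn1 : 1 ≤ n := by omega
    have hne : 1 ≤ n ^ e := Nat.one_le_pow _ _ hn1
    set T := f k * n ^ e with hT
    have hcg := hE.cost_ge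
    have hsl := hE.size_le
    have hG1 : P + 1 ≤ G k := by
      have : g0 ≤ 2 ^ (2 ^ (f k)) := by
        rw [hg0]
        exact Nat.pow_le_pow_right (by norm_num) (Nat.pow_le_pow_right (by norm_num) hpar)
      simp only [G]
      omega
    have hG2 : g0 ≤ G k := by omega
    have hW : T + G k ≤ (f k + G k) * n ^ e := by
      rw [hT, add_mul]
      have : G k * 1 ≤ G k * n ^ e := Nat.mul_le_mul_left _ hne
      omega
    have hR : R.eval (T + G k) ≤ R.eval 1 * (f k + G k) ^ R.natDegree * n ^ (e * R.natDegree) := by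
      refine (poly_mono R hW).trans ?_
      refine (poly_le_pow R _ ?_).trans ?_
      · have : 1 * 1 ≤ (f k + G k) * n ^ e := Nat.mul_le_mul (by omega) hne
        omega
      · rw [mul_pow, ← pow_mul, mul_assoc]
    refine le_trans ?_ hR
    have b1 := poly_mono qP (show size I.tr ≤ 2 * (T + G k) by omega)
    have b2 := poly_mono qD (show g0 ≤ T + G k by omega)
    have b3 : size (node (num P) I.tr) ≤ 4 * (T + G k) + 2 := by
      simp only [size, size_num]
      omega
    have b4 := poly_mono qA b3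
    simp only [R, Polynomial.eval_add, Polynomial.eval_mul, Polynomial.eval_comp,
      Polynomial.eval_X, Polynomial.eval_ofNat]
    omega

end Pool.H98.WH
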