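import Pool.Agent.H88.RO.Arith
import Pool.Agent.H88.RO.Strings

/-!
# The W-hierarchy relative to an oracle (MP_bac569_lc, helper98): definitions and plan

MODEL.  Programs, oracles and costs: `Pool/Agent/H88/RO/Model.lean` (a small language on binary trees, `Eval A c v w τ`: with oracle
`A` the program `c` maps `v` to `w` at cost `τ`).  W[t] relative to `A` is defined by the standard complete problem, the model checking
problem for Σ_{t,u} formulas (an existential block of boundedly many (parameter) variables, then `t - 1` alternating blocks of `u`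
variables each, a quantifier free matrix whose size is bounded in the parameter), whose matrices may also contain atoms `A(string)`,
the string being a concatenation of bits and variables; variables are words of `ℓ` bits, `2 ^ ℓ ≤` size of the instance.

THEOREM (`Final.lean`).  For every `t ≥ 1` there is an oracle `A` with W[t]^A = FPT^A and W[t+1]^A ≠ FPT^A.

PLAN.
* `Orc`: the oracle.  `A (false :: w) = Z w`, `A (true :: v)` is the truth value of the instance coded by `v` (self reference, well founded
  on the length; a code is valid if its length is at least `thr u`, `2 ^ 2 ^ (parameter)` and `2 ^ ℓ`).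
* `Rpn`, `Pad`, `Ask`, `Clps`: the collapse, for every `Z`.
* `F2W`: FPT ⊆ W[t].  `HardP`, `HardW`: the hard problem `HQ Z t` is in W[t+1]^A.
* `Frm`, `Gs`, `Dual`, `Trunc`, `Sel`: formulas and Sipser functions.  `Glue`, `Sat`, `Live`, `Fam`, `Swi`, `SwF`: a weak switching
  lemma for block restrictions.  `NumA`, `Good`, `Step`, `Sip`: small Σ_t formulas do not compute the Sipser function of depth t.
* `Greedy`: the adversary.  `Dep`, `Wit`, `Fo`: queries as Σ_t formulas of the hard bits.  `Hg`: the hard problem in terms of Sipser functions.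
* `NumB`, `Stage`, `Enu`, `Lim`, `Final`.
-/

set_option autoImplicit false

namespace Pool.H98.WH

open Pool.Agent.H88.RO Tr

/-! ### Matrices -/

/-- letters of the argument of an atom: a bit or a variable -/
inductive Wd : Type
  | bit (b : Bool) : Wd
  | var (i : ℕ) : Wd

/-- quantifier free formulas -/
inductive Mat : Type
  /-- a relation of the structure -/
  | tab (ws : List Wd) : Mat
  /-- the oracle -/
  | orc (ws : List Wd) : Mat
  | neg (m : Mat) : Mat
  | conj (m m' : Mat) : Mat

/-- the string described by a list of letters; `ρ` is the list of the values of the variables -/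
def cat (ρ : List (List Bool)) : List Wd → List Bool
  | [] => []
  | .bit b :: ws => b :: cat ρ ws
  | .var i :: ws => ρ.getD i [] ++ cat ρ ws

/-- walking down a tree -/
def walk : Tr → List Bool → Tr
  | z, [] => z
  | z, false :: w => walk (fst z) w
  | z, true :: w => walk (snd z) w

/-- the value of a matrix with oracle `A`, structure `z` and values `ρ` of the variables -/
def Mat.ev (A : List Bool → Bool) (z : Tr) (ρ : List (List Bool)) : Mat → Bool
  | .tab ws => decide (walk z (cat ρ ws) ≠ leaf)
  | .orc ws => A (cat ρ ws)
  | .neg m => !(m.ev A z ρ)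
  | .conj m m' => m.ev A z ρ && m'.ev A z ρ

/-! ### Instances -/

/-- lists of `u` words of length `ℓ` -/
def blocks (ℓ u : ℕ) : Set (List (List Bool)) := {g | g.length = u ∧ ∀ w ∈ g, w.length = ℓ}

/-- `s` alternating blocks of `u` quantifiers over words of length `ℓ`; `q` is the type of the first
one (`true`: existential) -/
def Alt (φ : List (List Bool) → Bool) (ℓ u : ℕ) : ℕ → Bool → List (List Bool) → Prop
  | 0, _, ρ => φ ρ = true
  | s + 1, true, ρ => ∃ g ∈ blocks ℓ u, Alt φ ℓ u s false (ρ ++ g)
  | s + 1, false, ρ => ∀ g ∈ blocks ℓ u, Alt φ ℓ u s true (ρ ++ g)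

/-- an instance of the model checking problem: number of variables of the first block, length of
the words, matrix, structure -/
structure Inst : Type where
  j : ℕ
  ℓ : ℕ
  m : Mat
  z : Tr

/-- the truth value of an instance: an existential block of `j` variables, then `s` alternating
blocks of `u` variables -/
def Inst.Holds (A : List Bool → Bool) (s u : ℕ) (I : Inst) : Prop :=
  ∃ g ∈ blocks I.ℓ I.j, Alt (fun ρ => I.m.ev A I.z ρ) I.ℓ u s false g

/-! ### Codes -/

/-- letters as trees -/
def Wd.tr : Wd → Tr
  | .bit b => node leaf (Tr.bit b)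
  | .var i => node (node leaf leaf) (num i)

/-- lists of letters as trees -/
def wsTr : List Wd → Tr
  | [] => leaf
  | w :: ws => node w.tr (wsTr ws)

/-- matrices as trees -/
def Mat.tr : Mat → Tr
  | .tab ws => node (num 0) (wsTr ws)
  | .orc ws => node (num 1) (wsTr ws)
  | .neg m => node (num 2) m.tr
  | .conj m m' => node (num 3) (node m.tr m'.tr)

/-- instances as trees -/
def Inst.tr (I : Inst) : Tr := node (num I.j) (node (num I.ℓ) (node I.m.tr I.z))

/-- the parameter of an instance -/
def Inst.par (I : Inst) : ℕ := I.j + size I.m.tr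

/-! ### The classes -/

/-- the parameterized problem `(Q, κ)` is in W[t] relative to `A` (`t ≥ 1`): it has an fpt-reduction,
computed with oracle `A`, to the model checking problem for `t` blocks of quantifiers -/
def InW (A : List Bool → Bool) (t : ℕ) (Q : List Bool → Prop) (κ : List Bool → ℕ) : Prop :=
  ∃ (u e : ℕ) (f : ℕ → ℕ) (c : Prog), Computable f ∧ ∀ x, ∃ I : Inst,
    I.par ≤ f (κ x) ∧ 2 ^ I.ℓ ≤ size I.tr ∧
    (∃ τ ≤ f (κ x) * (x.length + 1) ^ e, Eval A c (enc x) I.tr τ) ∧
    (Q x ↔ I.Holds A (t - 1) u)

/-- the parameterized problem `(Q, κ)` is fixed parameter tractable relative to `A` -/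
def InFPT (A : List Bool → Bool) (Q : List Bool → Prop) (κ : List Bool → ℕ) : Prop :=
  ∃ (e : ℕ) (f : ℕ → ℕ) (c : Prog), Computable f ∧ ∀ x, ∃ b : Bool, (b = true ↔ Q x) ∧
    ∃ τ ≤ f (κ x) * (x.length + 1) ^ e, Eval A c (enc x) (Tr.bit b) τ

/-- `κ` is computable in polynomial time (without oracle) -/
def PolyPar (κ : List Bool → ℕ) : Prop :=
  ∃ (c : Prog) (q : Polynomial ℕ), ∀ x, ∃ τ ≤ q.eval x.length,
    Eval (fun _ => false) c (enc x) (num (κ x)) τ

/-! ### The oracle -/

/-- iterated logarithms: a bound for the length of the queries in the matrix of a valid code of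
length `n` -/
def tl (n : ℕ) : ℕ := Nat.log 2 (Nat.log 2 n) * (Nat.log 2 n + 1)

/-- validity of a code of length `n` -/
def Val (thr : ℕ → ℕ) (n u : ℕ) (I : Inst) : Prop :=
  thr u ≤ n ∧ 2 ^ (2 ^ I.par) ≤ n ∧ 2 ^ I.ℓ ≤ n

open Classical in
/-- the value of a string, given the values `B` of the shorter strings -/
noncomputable def stepO (thr : ℕ → ℕ) (s : ℕ) (Z B : List Bool → Bool) : List Bool → Bool
  | [] => false
  | false :: w => Z w
  | true :: v => decide (∃ (u : ℕ) (I : Inst), decode v = node (num u) I.tr ∧
      Val thr v.length u I ∧ I.Holds B s u)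

/-- the values of the strings of length less than `n` -/
noncomputable def orcN (thr : ℕ → ℕ) (s : ℕ) (Z : List Bool → Bool) : ℕ → List Bool → Bool
  | 0 => fun _ => false
  | n + 1 => stepO thr s Z (orcN thr s Z n)

/-- the oracle -/
noncomputable def orc (thr : ℕ → ℕ) (s : ℕ) (Z : List Bool → Bool) (w : List Bool) : Bool :=
  orcN thr s Z (w.length + 1) w

/-! ### The hard problem -/

/-- the number of leading ones -/
def lead : List Bool → ℕ
  | true :: w => lead w + 1
  | _ => 0

/-- the word length -/
def lgl (x : List Bool) : ℕ := Nat.log 2 (x.length + 1)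

/-- the hard problem: `∃ a ∈ ({0,1}^ℓ)^k ∀ b₁ ∈ {0,1}^ℓ ∃ b₂ ... Z(1^k 0 a b₁ ... b_t)` -/
def HQ (Z : List Bool → Bool) (t : ℕ) (x : List Bool) : Prop :=
  ∃ a ∈ blocks (lgl x) (lead x),
    Alt (fun ρ => Z (List.replicate (lead x) true ++ false :: ρ.flatten)) (lgl x) 1 t false a

/-! ### Formulas and Sipser functions -/

/-- every assignment has a certificate of size at most `h` -/
def Cert {V : Type} (h : ℕ) (φ : (V → Bool) → Bool) : Prop :=
  ∀ z, ∃ S : Finset V, S.card ≤ h ∧ ∀ z', (∀ v ∈ S, z' v = z v) → φ z' = φ z

/-- formulas with `t` levels, bottom gates of type `qb` (`true`: or), fan-ins at most `N` and leaves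
with certificates of size at most `h`; the gates of level `i + 1` from the bottom have the type
`not^[i] qb` -/
def IsFm {V : Type} (h N : ℕ) (qb : Bool) : ℕ → ((V → Bool) → Bool) → Prop
  | 0, φ => Cert h φ
  | t + 1, φ => ∃ (ι : Type) (_ : Fintype ι) (ψ : ι → (V → Bool) → Bool), Fintype.card ι ≤ N ∧
      (∀ i, IsFm h N qb t (ψ i)) ∧ ∀ z, (φ z = (not^[t]) qb ↔ ∃ i, ψ i z = (not^[t]) qb)

open Classical in
/-- or (`q = true`) or and (`q = false`) of the values for `b < n` -/
noncomputable def Qf (q : Bool) (n : ℕ) (f : ℕ → Bool) : Bool := if ∃ b < n, f b = q then q else !q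

/-- the Sipser function, bottom up: `q` is the type of the bottom gates, `ns` the fan-ins from the
bottom to the top; the variables are the lists of indices, the head is the lowest index -/
noncomputable def Gup : Bool → List ℕ → (List ℕ → Bool) → Bool
  | _, [], z => z []
  | q, n :: ns, z => Gup (!q) ns (fun bs => Qf q n (fun b => z (b :: bs)))

/-- substitution: every variable is replaced by a variable or a constant -/
def pj {V V' : Type} (π : V → V' ⊕ Bool) (w : V' → Bool) : V → Bool := fun v =>
  match π v with
  | .inl v' => w v'
  | .inr c => c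

/-! ### Block restrictions -/

/-- random choices: for each block a number below `Q` (the block is alive iff it is 0) and a bit for
every variable of the block -/
abbrev Om (B J : Type) (Q : ℕ) : Type := B → Fin Q × (J → Bool)

/-- the restriction given by `ω`: the variable `j` of the block `β` is 1 if its bit is 1, and
otherwise the new variable `β` if the block is alive, 0 if it is dead -/
def restr {B J : Type} {Q : ℕ} (ω : Om B J Q) (w : B → Bool) : B × J → Bool := fun v =>
  if (ω v.1).2 v.2 then true else if (ω v.1).1.val = 0 then w v.1 else false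

end Pool.H98.WH
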