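import Pool.Agent.H98.WH.OrcA

/-!
# [H98 WH ORC] the oracle: fixed point equation and locality

`step_congr`: a valid I has queries of length at most `size I.m.tr * (I.ℓ + 1) ≤ tl |v|` (`val_tl`, `holds_congr`); `decide` of equivalent propositions.
`orc_eq`: first `orcN n w = orcN n' w` for all `n, n' > |w|` by strong induction on |w| (`step_congr`, `tl_le`: the queries are shorter than `|true :: v|`; for [] and false :: w trivial), then unfold one step.
`orc_code`, `orc_true`: `orc_eq`, `stepO`, `decide_eq_true_iff`; the u, I of the code are unique (`num_inj`, `tr_inj`, node injective).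
`orc_loc`: strong induction on |w| with `orc_eq`, `step_congr` (for oracles which agree on short words).  `orc_loc2`: strong induction on |v|: the queries w of `true :: v` have length ≤ tl |v|: [] trivial; `false :: w'`: hypothesis (`orc_false`,
|w'| ≤ tl |v|); `true :: v'`: `|v'| < tl |v| ≤ |v|` (`tl_le`) and `tl |v'| ≤ tl |v|` (`tl_mono`), induction hypothesis.
-/

set_option autoImplicit false

namespace Pool.H98.WH

open Pool.Agent.H88.RO Tr

theorem step_congr (thr : ℕ → ℕ) (s : ℕ) (Z : List Bool → Bool) {A B : List Bool → Bool}
    (v : List Bool) (h : ∀ w : List Bool, w.length ≤ tl v.length → A w = B w) :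
    stepO thr s Z A (true :: v) = stepO thr s Z B (true :: v) := by
  have key : (∃ (u : ℕ) (I : Inst), decode v = node (num u) I.tr ∧
      Val thr v.length u I ∧ I.Holds A s u) ↔ (∃ (u : ℕ) (I : Inst), decode v = node (num u) I.tr ∧
      Val thr v.length u I ∧ I.Holds B s u) := by
    constructor
    · rintro ⟨u, I, h1, h2, h3⟩
      refine ⟨u, I, h1, h2, (holds_congr s u I ?_).mp h3⟩
      intro w hw
      exact h w (hw.trans (val_tl h2).1)
    · rintro ⟨u, I, h1, h2, h3⟩
      refine ⟨u, I, h1, h2, (holds_congr s u I ?_).mpr h3⟩
      intro w hw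
      exact h w (hw.trans (val_tl h2).1)
  simp only [stepO]
  exact decide_eq_decide.mpr key

theorem orcN_stable (thr : ℕ → ℕ) (s : ℕ) (Z : List Bool → Bool) : ∀ (k : ℕ) (w : List Bool),
    w.length = k → ∀ n n' : ℕ, k < n → k < n' → orcN thr s Z n w = orcN thr s Z n' w := by
  intro k
  induction k using Nat.strong_induction_on with
  | _ k ih =>
    intro w hw n n' hn hn'
    obtain ⟨n, rfl⟩ : ∃ m, n = m + 1 := ⟨n - 1, by omega⟩
    obtain ⟨n', rfl⟩ : ∃ m, n' = m + 1 := ⟨n' - 1, by omega⟩
    simp only [orcN]
    cases w with
    | nil => rfl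
    | cons b v =>
      cases b with
      | false => rfl
      | true =>
        apply step_congr
        intro x hx
        have hx' : x.length < k := by
          have := tl_le v.length
          simp only [List.length_cons] at hw
          omega
        exact ih x.length hx' x rfl n n' (by omega) (by omega)

theorem orc_eq (thr : ℕ → ℕ) (s : ℕ) (Z : List Bool → Bool) (w : List Bool) :
    orc thr s Z w = stepO thr s Z (orc thr s Z) w := by
  unfold orc
  simp only [orcN]
  cases w with
  | nil => rfl
  | cons b v =>
    cases b with
    | false => rfl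
    | true =>
      apply step_congr
      intro x hx
      have hx' : x.length ≤ v.length := hx.trans (tl_le v.length)
      simp only [List.length_cons]
      exact orcN_stable thr s Z x.length x rfl _ (x.length + 1) (by omega) (by omega)

theorem orc_false (thr : ℕ → ℕ) (s : ℕ) (Z : List Bool → Bool) (w : List Bool) :
    orc thr s Z (false :: w) = Z w := by
  rw [orc_eq]
  rfl

/-- the oracle decides valid codes -/
theorem orc_code (thr : ℕ → ℕ) (s : ℕ) (Z : List Bool → Bool) {v : List Bool} {u : ℕ} {I : Inst}
    (hv : decode v = node (num u) I.tr) (hI : Val thr v.length u I) :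
    orc thr s Z (true :: v) = true ↔ I.Holds (orc thr s Z) s u := by
  rw [orc_eq]
  simp only [stepO, decide_eq_true_eq]
  constructor
  · rintro ⟨u', I', h1, h2, h3⟩
    rw [hv] at h1
    simp only [Tr.node.injEq] at h1
    have e1 := num_inj h1.1
    have e2 := tr_inj h1.2
    rw [e1, e2]
    exact h3
  · intro h
    exact ⟨u, I, hv, hI, h⟩

/-- a code which is answered yes is valid -/
theorem orc_true (thr : ℕ → ℕ) (s : ℕ) (Z : List Bool → Bool) {v : List Bool}
    (h : orc thr s Z (true :: v) = true) : ∃ (u : ℕ) (I : Inst),
      decode v = node (num u) I.tr ∧ Val thr v.length u I ∧ I.Holds (orc thr s Z) s u := by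
  rw [orc_eq] at h
  simpa only [stepO, decide_eq_true_eq] using h

theorem orc_loc_aux (thr : ℕ → ℕ) (s n : ℕ) {Z Z' : List Bool → Bool}
    (h : ∀ w : List Bool, w.length ≤ n → Z w = Z' w) : ∀ (k : ℕ) (w : List Bool), w.length = k →
    k ≤ n → orc thr s Z w = orc thr s Z' w := by
  intro k
  induction k using Nat.strong_induction_on with
  | _ k ih =>
    intro w hw hn
    cases w with
    | nil => rw [orc_eq, orc_eq]; rfl
    | cons b v =>
      simp only [List.length_cons] at hw
      cases b with
      | false => rw [orc_false, orc_false]; exact h v (by omega)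
      | true =>
        rw [orc_eq, orc_eq (Z := Z')]
        have e : stepO thr s Z (orc thr s Z) (true :: v) =
            stepO thr s Z' (orc thr s Z) (true :: v) := rfl
        rw [e]
        apply step_congr
        intro x hx
        have := tl_le v.length
        exact ih x.length (by omega) x rfl (by omega)

theorem orc_loc (thr : ℕ → ℕ) (s n : ℕ) {Z Z' : List Bool → Bool}
    (h : ∀ w : List Bool, w.length ≤ n → Z w = Z' w) (w : List Bool) (hw : w.length ≤ n) :
    orc thr s Z w = orc thr s Z' w :=
  orc_loc_aux thr s n h w.length w rfl hw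

theorem orc_loc2 (thr : ℕ → ℕ) (s : ℕ) {Z Z' : List Bool → Bool} (v : List Bool)
    (h : ∀ w : List Bool, w.length ≤ tl v.length → Z w = Z' w) :
    orc thr s Z (true :: v) = orc thr s Z' (true :: v) := by
  rw [orc_eq, orc_eq (Z := Z')]
  have e : stepO thr s Z (orc thr s Z) (true :: v) =
      stepO thr s Z' (orc thr s Z) (true :: v) := rfl
  rw [e]
  apply step_congr
  intro x hx
  exact orc_loc thr s (tl v.length) h x hx

end Pool.H98.WH
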