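import Pool.Agent.H98.WH.Hg
import Pool.Agent.H98.WH.Orc

/-!
# [H98 WH DEP] the matrix of a query depends on few entries of the patch

λ = k + 1 + (k + t) ℓ is the length of the changed words.
`leaf_dep`: induction on m (the hypothesis `size m.tr * (ℓ' + 1) ≤ n₁` passes to the parts).  tab: T = ∅.  orc ws: w = `cat ρ ws` has length at most n₁ (`cat_len`, `ws_size`).  w = []: the value is `orc .. [] = false`
(`orc_eq`).  w = false :: w': `orc_false`: `patch Z k ℓ t ζ w'`; if the condition of `patch` holds T = {the pair}, otherwise T = ∅.  w = true :: v: T = ∅, `orc_loc2`: for `|w''| ≤ tl |v| ≤ tl n₁ < λ` (`tl_mono`) both patches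
are Z (`patch_off`).  neg: the same T; conj: the union (card ≤ size m.tr + size m'.tr).  `open Classical` for the Finset of pairs.
`dir_dep`: the case orc of the same argument for a string `false :: w`.
-/

set_option autoImplicit false

namespace Pool.H98.WH

open Pool.Agent.H88.RO Tr

theorem dir_dep (thr : ℕ → ℕ) (s : ℕ) (Z : List Bool → Bool) (k ℓ t : ℕ) (w : List Bool) :
    ∃ T : Finset (List (List Bool) × List ℕ), T.card ≤ 1 ∧
      ∀ ζ ζ' : List (List Bool) → List ℕ → Bool, (∀ p ∈ T, ζ p.1 p.2 = ζ' p.1 p.2) →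
        orc thr s (patch Z k ℓ t ζ) (false :: w) = orc thr s (patch Z k ℓ t ζ') (false :: w) := by
  by_cases hc : w.length = k + 1 + (k + t) * ℓ ∧
      w.take (k + 1) = List.replicate k true ++ [false]
  · refine ⟨{((chunks ℓ (k + t) (w.drop (k + 1))).take k,
      (((chunks ℓ (k + t) (w.drop (k + 1))).drop k).map idx).reverse)}, by simp, ?_⟩
    intro ζ ζ' h
    rw [orc_false, orc_false]
    unfold patch
    rw [if_pos hc, if_pos hc]
    exact h _ (Finset.mem_singleton_self _)
  · refine ⟨∅, by simp, ?_⟩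
    intro ζ ζ' _
    rw [orc_false, orc_false]
    unfold patch
    rw [if_neg hc, if_neg hc]

open Classical in
theorem leaf_dep (thr : ℕ → ℕ) (s : ℕ) (Z : List Bool → Bool) (k ℓ t : ℕ) {ℓ' n₁ : ℕ}
    (hn : tl n₁ < k + 1 + (k + t) * ℓ) (z : Tr) (ρ : List (List Bool))
    (hρ : ∀ w ∈ ρ, w.length ≤ ℓ') (m : Mat) (hm : size m.tr * (ℓ' + 1) ≤ n₁) :
    ∃ T : Finset (List (List Bool) × List ℕ), T.card ≤ size m.tr ∧
      ∀ ζ ζ' : List (List Bool) → List ℕ → Bool, (∀ p ∈ T, ζ p.1 p.2 = ζ' p.1 p.2) →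
        m.ev (orc thr s (patch Z k ℓ t ζ)) z ρ = m.ev (orc thr s (patch Z k ℓ t ζ')) z ρ := by
  induction m with
  | tab ws => exact ⟨∅, by simp, fun ζ ζ' _ => rfl⟩
  | orc ws =>
    have hlen := cat_len hρ ws
    have hws := ws_size ws
    have hsz : ws.length ≤ size (Mat.orc ws).tr := by
      simp only [Mat.tr, size]
      omega
    have hlen' : (cat ρ ws).length ≤ n₁ := hlen.trans ((Nat.mul_le_mul_right _ hsz).trans hm)
    simp only [Mat.ev]
    generalize cat ρ ws = w at *
    cases w with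
    | nil =>
      refine ⟨∅, by simp, fun ζ ζ' _ => ?_⟩
      rw [orc_eq, orc_eq (Z := patch Z k ℓ t ζ')]
      rfl
    | cons c v =>
      cases c with
      | false =>
        obtain ⟨T, hT, h⟩ := dir_dep thr s Z k ℓ t v
        exact ⟨T, hT.trans (one_le_size _), h⟩
      | true =>
        refine ⟨∅, by simp, fun ζ ζ' _ => ?_⟩
        apply orc_loc2
        intro x hx
        simp only [List.length_cons] at hlen'
        have : tl v.length ≤ tl n₁ := tl_mono (by omega)
        rw [patch_off (by omega), patch_off (by omega)]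
  | neg m ih =>
    obtain ⟨T, hT, h⟩ := ih (le_trans (Nat.mul_le_mul_right _ (by
      simp only [Mat.tr, size]; omega)) hm)
    refine ⟨T, hT.trans (by simp only [Mat.tr, size]; omega), fun ζ ζ' hz => ?_⟩
    simp only [Mat.ev]
    rw [h ζ ζ' hz]
  | conj m m' ih ih' =>
    obtain ⟨T, hT, h⟩ := ih (le_trans (Nat.mul_le_mul_right _ (by
      simp only [Mat.tr, size]; omega)) hm)
    obtain ⟨T', hT', h'⟩ := ih' (le_trans (Nat.mul_le_mul_right _ (by
      simp only [Mat.tr, size]; omega)) hm)
    refine ⟨T ∪ T', (Finset.card_union_le _ _).trans (by simp only [Mat.tr, size]; omega),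
      fun ζ ζ' hz => ?_⟩
    simp only [Mat.ev]
    rw [h ζ ζ' (fun p hp => hz p (Finset.mem_union_left _ hp)),
      h' ζ ζ' (fun p hp => hz p (Finset.mem_union_right _ hp))]

end Pool.H98.WH
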