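import Pool.Agent.H98.WH.Frm

/-!
# [H98 WH DUAL] duality (short)

`cert_dual`: the same sets.  `fm_dual`: induction on t; the gate types: `not^[t] (!qb) = !(not^[t] qb)` (`Function.Commute.iterate_right` or induction) and `!x = !T ↔ x = T`.
`gup_dual`: induction on ns with q, z arbitrary: `Qf (!q) n (fun b => !f b) = !(Qf q n f)`.
-/

set_option autoImplicit false

namespace Pool.H98.WH

open Pool.Agent.H88.RO

variable {V : Type}

theorem not_iter (t : ℕ) (q : Bool) : (not^[t]) (!q) = !((not^[t]) q) := by
  have h1 := Function.iterate_succ_apply not t q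
  have h2 := Function.iterate_succ_apply' not t q
  rw [← h1, h2]

theorem not_inj' : ∀ a b : Bool, ((!a) = (!b)) ↔ (a = b) := by decide

theorem cert_dual {h : ℕ} {φ : (V → Bool) → Bool} (hc : Cert h φ) :
    Cert h (fun z => !φ (fun v => !z v)) := by
  intro z
  obtain ⟨S, hS, h1⟩ := hc (fun v => !z v)
  refine ⟨S, hS, fun z' hz' => ?_⟩
  have e := h1 (fun v => !z' v) (fun v hv => by rw [hz' v hv])
  simp only [e]

theorem fm_dual {h N : ℕ} {qb : Bool} (t : ℕ) {φ : (V → Bool) → Bool} (hc : IsFm h N qb t φ) :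
    IsFm h N (!qb) t (fun z => !φ (fun v => !z v)) := by
  induction t generalizing φ with
  | zero => exact cert_dual hc
  | succ t ih =>
    obtain ⟨ι, hι, ψ, h1, h2, h3⟩ := hc
    refine ⟨ι, hι, fun i z => !ψ i (fun v => !z v), h1, fun i => ih (h2 i), ?_⟩
    intro z
    rw [not_iter]
    simp only [not_inj']
    exact h3 _

theorem qf_dual (q : Bool) (n : ℕ) (f : ℕ → Bool) :
    Qf (!q) n (fun b => !f b) = !(Qf q n f) := by
  unfold Qf
  simp only [not_inj', Bool.not_not]
  split_ifs <;> simp

theorem gup_dual (ns : List ℕ) (q : Bool) (z : List ℕ → Bool) :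
    Gup (!q) ns (fun v => !z v) = !(Gup q ns z) := by
  induction ns generalizing q z with
  | nil => rfl
  | cons n ns ih =>
    simp only [Gup]
    have e : (fun bs : List ℕ => Qf (!q) n (fun b => !z (b :: bs))) =
        fun bs => !(Qf q n (fun b => z (b :: bs))) := by
      funext bs
      exact qf_dual q n _
    rw [e]
    exact ih (!q) _

end Pool.H98.WH
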