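import Pool.Agent.H98.WH.Defs

/-!
# [H98 WH ENU] enumeration of the machines with time bounds

`Countable Tr`: `rpn : Tr → List Bool` is injective (`decode_pad 0`: decode (rpn t) = t).  `Countable Prog`: `code` (H88/RO/Machine) is injective (induction; `num` is injective, the tags differ) or an own injection into Tr or ℕ.
`Countable {f : ℕ → ℕ // Computable f}`: `Computable f → Nat.Partrec (fun n => Part.some (f n))`-like (`Computable.partrec`, `Partrec.nat_iff`), `Nat.Partrec.Code.exists_code`; choose a code for each f: injective (`Nat.Partrec.Code` is Denumerable/Encodable).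
`exists_surjective_nat` for the product.
-/

set_option autoImplicit false

namespace Pool.H98.WH

open Pool.Agent.H88.RO

theorem num_inj' : ∀ {a b : ℕ}, num a = num b → a = b := by
  intro a b h
  have := congrArg len h
  simpa [len_num] using this

theorem code_inj : Function.Injective code := by
  intro a
  induction a with
  | id => intro b h; cases b <;> simp only [code, Tr.node.injEq] at h <;>
      first | rfl | exact absurd (num_inj' h.1) (by norm_num)
  | nil => intro b h; cases b <;> simp only [code, Tr.node.injEq] at h <;>
      first | rfl | exact absurd (num_inj' h.1) (by norm_num)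
  | fst => intro b h; cases b <;> simp only [code, Tr.node.injEq] at h <;>
      first | rfl | exact absurd (num_inj' h.1) (by norm_num)
  | snd => intro b h; cases b <;> simp only [code, Tr.node.injEq] at h <;>
      first | rfl | exact absurd (num_inj' h.1) (by norm_num)
  | query => intro b h; cases b <;> simp only [code, Tr.node.injEq] at h <;>
      first | rfl | exact absurd (num_inj' h.1) (by norm_num)
  | pair f g ihf ihg => intro b h; cases b <;> simp only [code, Tr.node.injEq] at h <;>
      first | exact absurd (num_inj' h.1) (by norm_num) | rw [ihf h.2.1, ihg h.2.2]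
  | comp f g ihf ihg => intro b h; cases b <;> simp only [code, Tr.node.injEq] at h <;>
      first | exact absurd (num_inj' h.1) (by norm_num) | rw [ihf h.2.1, ihg h.2.2]
  | cond f g ihf ihg => intro b h; cases b <;> simp only [code, Tr.node.injEq] at h <;>
      first | exact absurd (num_inj' h.1) (by norm_num) | rw [ihf h.2.1, ihg h.2.2]
  | loop f ihf => intro b h; cases b <;> simp only [code, Tr.node.injEq] at h <;>
      first | exact absurd (num_inj' h.1) (by norm_num) | rw [ihf h.2]

theorem rpn_inj : Function.Injective rpn := by
  intro a b h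
  have h1 := decode_pad 0 a
  have h2 := decode_pad 0 b
  rw [h] at h1
  exact h1.symm.trans h2

theorem countable_prog : Countable Prog :=
  Function.Injective.countable (rpn_inj.comp code_inj)

theorem countable_comp : Countable {f : ℕ → ℕ // Computable f} := by
  have h : ∀ f : {f : ℕ → ℕ // Computable f}, ∃ c : Nat.Partrec.Code, c.eval = fun n => (f.1 n : Part ℕ) := by
    intro f
    have h1 : Nat.Partrec (fun n => (f.1 n : Part ℕ)) := Partrec.nat_iff.mp f.2.partrec
    exact Nat.Partrec.Code.exists_code.mp h1
  choose c hc using h
  have hinj : Function.Injective c := by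
    intro f g hfg
    have h1 := (hc f).symm.trans ((congrArg Nat.Partrec.Code.eval hfg).trans (hc g))
    apply Subtype.ext
    funext n
    have h2 := congrFun h1 n
    exact Part.some_injective h2
  exact hinj.countable

theorem enu : ∃ R : ℕ → Prog × ℕ × (ℕ → ℕ), ∀ (c : Prog) (e : ℕ) (f : ℕ → ℕ), Computable f →
    ∃ i, R i = (c, e, f) := by
  have := countable_prog
  have := countable_comp
  have : Nonempty (Prog × ℕ × {f : ℕ → ℕ // Computable f}) :=
    ⟨(Prog.id, 0, ⟨fun _ => 0, Computable.const 0⟩)⟩
  obtain ⟨R, hR⟩ := exists_surjective_nat (Prog × ℕ × {f : ℕ → ℕ // Computable f})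
  refine ⟨fun i => ((R i).1, (R i).2.1, (R i).2.2.1), fun c e f hf => ?_⟩
  obtain ⟨i, hi⟩ := hR (c, e, ⟨f, hf⟩)
  refine ⟨i, ?_⟩
  show ((R i).1, (R i).2.1, (R i).2.2.1) = (c, e, f)
  rw [hi]

end Pool.H98.WH
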