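import Pool.Agent.H98.WH.Defs

/-!
# [H98 WH F2W] FPT is contained in W[t] (short)

u = 0, the same e, f' = fun n => 40 + 40 * f n (computable: `Computable` is closed under composition with primitive recursive functions,
`Primrec.nat_add`, `Primrec.nat_mul`, `.to_comp`), the program `comp (pair nil (pair nil (pair C id))) c` where the program C outputs the constant tree of the matrix
`tab []` (`FP.const'`; its cost on a value of size ≤ 3 is bounded by a constant; f' may use any constant instead of 40).  The instance is ⟨0, 0, tab [], Tr.bit b⟩: `walk z [] = z`,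
`Tr.bit b ≠ leaf ↔ b = true`; all blocks of 0 words are `[]`: `Alt φ 0 0 s q [] ↔ φ [] = true` by induction on s.
-/

set_option autoImplicit false

namespace Pool.H98.WH

open Pool.Agent.H88.RO Tr

theorem blocks_zero_mem {ℓ : ℕ} {g : List (List Bool)} : g ∈ blocks ℓ 0 ↔ g = [] := by
  constructor
  · rintro ⟨h, _⟩
    exact List.length_eq_zero_iff.mp h
  · rintro rfl
    exact ⟨rfl, by simp⟩

theorem alt_zero (φ : List (List Bool) → Bool) (ℓ s : ℕ) (q : Bool) (ρ : List (List Bool)) :
    Alt φ ℓ 0 s q ρ ↔ φ ρ = true := by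
  induction s generalizing q with
  | zero => simp only [Alt]
  | succ s ih =>
    cases q with
    | true =>
      simp only [Alt]
      constructor
      · rintro ⟨g, hg, h⟩
        rw [blocks_zero_mem] at hg
        subst hg
        simpa using (ih false).mp (by simpa using h)
      · intro h
        exact ⟨[], blocks_zero_mem.mpr rfl, by simpa using (ih false).mpr h⟩
    | false =>
      simp only [Alt]
      constructor
      · intro h
        have := h [] (blocks_zero_mem.mpr rfl)
        simpa using (ih true).mp (by simpa using this)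
      · intro h g hg
        rw [blocks_zero_mem] at hg
        subst hg
        simpa using (ih true).mpr h

theorem comp_add {f : ℕ → ℕ} (hf : Computable f) (c : ℕ) : Computable (fun n => f n + c) :=
  (Primrec.nat_add.to_comp).comp hf (Computable.const c)

theorem fpt_le_w (A : List Bool → Bool) (t : ℕ) (Q : List Bool → Prop) (κ : List Bool → ℕ)
    (h : InFPT A Q κ) : InW A t Q κ := by
  obtain ⟨e, f, c, hf, h⟩ := h
  obtain ⟨cG, q, hG⟩ : FP A (fun v => node leaf (node leaf (node (Mat.tab []).tr v))) :=
    FP.node' FP.leaf' (FP.node' FP.leaf' (FP.node' (FP.const' _) FP.id'))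
  refine ⟨0, e + 1, fun n => f n + (q.eval 3 + 6), Prog.comp cG c, comp_add hf _, ?_⟩
  intro x
  obtain ⟨b, hb, τ, hτ, hE⟩ := h x
  obtain ⟨τ2, hτ2, hE2⟩ := hG (Tr.bit b)
  refine ⟨⟨0, 0, Mat.tab [], Tr.bit b⟩, ?_, ?_, ?_, ?_⟩
  · have e1 : size (Mat.tab []).tr = 3 := by simp [Mat.tr, wsTr, size, num]
    simp only [Inst.par, e1]
    omega
  · simp only [pow_zero]
    exact size_pos _
  · refine ⟨τ + τ2 + size (enc x) + 1, ?_, ?_⟩
    · have h1 : τ2 ≤ q.eval 3 := hτ2.trans (poly_mono q (size_bit_le b))
      have h2 := size_enc_le x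
      have hp : (x.length + 1) ^ e ≤ (x.length + 1) ^ (e + 1) :=
        Nat.pow_le_pow_right (by omega) (by omega)
      have hp1 : x.length + 1 ≤ (x.length + 1) ^ (e + 1) := by
        calc x.length + 1 = (x.length + 1) ^ 1 := (pow_one _).symm
          _ ≤ _ := Nat.pow_le_pow_right (by omega) (by omega)
      generalize (x.length + 1) ^ (e + 1) = P at *
      have h3 : f (κ x) * (x.length + 1) ^ e ≤ f (κ x) * P := Nat.mul_le_mul_left _ hp
      have h4 : q.eval 3 + 6 * (x.length + 1) ≤ (q.eval 3 + 6) * P := by
        have : q.eval 3 * 1 ≤ q.eval 3 * P := Nat.mul_le_mul_left _ (by omega)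
        nlinarith
      calc τ + τ2 + size (enc x) + 1 ≤ f (κ x) * P + (q.eval 3 + 6) * P := by omega
        _ = _ := by ring
    · exact Eval.comp hE hE2
  · rw [← hb]
    simp only [Inst.Holds]
    constructor
    · intro hbt
      refine ⟨[], blocks_zero_mem.mpr rfl, (alt_zero _ _ _ _ _).mpr ?_⟩
      simp [Mat.ev, cat, walk, hbt, Tr.bit]
    · rintro ⟨g, hg, h'⟩
      rw [blocks_zero_mem] at hg
      subst hg
      have := (alt_zero _ _ _ _ _).mp h'
      cases b with
      | true => rfl
      | false => simp [Mat.ev, cat, walk, Tr.bit] at this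

end Pool.H98.WH
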