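import Pool.Agent.H98.WH.Defs

/-!
# [H98 WH FAM] disjoint terms or a small hitting set

`Trm F h S z`: the values of z on S (card ≤ h) force F = 1.  `fam`: let m be the largest number ≤ D such that there are m terms with pairwise disjoint block sets
(`Nat.findGreatest`, or induction on D: either there are D + 1 disjoint terms, or ...).  If m = D: first case.  Otherwise H = the union of the block sets (card ≤ m * h ≤ D * h) of a family of
maximal length m: a term whose block set is disjoint from H would extend the family.  (If S is empty then F is constant 1 and S may be used D times: the empty term is disjoint from everything, so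
first case; no problem in the maximality argument.)
`cert1_fix`: if F has 1-certificates of size ≤ h + 1 and every term (card ≤ h + 1) meets H, then F with the variables of the blocks in H fixed to y has 1-certificates of size ≤ h: S' = S without the
variables in the blocks of H.
-/

set_option autoImplicit false

namespace Pool.H98.WH

open Finset

variable {B J : Type} [DecidableEq B] [DecidableEq J]

/-- the function is 1 on the subcube given by the values of `z` on `S` -/
def Trm (F : (B × J → Bool) → Bool) (h : ℕ) (S : Finset (B × J)) (z : B × J → Bool) : Prop :=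
  S.card ≤ h ∧ ∀ z', (∀ v ∈ S, z' v = z v) → F z' = true

/-- every 1-input has a certificate of size at most `h` -/
def Cert1 (h : ℕ) (F : (B × J → Bool) → Bool) : Prop :=
  ∀ z, F z = true → ∃ S, Trm F h S z

omit [DecidableEq J] in
theorem fam (F : (B × J → Bool) → Bool) (h D : ℕ) :
    (∃ (S : Fin D → Finset (B × J)) (z : Fin D → B × J → Bool), (∀ i, Trm F h (S i) (z i)) ∧
      ∀ i i', i ≠ i' → Disjoint ((S i).image Prod.fst) ((S i').image Prod.fst)) ∨
    ∃ H : Finset B, H.card ≤ h * D ∧ ∀ S z, Trm F h S z → ∃ v ∈ S, v.1 ∈ H := by
  induction D with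
  | zero => exact Or.inl ⟨fun i => i.elim0, fun i => i.elim0, fun i => i.elim0, fun i => i.elim0⟩
  | succ D ih =>
    rcases ih with ⟨S, z, h1, h2⟩ | ⟨H, h1, h2⟩
    · let H : Finset B := univ.biUnion (fun i => (S i).image Prod.fst)
      by_cases hh : ∀ S z, Trm F h S z → ∃ v ∈ S, v.1 ∈ H
      · refine Or.inr ⟨H, ?_, hh⟩
        have : H.card ≤ (univ : Finset (Fin D)).card * h :=
          card_biUnion_le_card_mul _ _ _ (fun i _ => card_image_le.trans (h1 i).1)
        rw [card_univ, Fintype.card_fin] at this
        nlinarith
      · push Not at hh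
        obtain ⟨S0, z0, h3, h4⟩ := hh
        have h5 : ∀ i, Disjoint (S0.image Prod.fst) ((S i).image Prod.fst) := by
          intro i
          rw [Finset.disjoint_left]
          intro b hb hb'
          obtain ⟨v, hv, rfl⟩ := mem_image.mp hb
          exact h4 v hv (mem_biUnion.mpr ⟨i, mem_univ _, hb'⟩)
        refine Or.inl ⟨Fin.cons S0 S, Fin.cons z0 z, ?_, ?_⟩
        · intro i
          refine Fin.cases ?_ (fun i => ?_) i
          · simpa using h3
          · simpa using h1 i
        · intro i i'
          refine Fin.cases ?_ (fun i => ?_) i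
          · refine Fin.cases ?_ (fun i' => ?_) i'
            · intro h; exact absurd rfl h
            · intro _
              simpa using h5 i'
          · refine Fin.cases ?_ (fun i' => ?_) i'
            · intro _
              simpa using (h5 i).symm
            · intro h
              simpa using h2 i i' (fun e => h (by rw [e]))
    · exact Or.inr ⟨H, h1.trans (by nlinarith), h2⟩

/-- the variables in the blocks of `H` are fixed to `y` -/
def fixF (F : (B × J → Bool) → Bool) (H : Finset B) (y : B × J → Bool) : (B × J → Bool) → Bool :=
  fun x => F (fun v => if v.1 ∈ H then y v else x v)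

omit [DecidableEq J] in
theorem cert1_fix {F : (B × J → Bool) → Bool} {h : ℕ} (hF : Cert1 (h + 1) F) {H : Finset B}
    (hH : ∀ S z, Trm F (h + 1) S z → ∃ v ∈ S, v.1 ∈ H) (y : B × J → Bool) :
    Cert1 h (fixF F H y) := by
  intro z hz
  obtain ⟨S, hS⟩ := hF _ hz
  obtain ⟨v0, hv0, hv0'⟩ := hH S _ hS
  obtain ⟨hc, h1⟩ := hS
  refine ⟨S.filter (fun v => v.1 ∉ H), ?_, ?_⟩
  · have : (S.filter (fun v => v.1 ∉ H)).card < S.card := by
      apply card_lt_card
      rw [filter_ssubset]
      exact ⟨v0, hv0, by simpa using hv0'⟩
    omega
  · intro z' hz'
    apply h1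
    intro v hv
    by_cases hvH : v.1 ∈ H
    · simp [hvH]
    · simp only [hvH, if_false]
      exact hz' v (mem_filter.mpr ⟨hv, hvH⟩)

end Pool.H98.WH
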