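import Pool.Agent.H98.WH.Defs

/-!
# [H98 WH HARDPA] a program for the number of leading ones

Scan: states `node rest acc`: iterate `len v` times: if rest starts with `true` (= node leaf leaf, i.e. `fst rest ≠ leaf`) then `node (snd rest) (node leaf acc)`, else
`node leaf acc` (rest := leaf, so nothing more is counted; `fst leaf = leaf`).  `FP.iterate_add` (H88/RO/Progs; the size of a state grows by a constant per step), `FP.ite'`-like rules of H88/RO/FP.
-/

set_option autoImplicit false

namespace Pool.H98.WH

open Pool.Agent.H88.RO Tr

/-- one step of the scan -/
def leadS (s : Tr) : Tr :=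
  if fst (fst s) = leaf then node leaf (snd s) else node (snd (fst s)) (node leaf (snd s))

theorem leadS_fp {O : List Bool → Bool} : FP O leadS := by
  unfold leadS
  (repeat (first | with_reducible exact FP.id' | assumption | with_reducible apply FP.fst' | with_reducible apply FP.snd' | with_reducible apply FP.node' | with_reducible apply FP.query' | with_reducible apply FP.ite' | with_reducible exact FP.const' _))

theorem leadS_size (s : Tr) : size (leadS s) ≤ size s + 2 := by
  cases s with
  | leaf => simp [leadS, size]
  | node a b =>
    have := size_snd_le a
    have h1 := size_pos a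
    unfold leadS
    simp only [fst_node, snd_node]
    split_ifs
    · simp only [size]; omega
    · simp only [size]; omega

theorem leadS_stay (n : ℕ) (a : Tr) : leadS^[n] (node leaf a) = node leaf a := by
  induction n with
  | zero => rfl
  | succ n ih => rw [Function.iterate_succ_apply]; simpa [leadS] using ih

theorem leadS_iter (x : List Bool) : ∀ (n m : ℕ), x.length ≤ n →
    snd (leadS^[n] (node (enc x) (num m))) = num (m + lead x) := by
  induction x with
  | nil =>
    intro n m _
    have e : node (enc []) (num m) = node leaf (num m) := rfl
    rw [e, leadS_stay]
    simp [lead]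
  | cons b x ih =>
    intro n m hn
    obtain ⟨n, rfl⟩ : ∃ k, n = k + 1 := ⟨n - 1, by simp at hn; omega⟩
    rw [Function.iterate_succ_apply]
    cases b with
    | false =>
      have e : leadS (node (enc (false :: x)) (num m)) = node leaf (num m) := by
        simp [leadS, enc, Tr.bit]
      rw [e, leadS_stay]
      simp [lead]
    | true =>
      have e : leadS (node (enc (true :: x)) (num m)) = node (enc x) (num (m + 1)) := by
        simp [leadS, enc, Tr.bit, num]
      rw [e, ih n (m + 1) (by simp at hn; omega)]
      simp only [lead]
      congr 1
      omega

theorem lead_fp (O : List Bool → Bool) : ∃ F : Tr → Tr, FP O F ∧ ∀ x, F (enc x) = num (lead x) := by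
  refine ⟨fun v => snd (leadS^[len v] (node v leaf)), ?_, ?_⟩
  · exact FP.snd' (FP.iterate_add leadS_fp FP.id' (FP.node' FP.id' FP.leaf') 2 leadS_size)
  · intro x
    have := leadS_iter x x.length 0 le_rfl
    simp only [len_enc]
    simpa [num] using this

end Pool.H98.WH
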