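import Pool.Agent.H98.WH.Defs

/-!
# [H98 WH HARDPB] a program for the word length

`Nat.log 2 (n + 1)`, n = len v: the largest ℓ with `2 ^ ℓ ≤ n + 1`: count upwards: states `node ℓ cap` with cap = num (n + 1): `pow2cap w cap` =
`num (min (2 ^ len w) (len cap + 1))` (H88/RO/Arith), so `2 ^ (ℓ + 1) ≤ len cap ↔ len (pow2cap (node leaf ℓ) cap) ≤ len cap`, i.e. `dropU cap (pow2cap ..) = leaf` (`dropU_eq_leaf`); increase ℓ in this
case, otherwise keep the state; after `n` steps ℓ = Nat.log 2 (n + 1).  `FP.iterate_add`.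
-/

set_option autoImplicit false

namespace Pool.H98.WH

open Pool.Agent.H88.RO Tr

/-- one step of the search -/
def lglS (s : Tr) : Tr :=
  if dropU (snd s) (pow2cap (node leaf (fst s)) (snd s)) = leaf then
    node (node leaf (fst s)) (snd s) else s

theorem lglS_fp {O : List Bool → Bool} : FP O lglS := by
  unfold lglS
  apply FP.ite'
  · exact FP.dropU' (FP.snd' FP.id') (FP.pow2cap' (FP.node' FP.leaf' (FP.fst' FP.id'))
      (FP.snd' FP.id'))
  · exact FP.node' (FP.node' FP.leaf' (FP.fst' FP.id')) (FP.snd' FP.id')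
  · exact FP.id'

theorem lglS_size (s : Tr) : size (lglS s) ≤ size s + 4 := by
  unfold lglS
  split_ifs
  · cases s with
    | leaf => simp [size]
    | node a b => simp only [fst_node, snd_node, size]; omega
  · omega

theorem lglS_iter (n k : ℕ) : lglS^[k] (node (num 0) (num (n + 1))) =
    node (num (min k (Nat.log 2 (n + 1)))) (num (n + 1)) := by
  induction k with
  | zero => simp
  | succ k ih =>
    rw [Function.iterate_succ_apply', ih]
    unfold lglS
    simp only [fst_node, snd_node]
    have e1 : node leaf (num (min k (Nat.log 2 (n + 1)))) =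
      num (min k (Nat.log 2 (n + 1)) + 1) := rfl
    rw [e1]
    simp only [dropU_eq_leaf, pow2cap_eq, len_num]
    have e2 : (min (2 ^ (min k (Nat.log 2 (n + 1)) + 1)) (n + 1 + 1) ≤ n + 1) ↔
        min k (Nat.log 2 (n + 1)) + 1 ≤ Nat.log 2 (n + 1) := by
      rw [Nat.le_log_iff_pow_le (by norm_num) (by omega)]
      omega
    by_cases h : min k (Nat.log 2 (n + 1)) + 1 ≤ Nat.log 2 (n + 1)
    · rw [if_pos (e2.mpr h)]
      congr 2
      omega
    · rw [if_neg (fun h' => h (e2.mp h'))]
      congr 2
      omega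

theorem lgl_fp (O : List Bool → Bool) : ∃ F : Tr → Tr, FP O F ∧ ∀ x, F (enc x) = num (lgl x) := by
  refine ⟨fun v => fst (lglS^[len v] (node (num 0) (node leaf (ulen v)))), ?_, ?_⟩
  · exact FP.fst' (FP.iterate_add lglS_fp FP.id' (FP.node' (FP.const' _) (FP.node' FP.leaf'
      (FP.ulen' FP.id'))) 4 lglS_size)
  · intro x
    have e : node leaf (ulen (enc x)) = num (x.length + 1) := by
      rw [ulen_eq, len_enc]; rfl
    simp only [len_enc, e, lglS_iter, fst_node]
    congr 1
    unfold lgl
    have := Nat.log_lt_self 2 (show x.length + 1 ≠ 0 by omega)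
    omega

end Pool.H98.WH
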