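import Pool.Agent.H98.WH.HardP
import Pool.Agent.H98.WH.HardPA
import Pool.Agent.H98.WH.HardPB
import Pool.Agent.H98.WH.Orc

/-!
# [H98 WH HARDW] the hard problem is in W[t+1]

The instance of x: ⟨lead x, lgl x, hardM t (lead x), enc x⟩, u = 1.  `2 ^ lgl x ≤ |x| + 1 ≤ size (enc x)` (`Nat.pow_log_le_self`; `size (enc x) ≥ 2 |x| + 1`).
`par ≤ f k`, f k = k + 20 (k + t + 1)^2 (+ the constants below).  The program: `FP` function `v ↦ node (lead) (node (lgl) (node (mat (lead)) v))` (`FP.node'`, `FP.comp'`), polynomial cost in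
`size (enc x) ≤ 4 |x| + 1`; a polynomial q is at most `C (|x| + 1)^e`, put C into f (`f k = C + k + ...`).
Truth: for ρ with `ρ.length = k + t` (all values of the variables at the leaves have this length: k + t blocks of one word) `cat ρ (hardM ..) = false :: (replicate k true ++ false :: ρ.flatten)`
(`ρ.getD i []` for i < length; `(List.range n).map` induction or `List.flatten` of `List.ofFn`), and `orc (false :: w) = Z w` (`orc_false`).  Prove for `Alt`: by induction on s with the
hypothesis that ρ has length n and φ, φ' agree on lists of length n + s.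
`poly_lead`: `lead_fp` with the oracle `fun _ => false`.
-/

set_option autoImplicit false

namespace Pool.H98.WH

open Pool.Agent.H88.RO Tr

theorem cat_append (ρ : List (List Bool)) (a b : List Wd) : cat ρ (a ++ b) = cat ρ a ++ cat ρ b := by
  induction a with
  | nil => simp [cat]
  | cons x a ih => cases x <;> simp [cat, ih]

theorem cat_ones (ρ : List (List Bool)) (k : ℕ) :
    cat ρ (List.replicate k (Wd.bit true)) = List.replicate k true := by
  induction k with
  | zero => simp [cat]
  | succ k ih => simp [List.replicate_succ, cat, ih]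

theorem cat_vars (ρ : List (List Bool)) (l : List ℕ) :
    cat ρ (l.map Wd.var) = (l.map (fun i => ρ.getD i [])).flatten := by
  induction l with
  | nil => simp [cat]
  | cons x a ih => simp [cat, ih]

theorem cat_all (ρ : List (List Bool)) :
    cat ρ ((List.range ρ.length).map Wd.var) = ρ.flatten := by
  rw [cat_vars]
  congr 1
  apply List.ext_getElem
  · simp
  · intro i h1 h2
    simp [h2]

theorem alt_congr_len {φ φ' : List (List Bool) → Bool} {ℓ n : ℕ}
    (h : ∀ ρ : List (List Bool), ρ.length = n → φ ρ = φ' ρ) (s : ℕ) :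
    ∀ (q : Bool) (ρ : List (List Bool)), ρ.length + s = n →
    (Alt φ ℓ 1 s q ρ ↔ Alt φ' ℓ 1 s q ρ) := by
  induction s with
  | zero =>
    intro q ρ hρ
    simp only [Alt]
    rw [h ρ (by omega)]
  | succ s ih =>
    intro q ρ hρ
    have key : ∀ g ∈ blocks ℓ 1, ∀ q', (Alt φ ℓ 1 s q' (ρ ++ g) ↔ Alt φ' ℓ 1 s q' (ρ ++ g)) := by
      intro g hg q'
      apply ih
      have := hg.1
      rw [List.length_append]
      omega
    cases q with
    | true =>
      simp only [Alt]
      constructor
      · rintro ⟨g, hg, h'⟩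
        exact ⟨g, hg, (key g hg _).mp h'⟩
      · rintro ⟨g, hg, h'⟩
        exact ⟨g, hg, (key g hg _).mpr h'⟩
    | false =>
      simp only [Alt]
      constructor
      · intro h' g hg
        exact (key g hg _).mp (h' g hg)
      · intro h' g hg
        exact (key g hg _).mpr (h' g hg)

theorem poly_le_pow' (q : Polynomial ℕ) (W : ℕ) (hW : 1 ≤ W) :
    q.eval W ≤ q.eval 1 * W ^ q.natDegree := by
  rw [Polynomial.eval_eq_sum_range, Polynomial.eval_eq_sum_range, Finset.sum_mul]
  apply Finset.sum_le_sum
  intro i hi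
  simp only [one_pow, mul_one]
  apply Nat.mul_le_mul_left
  apply Nat.pow_le_pow_right hW
  have := Finset.mem_range.mp hi
  omega

theorem size_enc_ge (x : List Bool) : 2 * x.length + 1 ≤ size (enc x) := by
  induction x with
  | nil => simp [enc, size]
  | cons b x ih =>
    simp only [enc, size, List.length_cons]
    have := size_pos (Tr.bit b)
    omega

theorem hardW (A Z : List Bool → Bool) (hA : ∀ w, A (false :: w) = Z w) (t : ℕ) :
    InW A (t + 1) (HQ Z t) lead := by
  obtain ⟨FL, hFL, hL⟩ := lead_fp A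
  obtain ⟨FG, hFG, hG⟩ := lgl_fp A
  obtain ⟨FM, hFM, hM⟩ := mat_fp A t
  obtain ⟨c, q, hc⟩ : FP A (fun v => node (FL v) (node (FG v) (node (FM (FL v)) v))) :=
    FP.node' hFL (FP.node' hFG (FP.node' (FP.comp' hFM hFL) FP.id'))
  let R : Polynomial ℕ := q.comp (4 * Polynomial.X + 1)
  refine ⟨1, R.natDegree, fun k => R.eval 1 + (k + 20 * (k + t + 1) ^ 2), c, ?_, ?_⟩
  · have h1 : Primrec (fun k : ℕ => k + t + 1) :=
      Primrec.succ.comp (Primrec.nat_add.comp Primrec.id (Primrec.const t))
    have h2 : Primrec (fun k : ℕ => (k + t + 1) ^ 2) :=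
      (Primrec.nat_mul.comp h1 h1).of_eq (fun n => by ring)
    have h3 : Primrec (fun k : ℕ => k + 20 * (k + t + 1) ^ 2) :=
      Primrec.nat_add.comp Primrec.id (Primrec.nat_mul.comp (Primrec.const 20) h2)
    exact (Primrec.nat_add.comp (Primrec.const (R.eval 1)) h3).to_comp
  intro x
  refine ⟨⟨lead x, lgl x, hardM t (lead x), enc x⟩, ?_, ?_, ?_, ?_⟩
  · have := hardM_size t (lead x)
    simp only [Inst.par]
    omega
  · have h1 : 2 ^ (lgl x) ≤ x.length + 1 := Nat.pow_log_le_self 2 (by omega)
    have h2 := size_enc_ge x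
    simp only [Inst.tr, size]
    omega
  · obtain ⟨τ, hτ, hE⟩ := hc (enc x)
    simp only [hL, hG, hM] at hE
    refine ⟨τ, ?_, hE⟩
    have h1 : q.eval (size (enc x)) ≤ R.eval (x.length + 1) := by
      simp only [R, Polynomial.eval_comp, Polynomial.eval_add, Polynomial.eval_mul,
        Polynomial.eval_X, Polynomial.eval_one, Polynomial.eval_ofNat]
      apply poly_mono
      have := size_enc_le x
      omega
    have h2 := poly_le_pow' R (x.length + 1) (by omega)
    have h3 : R.eval 1 * (x.length + 1) ^ R.natDegree ≤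
        (R.eval 1 + (lead x + 20 * (lead x + t + 1) ^ 2)) * (x.length + 1) ^ R.natDegree :=
      Nat.mul_le_mul_right _ (by omega)
    exact hτ.trans (h1.trans (h2.trans h3))
  · simp only [HQ, Inst.Holds, Nat.add_sub_cancel]
    have key : ∀ g ∈ blocks (lgl x) (lead x),
        (Alt (fun ρ => Z (List.replicate (lead x) true ++ false :: ρ.flatten)) (lgl x) 1 t false g ↔
        Alt (fun ρ => (hardM t (lead x)).ev A (enc x) ρ) (lgl x) 1 t false g) := by
      intro g hg
      apply alt_congr_len (n := lead x + t)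
      · intro ρ hρ
        simp only [hardM, Mat.ev, cat, cat_append, cat_ones]
        rw [← hρ, cat_all, hA]
      · rw [hg.1]
    constructor
    · rintro ⟨g, hg, h⟩
      exact ⟨g, hg, (key g hg).mp h⟩
    · rintro ⟨g, hg, h⟩
      exact ⟨g, hg, (key g hg).mpr h⟩

theorem poly_lead : PolyPar lead := by
  obtain ⟨F, ⟨c, q, hc⟩, hF⟩ := lead_fp (fun _ => false)
  refine ⟨c, q.comp (4 * Polynomial.X + 1), ?_⟩
  intro x
  obtain ⟨τ, hτ, hE⟩ := hc (enc x)
  rw [hF] at hE
  refine ⟨τ, ?_, hE⟩
  simp only [Polynomial.eval_comp, Polynomial.eval_add, Polynomial.eval_mul,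
        Polynomial.eval_X, Polynomial.eval_one, Polynomial.eval_ofNat]
  exact hτ.trans (poly_mono q (by have := size_enc_le x; omega))

end Pool.H98.WH
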