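import Pool.Agent.H98.WH.Lim
import Pool.Agent.H98.WH.Clps
import Pool.Agent.H98.WH.F2W
import Pool.Agent.H98.WH.HardW

/-!
# The final theorem: for every t an oracle with W[t] = FPT and W[t+1] ≠ FPT
-/

set_option autoImplicit false

namespace Pool.H98.WH

open Pool.Agent.H88.RO Tr

theorem final (t : ℕ) (ht : 1 ≤ t) : ∃ A : List Bool → Bool,
    (∀ (Q : List Bool → Prop) (κ : List Bool → ℕ), InW A t Q κ ↔ InFPT A Q κ) ∧
    ∃ (Q : List Bool → Prop) (κ : List Bool → ℕ), PolyPar κ ∧ InW A (t + 1) Q κ ∧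
      ¬ InFPT A Q κ := by
  obtain ⟨R, hR⟩ := enu
  obtain ⟨thr, Z, hZ⟩ := lim_oracle ht R
  obtain ⟨s, rfl⟩ : ∃ s, t = s + 1 := ⟨t - 1, by omega⟩
  refine ⟨orc thr s Z, fun Q κ => ⟨clps thr s Z Q κ, fpt_le_w _ _ Q κ⟩, HQ Z (s + 1), lead,
    poly_lead, hardW _ Z (orc_false thr s Z) (s + 1), ?_⟩
  rintro ⟨e, f, c, hf, hc⟩
  obtain ⟨i, hi⟩ := hR c e f hf
  obtain ⟨x, hx⟩ := hZ i
  obtain ⟨b, hb, τ, hτ, hE⟩ := hc x
  rw [hi] at hx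
  exact hx b τ hb hτ hE

end Pool.H98.WH
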