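import Pool.Agent.H98.WH.FrmA

/-!
# [H98 WH FRM] disjunctions and alternating quantifiers as formulas

`fm_or`: each ψ i has children ψ' i a, a ∈ ι' i, card ≤ N (`choose`); the new index type is `Σ i, ι' i` (`Fintype.card_sigma`, sum ≤ card ι * N); the top gate of type true is the or of the ors.
`blocks_index`: `Fin u → Fin ℓ → Bool` (card = (2 ^ ℓ) ^ u), mapped onto `blocks ℓ u` by `g ↦ List.ofFn (fun i => List.ofFn (g i))`.
`fm_alt`: the function z ↦ decide (Alt (φ z) ..) is a formula: induction on s with q, ρ arbitrary: s = 0: `hφ ρ` (decide (φ z ρ = true) = φ z ρ).  s + 1: index type of `blocks_index ℓ u`, child `decide (Alt (φ z) ℓ u s (!q) (ρ ++ g i))`; the gate type is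
`not^[s] qb`, and `hq : not^[s+1] qb = !q` gives `not^[s] qb = q` (`Function.iterate_succ_apply'`), the hypothesis for s, !q is `not^[s] qb = !(!q)`; q = true: value true iff some child true; q = false: value false iff some child false.
-/

set_option autoImplicit false

namespace Pool.H98.WH

open Pool.Agent.H88.RO

variable {V V' V'' : Type}

/-- the or of formulas whose top gate is an or -/
theorem fm_or {h N : ℕ} {qb : Bool} {t : ℕ} (ht : (not^[t]) qb = true) {ι : Type} [Fintype ι]
    {ψ : ι → (V → Bool) → Bool} (hψ : ∀ i, IsFm h N qb (t + 1) (ψ i))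
    {φ : (V → Bool) → Bool} (hφ : ∀ z, (φ z = true ↔ ∃ i, ψ i z = true)) :
    IsFm h (Fintype.card ι * N) qb (t + 1) φ := by
  simp only [IsFm] at hψ
  choose ι' hι' ψ' h1 h2 h3 using hψ
  let := hι'
  refine ⟨Σ i, ι' i, inferInstance, fun x => ψ' x.1 x.2, ?_, ?_, ?_⟩
  · rw [Fintype.card_sigma]
    calc ∑ i, Fintype.card (ι' i) ≤ ∑ _i : ι, N := Finset.sum_le_sum (fun i _ => h1 i)
      _ = _ := by simp
  · rintro ⟨i, a⟩
    have hpos : 1 ≤ Fintype.card ι := Fintype.card_pos_iff.mpr ⟨i⟩
    exact fm_mono le_rfl (by nlinarith) qb t (h2 i a)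
  · intro z
    rw [ht, hφ z]
    constructor
    · rintro ⟨i, hi⟩
      have := (h3 i z).mp (by rw [ht]; exact hi)
      obtain ⟨a, ha⟩ := this
      exact ⟨⟨i, a⟩, by rw [ht] at ha; exact ha⟩
    · rintro ⟨⟨i, a⟩, ha⟩
      refine ⟨i, ?_⟩
      have := (h3 i z).mpr ⟨a, by rw [ht]; exact ha⟩
      rw [ht] at this
      exact this

/-- the number of lists of `u` words of length `ℓ` -/
theorem blocks_index (ℓ u : ℕ) : ∃ (ι : Type) (_ : Fintype ι) (g : ι → List (List Bool)),
    Fintype.card ι ≤ 2 ^ (ℓ * u) ∧ (∀ i, g i ∈ blocks ℓ u) ∧ ∀ b ∈ blocks ℓ u, ∃ i, g i = b := by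
  refine ⟨Fin u → Fin ℓ → Bool, inferInstance, fun f => List.ofFn (fun i => List.ofFn (f i)),
    ?_, ?_, ?_⟩
  · simp [pow_mul]
  · intro f
    refine ⟨by simp, ?_⟩
    intro w hw
    rw [List.mem_ofFn] at hw
    obtain ⟨i, rfl⟩ := hw
    simp
  · rintro b ⟨h1, h2⟩
    refine ⟨fun i j => (b.getD i []).getD j false, ?_⟩
    apply List.ext_getElem
    · simp [h1]
    · intro i hi hi'
      simp only [List.getElem_ofFn]
      have e : b.getD i [] = b[i] := by simp [hi']
      have hl : (b[i]).length = ℓ := h2 _ (List.getElem_mem hi')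
      simp only [e]
      apply List.ext_getElem
      · simp [hl]
      · intro j hj hj'
        simp [hj']

open Classical in
/-- alternating quantifiers as a formula -/
theorem fm_alt {h N ℓ u : ℕ} (hN : 2 ^ (ℓ * u) ≤ N) (φ : (V → Bool) → List (List Bool) → Bool)
    (hφ : ∀ ρ, Cert h (fun z => φ z ρ)) (qb : Bool) (s : ℕ) (q : Bool)
    (hq : (not^[s]) qb = !q) (ρ : List (List Bool)) :
    IsFm h N qb s (fun z => decide (Alt (φ z) ℓ u s q ρ)) := by
  induction s generalizing q ρ with
  | zero =>
    have e : (fun z => decide (Alt (φ z) ℓ u 0 q ρ)) = fun z => φ z ρ := by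
      funext z
      simp [Alt]
    rw [e]
    exact hφ ρ
  | succ s ih =>
    obtain ⟨ι, hι, g, h1, h2, h3⟩ := blocks_index ℓ u
    have hq' : (not^[s]) qb = q := by
      rw [Function.iterate_succ_apply'] at hq
      revert hq
      generalize (not^[s]) qb = x
      revert x q
      decide
    refine ⟨ι, hι, fun i z => decide (Alt (φ z) ℓ u s (!q) (ρ ++ g i)), h1.trans hN, ?_, ?_⟩
    · intro i
      exact ih (!q) (by rw [hq', Bool.not_not]) (ρ ++ g i)
    · intro z
      rw [hq']
      cases q with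
      | true =>
        simp only [Alt, decide_eq_true_eq, Bool.not_true]
        constructor
        · rintro ⟨b, hb, h'⟩
          obtain ⟨i, rfl⟩ := h3 b hb
          exact ⟨i, h'⟩
        · rintro ⟨i, h'⟩
          exact ⟨g i, h2 i, h'⟩
      | false =>
        simp only [Alt, decide_eq_false_iff_not, Bool.not_false]
        constructor
        · intro h'
          push Not at h'
          obtain ⟨b, hb, h'⟩ := h'
          obtain ⟨i, rfl⟩ := h3 b hb
          exact ⟨i, h'⟩
        · rintro ⟨i, h'⟩ h4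
          exact h' (h4 (g i) (h2 i))

end Pool.H98.WH
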