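import Pool.Agent.H98.WH.Dep
import Pool.Agent.H98.WH.Frm

/-!
# [H98 WH FO] queries as formulas of the hard bits

`fo_one`: qb = not^[s] true, so `not^[s] qb = true` (two iterates of `not`).  y = []: the constant false: `fm_lift` with a certificate ∅.  y = false :: w: `dir_dep`; the function of w₀ : List ℕ → Bool, ζ' = update ζ b w₀, depends on the w₀ bs with
(b, bs) ∈ T: certificate S = image snd of T.filter (p.1 = b); `fm_lift` (1 ≤ N).  y = true :: v: if there are no u, I with `decode v = node (num u) I.tr` and `Val thr |v| u I` the value is false for all w₀ (`orc_true`), as for [].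
Otherwise u ≤ U and by `orc_code` the value is `decide (I.Holds (orc ..) s u)`; I.Holds = ∃ g ∈ blocks I.ℓ I.j, Alt .. false g: level s + 1 of `IsFm`, index type of `blocks_index I.ℓ I.j` (card ≤ 2 ^ (I.ℓ I.j) ≤ N), gate type
`not^[s] qb = true`, children `fm_alt` with q = false (`not^[s] qb = !false`), u ≤ U, leaves: `Cert` from `leaf_dep` as above (h = log log Qb + 1 ≥ size I.m.tr; ℓ' = I.ℓ, n₁ = tl Qb).  `fm_alt` asks the certificates for all ρ: use the function φ' z ρ which is the
matrix value if all words of ρ have length ≤ I.ℓ and false otherwise, and `alt_congr`.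
`fo`: `fm_or` with ι = {y // y ∈ V} (card = V.card ≤ K), then `fm_mono`.
-/

set_option autoImplicit false

namespace Pool.H98.WH

open Pool.Agent.H88.RO Tr

theorem not_two_iter (s : ℕ) : (not^[s]) ((not^[s]) true) = true := by
  rw [← Function.iterate_add_apply]
  induction s with
  | zero => rfl
  | succ s ih =>
    have e : s + 1 + (s + 1) = (s + s) + 1 + 1 := by ring
    rw [e, Function.iterate_succ_apply', Function.iterate_succ_apply', ih]
    rfl

open Classical in
theorem cert_upd {h : ℕ} (T : Finset (List (List Bool) × List ℕ)) (hT : T.card ≤ h)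
    (F : (List (List Bool) → List ℕ → Bool) → Bool)
    (hF : ∀ ζ ζ' : List (List Bool) → List ℕ → Bool, (∀ p ∈ T, ζ p.1 p.2 = ζ' p.1 p.2) →
      F ζ = F ζ') (ζ : List (List Bool) → List ℕ → Bool) (b : List (List Bool)) :
    Cert h (fun w : List ℕ → Bool => F (Function.update ζ b w)) := by
  intro w
  refine ⟨(T.filter (fun p => p.1 = b)).image Prod.snd,
    Finset.card_image_le.trans ((Finset.card_filter_le _ _).trans hT), fun w' hw' => ?_⟩
  apply hF
  intro p hp
  by_cases hb : p.1 = b
  · have := hw' p.2 (Finset.mem_image_of_mem _ (Finset.mem_filter.mpr ⟨hp, hb⟩))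
    rw [hb]
    simpa using this
  · simp [Function.update_of_ne hb]

theorem cert_const {V : Type} (h : ℕ) (c : Bool) : Cert h (fun _ : V → Bool => c) :=
  fun _ => ⟨∅, by simp, fun _ _ => rfl⟩

open Classical in
theorem fo_one {thr : ℕ → ℕ} {s : ℕ} {Z : List Bool → Bool} {k ℓ t U Qb N : ℕ}
    (hthr : ∀ u, U < u → Qb < thr u) (hn : tl (tl Qb) < k + 1 + (k + t) * ℓ)
    (hN1 : 2 ^ (Nat.log 2 Qb * U) ≤ N) (hN2 : 2 ^ (Nat.log 2 Qb * Nat.log 2 (Nat.log 2 Qb)) ≤ N)
    (ζ : List (List Bool) → List ℕ → Bool) (b : List (List Bool)) (y : List Bool)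
    (hy : y.length ≤ Qb) :
    IsFm (Nat.log 2 (Nat.log 2 Qb) + 1) N ((not^[s]) true) (s + 1)
      (fun w : List ℕ → Bool => orc thr s (patch Z k ℓ t (Function.update ζ b w)) y) := by
  have hN : 1 ≤ N := (Nat.one_le_pow _ _ (by norm_num)).trans hN1
  cases y with
  | nil =>
    have e : (fun w : List ℕ → Bool => orc thr s (patch Z k ℓ t (Function.update ζ b w)) []) =
        fun _ => false := by
      funext w
      rw [orc_eq]
      rfl
    rw [e]
    exact fm_lift hN _ _ (cert_const _ _)
  | cons c v =>
    simp only [List.length_cons] at hy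
    cases c with
    | false =>
      obtain ⟨T, hT, hT2⟩ := dir_dep thr s Z k ℓ t v
      exact fm_lift hN _ _ (cert_upd T (by omega)
        (fun ζ => orc thr s (patch Z k ℓ t ζ) (false :: v)) hT2 ζ b)
    | true =>
      by_cases hex : ∃ (u : ℕ) (I : Inst), decode v = node (num u) I.tr ∧ Val thr v.length u I
      · obtain ⟨u, I, hdec, hVal⟩ := hex
        have hu : u ≤ U := by
          by_contra hu
          have := hthr u (by omega)
          have := hVal.1
          omega
        obtain ⟨hv1, hv2, hv3⟩ := val_tl hVal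
        have hm1 : Nat.log 2 v.length ≤ Nat.log 2 Qb := Nat.log_mono_right (by omega)
        have hm2 : Nat.log 2 (Nat.log 2 v.length) ≤ Nat.log 2 (Nat.log 2 Qb) :=
          Nat.log_mono_right hm1
        have hmt : tl v.length ≤ tl Qb := tl_mono (by omega)
        have hpar : size I.m.tr ≤ I.par := by unfold Inst.par; omega
        have hpar2 : I.j ≤ I.par := by unfold Inst.par; omega
        obtain ⟨ι, hι, g, h1, h2, h3⟩ := blocks_index I.ℓ I.j
        let M : (List ℕ → Bool) → List (List Bool) → Bool := fun w ρ =>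
          I.m.ev (orc thr s (patch Z k ℓ t (Function.update ζ b w))) I.z ρ
        let M' : (List ℕ → Bool) → List (List Bool) → Bool := fun w ρ =>
          if (∀ x ∈ ρ, x.length ≤ I.ℓ) then M w ρ else false
        have hM : ∀ w ρ, (∀ x ∈ ρ, x.length ≤ I.ℓ) → M' w ρ = M w ρ := by
          intro w ρ hρ
          simp only [M', if_pos hρ]
        have hcert : ∀ ρ, Cert (Nat.log 2 (Nat.log 2 Qb) + 1) (fun w => M' w ρ) := by
          intro ρ
          by_cases hρ : ∀ x ∈ ρ, x.length ≤ I.ℓ
          · have e : (fun w => M' w ρ) = fun w => M w ρ := by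
              funext w
              exact hM w ρ hρ
            rw [e]
            obtain ⟨T, hT, hT2⟩ := leaf_dep thr s Z k ℓ t hn I.z ρ hρ I.m (hv1.trans hmt)
            exact cert_upd T (by omega)
              (fun ζ => I.m.ev (orc thr s (patch Z k ℓ t ζ)) I.z ρ) hT2 ζ b
          · have e : (fun w => M' w ρ) = fun _ => false := by
              funext w
              simp only [M', if_neg hρ]
            rw [e]
            exact cert_const _ _
        refine ⟨ι, hι, fun i w => decide (Alt (M' w) I.ℓ u s false (g i)), ?_, ?_, ?_⟩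
        · refine h1.trans (le_trans ?_ hN2)
          apply Nat.pow_le_pow_right (by norm_num)
          exact Nat.mul_le_mul (by omega) (by omega)
        · intro i
          apply fm_alt (q := false) _ M' hcert
          · rw [not_two_iter]; rfl
          · refine le_trans ?_ hN1
            apply Nat.pow_le_pow_right (by norm_num)
            exact Nat.mul_le_mul (by omega) hu
        · intro w
          rw [not_two_iter]
          simp only [decide_eq_true_eq]
          rw [orc_code thr s _ hdec hVal]
          have key : ∀ g' ∈ blocks I.ℓ I.j, (Alt (M' w) I.ℓ u s false g' ↔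
              Alt (fun ρ => M w ρ) I.ℓ u s false g') := by
            intro g' hg'
            exact alt_congr s false g' (fun x hx => (hg'.2 x hx).le) (fun ρ hρ => hM w ρ hρ)
          constructor
          · rintro ⟨g', hg', h'⟩
            obtain ⟨i, rfl⟩ := h3 g' hg'
            exact ⟨i, (key _ hg').mpr h'⟩
          · rintro ⟨i, h'⟩
            exact ⟨g i, h2 i, (key _ (h2 i)).mp h'⟩
      · have e : (fun w : List ℕ → Bool =>
            orc thr s (patch Z k ℓ t (Function.update ζ b w)) (true :: v)) = fun _ => false := by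
          funext w
          by_contra hne
          have hne' : orc thr s (patch Z k ℓ t (Function.update ζ b w)) (true :: v) = true := by
            simpa using hne
          obtain ⟨u, I, hdec, hVal, _⟩ := orc_true thr s _ hne'
          exact hex ⟨u, I, hdec, hVal⟩
        rw [e]
        exact fm_lift hN _ _ (cert_const _ _)

open Classical in
theorem fo {thr : ℕ → ℕ} {s : ℕ} {Z : List Bool → Bool} {k ℓ t U Qb N K : ℕ}
    (hthr : ∀ u, U < u → Qb < thr u) (hn : tl (tl Qb) < k + 1 + (k + t) * ℓ)
    (hN1 : 2 ^ (Nat.log 2 Qb * U) ≤ N) (hN2 : 2 ^ (Nat.log 2 Qb * Nat.log 2 (Nat.log 2 Qb)) ≤ N)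
    (ζ : List (List Bool) → List ℕ → Bool) (b : List (List Bool))
    (V : Finset {y : List Bool // y.length ≤ Qb}) (hV : V.card ≤ K) (_hK : 1 ≤ K) :
    IsFm (Nat.log 2 (Nat.log 2 Qb) + 1) (K * N) ((not^[s]) true) (s + 1)
      (fun w : List ℕ → Bool => decide (∃ y ∈ V,
        orc thr s (patch Z k ℓ t (Function.update ζ b w)) y.1 = true)) := by
  have h := fm_or (not_two_iter s) (ι := {y // y ∈ V})
    (ψ := fun y w => orc thr s (patch Z k ℓ t (Function.update ζ b w)) y.1.1)
    (fun y => fo_one hthr hn hN1 hN2 ζ b y.1.1 y.1.2)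
    (φ := fun w : List ℕ → Bool => decide (∃ y ∈ V,
        orc thr s (patch Z k ℓ t (Function.update ζ b w)) y.1 = true)) (by
      intro w
      simp only [decide_eq_true_eq]
      constructor
      · rintro ⟨y, hy, h'⟩
        exact ⟨⟨y, hy⟩, h'⟩
      · rintro ⟨⟨y, hy⟩, h'⟩
        exact ⟨y, hy, h'⟩)
  refine fm_mono le_rfl ?_ _ _ h
  rw [Fintype.card_coe]
  exact Nat.mul_le_mul_right _ hV

end Pool.H98.WH
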