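import Pool.Agent.H98.WH.Defs

/-!
# [H98 WH FRMA] elementary properties of formulas

`fm_mono`: induction on t (`cert_mono`).  `pj_comp`: cases on π v and π' v'.  `cert_pj`: for w take the certificate S of φ at `pj π w`, and the image of S under π (the v' with `π v = inl v'`,
v ∈ S: `Finset.biUnion`/`filterMap`, card ≤ S.card; `open Classical`).  `cert_pull`: the case π v = inl (g v).  `fm_pj`: induction on t.  `fm_lift`: induction on t, ι = Unit, ψ = φ.
-/

set_option autoImplicit false

namespace Pool.H98.WH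

open Pool.Agent.H88.RO

variable {V V' V'' : Type}

theorem cert_mono {h h' : ℕ} (hh : h ≤ h') {φ : (V → Bool) → Bool} (hc : Cert h φ) : Cert h' φ := by
  intro z
  obtain ⟨S, hS, h1⟩ := hc z
  exact ⟨S, hS.trans hh, h1⟩

theorem fm_mono {h h' N N' : ℕ} (hh : h ≤ h') (hN : N ≤ N') (qb : Bool) (t : ℕ)
    {φ : (V → Bool) → Bool} (hc : IsFm h N qb t φ) : IsFm h' N' qb t φ := by
  induction t generalizing φ with
  | zero => exact cert_mono hh hc
  | succ t ih =>
    obtain ⟨ι, hι, ψ, h1, h2, h3⟩ := hc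
    exact ⟨ι, hι, ψ, h1.trans hN, fun i => ih (h2 i), h3⟩

theorem pj_comp (π : V → V' ⊕ Bool) (π' : V' → V'' ⊕ Bool) :
    ∃ π'' : V → V'' ⊕ Bool, ∀ w, pj π (pj π' w) = pj π'' w := by
  refine ⟨fun v => match π v with
    | .inl v' => π' v'
    | .inr c => .inr c, fun w => ?_⟩
  funext v
  rcases h : π v with v' | c
  · simp [pj, h]
  · simp [pj, h]

open Classical in
theorem cert_pj {h : ℕ} {φ : (V → Bool) → Bool} (hc : Cert h φ) (π : V → V' ⊕ Bool) :
    Cert h (fun w => φ (pj π w)) := by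
  intro w
  obtain ⟨S, hS, h1⟩ := hc (pj π w)
  refine ⟨S.biUnion (fun v => match π v with
    | .inl v' => {v'}
    | .inr _ => ∅), ?_, ?_⟩
  · refine le_trans (Finset.card_biUnion_le_card_mul S _ 1 ?_) (by omega)
    intro v _
    rcases π v with v' | c <;> simp
  · intro w' hw'
    apply h1
    intro v hv
    rcases h : π v with v' | c
    · have := hw' v' (by
        rw [Finset.mem_biUnion]
        exact ⟨v, hv, by simp [h]⟩)
      simp [pj, h, this]
    · simp [pj, h]

theorem cert_pull {h : ℕ} {φ : (V → Bool) → Bool} (hc : Cert h φ) (g : V → V') :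
    Cert h (fun w : V' → Bool => φ (fun v => w (g v))) :=
  cert_pj hc (fun v => .inl (g v))

theorem fm_pj {h N : ℕ} {qb : Bool} (t : ℕ) {φ : (V → Bool) → Bool} (hc : IsFm h N qb t φ)
    (π : V → V' ⊕ Bool) : IsFm h N qb t (fun w => φ (pj π w)) := by
  induction t generalizing φ with
  | zero => exact cert_pj hc π
  | succ t ih =>
    obtain ⟨ι, hι, ψ, h1, h2, h3⟩ := hc
    exact ⟨ι, hι, fun i w => ψ i (pj π w), h1, fun i => ih (h2 i), fun w => h3 (pj π w)⟩

theorem fm_lift {h N : ℕ} (hN : 1 ≤ N) (qb : Bool) (t : ℕ) {φ : (V → Bool) → Bool}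
    (hc : Cert h φ) : IsFm h N qb t φ := by
  induction t with
  | zero => exact hc
  | succ t ih => exact ⟨Unit, inferInstance, fun _ => φ, by simpa using hN, fun _ => ih, by simp⟩

end Pool.H98.WH
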