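import Pool.Agent.H98.WH.Defs

/-!
# [H98 WH GLUE] independence by resampling

`glue_sum`: the map (ω₁, ω₂) ↦ (glue H ω₁ ω₂, glue H ω₂ ω₁) is an involution of the pairs, so `∑_{ω₁} ∑_{ω₂} f (glue H ω₁ ω₂) = ∑_{ω₁} ∑_{ω₂} f ω₁` (`Finset.sum_nbij'`/`Equiv.sum_comp` on the product).
`glue_card`: `card {P ∧ P'} * card = ∑∑ 1[P ∧ P'](glue ω₁ ω₂) = ∑∑ 1[P ω₁] 1[P' ω₂]`.
-/

set_option autoImplicit false

namespace Pool.H98.WH

open Finset

variable {B X : Type} [Fintype B] [DecidableEq B] [Fintype X]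

/-- `ω₁` on `H`, `ω₂` outside -/
def glue (H : Finset B) (ω₁ ω₂ : B → X) : B → X := fun b => if b ∈ H then ω₁ b else ω₂ b

omit [Fintype B] [Fintype X] in
theorem glue_glue (H : Finset B) (ω₁ ω₂ : B → X) :
    glue H (glue H ω₁ ω₂) (glue H ω₂ ω₁) = ω₁ := by
  funext b
  unfold glue
  by_cases h : b ∈ H <;> simp [h]

theorem glue_sum (H : Finset B) (f : (B → X) → ℕ) :
    ∑ ω₁ : B → X, ∑ ω₂ : B → X, f (glue H ω₁ ω₂) = Fintype.card (B → X) * ∑ ω, f ω := by
  let e : ((B → X) × (B → X)) ≃ ((B → X) × (B → X)) :=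
    { toFun := fun p => (glue H p.1 p.2, glue H p.2 p.1)
      invFun := fun p => (glue H p.1 p.2, glue H p.2 p.1)
      left_inv := fun p => by
        rcases p with ⟨x, y⟩
        simp only [glue_glue]
      right_inv := fun p => by
        rcases p with ⟨x, y⟩
        simp only [glue_glue] }
  have h1 : ∑ ω₁ : B → X, ∑ ω₂ : B → X, f (glue H ω₁ ω₂) =
      ∑ p : (B → X) × (B → X), f (e p).1 := by
    rw [Fintype.sum_prod_type]
    rfl
  have h2 : ∑ p : (B → X) × (B → X), f (e p).1 = ∑ p : (B → X) × (B → X), f p.1 :=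
    Equiv.sum_comp e (fun p => f p.1)
  rw [h1, h2, Fintype.sum_prod_type]
  simp only [sum_const, card_univ, smul_eq_mul]
  rw [mul_sum]

open Classical in
/-- independence of an event on `H` and an event outside `H` -/
theorem glue_card (H : Finset B) (P P' : (B → X) → Prop)
    (hP : ∀ ω ω' : B → X, (∀ b ∈ H, ω b = ω' b) → (P ω ↔ P ω'))
    (hP' : ∀ ω ω' : B → X, (∀ b, b ∉ H → ω b = ω' b) → (P' ω ↔ P' ω')) :
    (univ.filter (fun ω : B → X => P ω ∧ P' ω)).card * Fintype.card (B → X) =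
      (univ.filter (fun ω : B → X => P ω)).card * (univ.filter (fun ω : B → X => P' ω)).card := by
  have h := glue_sum H (fun ω : B → X => if P ω ∧ P' ω then 1 else 0)
  have e1 : ∀ ω₁ ω₂ : B → X, (if P (glue H ω₁ ω₂) ∧ P' (glue H ω₁ ω₂) then 1 else 0 : ℕ) =
      (if P ω₁ then 1 else 0) * (if P' ω₂ then 1 else 0) := by
    intro ω₁ ω₂
    have a1 : P (glue H ω₁ ω₂) ↔ P ω₁ := hP _ _ (fun b hb => by simp [glue, hb])
    have a2 : P' (glue H ω₁ ω₂) ↔ P' ω₂ := hP' _ _ (fun b hb => by simp [glue, hb])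
    rw [a1, a2]
    by_cases p1 : P ω₁ <;> by_cases p2 : P' ω₂ <;> simp [p1, p2]
  simp only [e1] at h
  rw [card_filter, card_filter, card_filter, mul_comm _ (Fintype.card (B → X)), ← h, sum_mul]
  apply sum_congr rfl
  intro x _
  rw [mul_sum]

end Pool.H98.WH
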