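import Pool.Agent.H98.WH.Sel
import Pool.Agent.H98.WH.Glue

/-!
# [H98 WH GOOD] most restrictions are good

n = n' * g.  The bad ω: (1) for some β all bits are 1: for fixed β a fraction `1 / 2 ^ n` (card of `Fin Q × (Fin n → Bool)` is `Q 2 ^ n`; the event for one coordinate: `Fintype.card_pi`/`piFinset`: the set of the ω
with `ω β ∈ A` has card `card A * card (X)^(card B - 1)`; general lemma: `card {ω | ω b ∈ A} * card X = card A * card Ω`).  (2) for some γ, c' all the g blocks `Fin.cons c γ`, c / g = c', are dead: for fixed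
(γ, c') the fraction is `(1 - 1/Q)^g` (product set: `Fintype.piFinset`; the blocks c = c' g + d, d < g are distinct; `card {ω | ∀ b ∈ R, ω b ∈ A} * card X ^ R.card = card A ^ R.card * card Ω`, R.card = g, card A = (Q-1) 2^n).
Union bound: number of β: n ^ (s+1), number of (γ, c'): n ^ s n' ≤ n ^ (s+1).
-/

set_option autoImplicit false

namespace Pool.H98.WH

open Finset

theorem box_card {B X : Type} [Fintype B] [DecidableEq B] [Fintype X] (R : Finset B)
    (p : X → Prop) [DecidablePred p] [DecidablePred (fun ω : B → X => ∀ b ∈ R, p (ω b))] :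
    (univ.filter (fun ω : B → X => ∀ b ∈ R, p (ω b))).card * Fintype.card X ^ R.card =
      (univ.filter (fun x : X => p x)).card ^ R.card * Fintype.card (B → X) := by
  have e : (univ.filter (fun ω : B → X => ∀ b ∈ R, p (ω b))) =
      Fintype.piFinset (fun b : B => if b ∈ R then univ.filter (fun x : X => p x) else univ) := by
    ext ω
    simp only [mem_filter, mem_univ, true_and, Fintype.mem_piFinset]
    constructor
    · intro h b
      by_cases hb : b ∈ R
      · rw [if_pos hb]; simpa using h b hb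
      · rw [if_neg hb]; exact mem_univ _
    · intro h b hb
      have := h b
      rw [if_pos hb] at this
      simpa using this
  rw [e, Fintype.card_piFinset]
  have e2 : ∀ b : B, (if b ∈ R then univ.filter (fun x : X => p x) else univ).card =
      if b ∈ R then (univ.filter (fun x : X => p x)).card else Fintype.card X := by
    intro b
    by_cases hb : b ∈ R
    · rw [if_pos hb, if_pos hb]
    · rw [if_neg hb, if_neg hb, card_univ]
  simp only [e2]
  rw [prod_ite, prod_const, prod_const, Fintype.card_fun]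
  have e3 : (univ.filter (fun b => b ∈ R)) = R := by ext b; simp
  rw [e3]
  have e4 : Fintype.card B = R.card + (univ.filter (fun b => b ∉ R)).card := by
    have := card_filter_add_card_filter_not (s := (univ : Finset B)) (fun b => b ∈ R)
    rw [e3, card_univ] at this
    exact this.symm
  rw [e4, pow_add]
  ring

open Classical in
theorem bad_one {B : Type} [Fintype B] [DecidableEq B] {n Q : ℕ} (hQ : 1 ≤ Q) (β : B) :
    ((univ.filter (fun ω : Om B (Fin n) Q => ∀ j, (ω β).2 j = true)).card : ℝ) =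
      1 / 2 ^ n * Fintype.card (Om B (Fin n) Q) := by
  have h := box_card (B := B) (X := Fin Q × (Fin n → Bool)) {β} (fun x => ∀ j, x.2 j = true)
  simp only [mem_singleton, forall_eq, card_singleton, pow_one] at h
  have e1 : (univ.filter (fun x : Fin Q × (Fin n → Bool) => ∀ j, x.2 j = true)).card = Q := by
    have : (univ.filter (fun x : Fin Q × (Fin n → Bool) => ∀ j, x.2 j = true)) =
        (univ : Finset (Fin Q)).image (fun a => (a, fun _ => true)) := by
      ext x
      simp only [mem_filter, mem_univ, true_and, mem_image]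
      constructor
      · intro hx
        exact ⟨x.1, Prod.ext rfl (funext fun j => (hx j).symm)⟩
      · rintro ⟨a, rfl⟩ j
        rfl
    rw [this, card_image_of_injective, card_univ, Fintype.card_fin]
    intro a b hab
    exact (Prod.mk.inj hab).1
  have e2 : Fintype.card (Fin Q × (Fin n → Bool)) = Q * 2 ^ n := by simp
  rw [e1, e2] at h
  have h' : ((univ.filter (fun ω : Om B (Fin n) Q => ∀ j, (ω β).2 j = true)).card : ℝ) *
      (Q * 2 ^ n) = Q * Fintype.card (Om B (Fin n) Q) := by
    have h8 : (univ.filter (fun ω : Om B (Fin n) Q => ∀ j, (ω β).2 j = true)).card *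
      (Q * 2 ^ n) = Q * Fintype.card (Om B (Fin n) Q) := by convert h
    exact_mod_cast h8
  have hQ' : (0 : ℝ) < Q := by exact_mod_cast hQ
  have h2 : (0 : ℝ) < 2 ^ n := by positivity
  field_simp
  nlinarith [h', hQ']

open Classical in
theorem bad_two {B : Type} [Fintype B] [DecidableEq B] {n Q : ℕ} (hQ : 1 ≤ Q) (R : Finset B) :
    ((univ.filter (fun ω : Om B (Fin n) Q => ∀ b ∈ R, (ω b).1.val ≠ 0)).card : ℝ) =
      (1 - 1 / (Q : ℝ)) ^ R.card * Fintype.card (Om B (Fin n) Q) := by
  have h := box_card (B := B) (X := Fin Q × (Fin n → Bool)) R (fun x => x.1.val ≠ 0)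
  have e1 : (univ.filter (fun x : Fin Q × (Fin n → Bool) => x.1.val ≠ 0)).card =
      (Q - 1) * 2 ^ n := by
    have : (univ.filter (fun x : Fin Q × (Fin n → Bool) => x.1.val ≠ 0)) =
        (univ.filter (fun a : Fin Q => a.val ≠ 0)) ×ˢ (univ : Finset (Fin n → Bool)) := by
      ext x
      simp
    rw [this, card_product, card_univ]
    congr 1
    · have e3 : (univ.filter (fun a : Fin Q => a.val ≠ 0)) =
          (univ : Finset (Fin Q)).erase ⟨0, hQ⟩ := by
        ext a
        simp [Fin.ext_iff]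
      rw [e3, card_erase_of_mem (mem_univ _), card_univ, Fintype.card_fin]
    · simp
  have e2 : Fintype.card (Fin Q × (Fin n → Bool)) = Q * 2 ^ n := by simp
  rw [e1, e2] at h
  have h' : ((univ.filter (fun ω : Om B (Fin n) Q => ∀ b ∈ R, (ω b).1.val ≠ 0)).card : ℝ) *
      ((Q : ℝ) * 2 ^ n) ^ R.card =
      (((Q : ℝ) - 1) * 2 ^ n) ^ R.card * Fintype.card (Om B (Fin n) Q) := by
    have h8 : (univ.filter (fun ω : Om B (Fin n) Q => ∀ b ∈ R, (ω b).1.val ≠ 0)).card *
      (Q * 2 ^ n) ^ R.card = ((Q - 1) * 2 ^ n) ^ R.card * Fintype.card (Om B (Fin n) Q) := by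
      convert h
    have h9 := congrArg (fun x : ℕ => (x : ℝ)) h8
    push_cast [Nat.cast_sub hQ] at h9
    exact h9
  have hQ' : (0 : ℝ) < Q := by exact_mod_cast hQ
  have h2 : (0 : ℝ) < ((Q : ℝ) * 2 ^ n) ^ R.card := by positivity
  have e5 : (((Q : ℝ) - 1) * 2 ^ n) ^ R.card =
      (1 - 1 / (Q : ℝ)) ^ R.card * ((Q : ℝ) * 2 ^ n) ^ R.card := by
    rw [← mul_pow]
    congr 1
    field_simp
  rw [e5] at h'
  refine mul_right_cancel₀ h2.ne' ?_
  rw [h']
  ring

open Classical in
theorem good_card {n n' g s Q : ℕ} (hQ : 1 ≤ Q) (hg : 1 ≤ g) (hn : n = n' * g) :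
    ((univ.filter (fun ω : Om (Fin (s + 1) → Fin n) (Fin n) Q => ¬ GoodOm n' g ω)).card : ℝ) ≤
      (n : ℝ) ^ (s + 1) * (1 / 2 ^ n + (1 - 1 / (Q : ℝ)) ^ g) *
        Fintype.card (Om (Fin (s + 1) → Fin n) (Fin n) Q) := by
  set C : ℝ := (Fintype.card (Om (Fin (s + 1) → Fin n) (Fin n) Q) : ℝ) with hC
  have hidx : ∀ (c' : Fin n') (d : Fin g), (c' : ℕ) * g + d < n := by
    intro c' d
    rw [hn]
    have h1 := c'.2
    have h2 := d.2
    calc (c' : ℕ) * g + d < (c' : ℕ) * g + g := by omega
      _ = ((c' : ℕ) + 1) * g := by ring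
      _ ≤ n' * g := Nat.mul_le_mul_right _ (by omega)
  let Rb : (Fin s → Fin n) × Fin n' → Finset (Fin (s + 1) → Fin n) := fun p =>
    (univ : Finset (Fin g)).image (fun d : Fin g =>
      (Fin.cons (⟨(p.2 : ℕ) * g + (d : ℕ), hidx p.2 d⟩ : Fin n) p.1 : Fin (s + 1) → Fin n))
  have hRc : ∀ p, (Rb p).card = g := by
    intro p
    simp only [Rb]
    rw [card_image_of_injective, card_univ, Fintype.card_fin]
    intro d d' hdd
    have h0 := congrFun hdd 0
    simp only [Fin.cons_zero, Fin.mk.injEq] at h0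
    exact Fin.ext (by omega)
  have hsub : (univ.filter (fun ω : Om (Fin (s + 1) → Fin n) (Fin n) Q => ¬ GoodOm n' g ω)) ⊆
      ((univ : Finset (Fin (s + 1) → Fin n)).biUnion (fun β =>
        univ.filter (fun ω : Om (Fin (s + 1) → Fin n) (Fin n) Q => ∀ j, (ω β).2 j = true))) ∪
      ((univ : Finset ((Fin s → Fin n) × Fin n')).biUnion (fun p =>
        univ.filter (fun ω : Om (Fin (s + 1) → Fin n) (Fin n) Q =>
          ∀ b ∈ Rb p, (ω b).1.val ≠ 0))) := by
    intro ω hω
    simp only [mem_filter, mem_univ, true_and] at hω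
    rw [mem_union, mem_biUnion, mem_biUnion]
    by_contra hn2
    push Not at hn2
    obtain ⟨h1, h2⟩ := hn2
    apply hω
    constructor
    · intro β
      have := h1 β (mem_univ _)
      simp only [mem_filter, mem_univ, true_and, not_forall] at this
      obtain ⟨j, hj⟩ := this
      exact ⟨j, by simpa using hj⟩
    · intro γ c' hc'
      have := h2 (γ, ⟨c', hc'⟩) (mem_univ _)
      simp only [mem_filter, mem_univ, true_and, not_forall, not_not] at this
      obtain ⟨b, hb, h0⟩ := this
      obtain ⟨d, _, rfl⟩ := mem_image.mp hb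
      refine ⟨⟨c' * g + (d : ℕ), hidx ⟨c', hc'⟩ d⟩, ?_, h0⟩
      simp only
      rw [mul_comm, Nat.mul_add_div (by omega), Nat.div_eq_of_lt d.2, add_zero]
  have hcard : ((univ.filter (fun ω : Om (Fin (s + 1) → Fin n) (Fin n) Q =>
      ¬ GoodOm n' g ω)).card : ℝ) ≤
      (∑ β : Fin (s + 1) → Fin n, ((univ.filter (fun ω : Om (Fin (s + 1) → Fin n) (Fin n) Q =>
        ∀ j, (ω β).2 j = true)).card : ℝ)) +
      ∑ p : (Fin s → Fin n) × Fin n', ((univ.filter (fun ω : Om (Fin (s + 1) → Fin n) (Fin n) Q =>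
          ∀ b ∈ Rb p, (ω b).1.val ≠ 0)).card : ℝ) := by
    have h9 := (card_le_card hsub).trans ((card_union_le _ _).trans
      (add_le_add card_biUnion_le card_biUnion_le))
    exact_mod_cast h9
  refine hcard.trans ?_
  have s1 : ∀ β : Fin (s + 1) → Fin n, ((univ.filter
      (fun ω : Om (Fin (s + 1) → Fin n) (Fin n) Q => ∀ j, (ω β).2 j = true)).card : ℝ) =
      1 / 2 ^ n * C := fun β => bad_one hQ β
  have s2 : ∀ p : (Fin s → Fin n) × Fin n', ((univ.filter
      (fun ω : Om (Fin (s + 1) → Fin n) (Fin n) Q => ∀ b ∈ Rb p, (ω b).1.val ≠ 0)).card : ℝ) =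
      (1 - 1 / (Q : ℝ)) ^ g * C := by
    intro p
    have := bad_two (n := n) hQ (Rb p)
    rw [hRc] at this
    exact this
  simp only [s1, s2]
  rw [sum_const, sum_const, card_univ, card_univ, nsmul_eq_mul, nsmul_eq_mul]
  have c1 : Fintype.card (Fin (s + 1) → Fin n) = n ^ (s + 1) := by simp
  have c2 : Fintype.card ((Fin s → Fin n) × Fin n') = n ^ s * n' := by simp
  rw [c1, c2]
  have hnn : n' ≤ n := by rw [hn]; nlinarith
  have c3 : ((n ^ s * n' : ℕ) : ℝ) ≤ (n : ℝ) ^ (s + 1) := by
    have : n ^ s * n' ≤ n ^ (s + 1) := by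
      rw [pow_succ]
      exact Nat.mul_le_mul_left _ hnn
    exact_mod_cast this
  have hC0 : 0 ≤ C := by positivity
  have hQ1 : (0 : ℝ) ≤ 1 - 1 / (Q : ℝ) := by
    have hQ' : (1 : ℝ) ≤ Q := by exact_mod_cast hQ
    have : 1 / (Q : ℝ) ≤ 1 := by
      rw [div_le_one (by linarith)]
      exact hQ'
    linarith
  have hP : (0 : ℝ) ≤ (1 - 1 / (Q : ℝ)) ^ g * C := by positivity
  have h10 := mul_le_mul_of_nonneg_right c3 hP
  push_cast at h10 ⊢
  calc (n : ℝ) ^ (s + 1) * (1 / 2 ^ n * C) + (n : ℝ) ^ s * n' * ((1 - 1 / (Q : ℝ)) ^ g * C)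
      ≤ (n : ℝ) ^ (s + 1) * (1 / 2 ^ n * C) +
        (n : ℝ) ^ (s + 1) * ((1 - 1 / (Q : ℝ)) ^ g * C) := by linarith
    _ = _ := by ring

end Pool.H98.WH
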