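import Pool.Agent.H98.WH.Defs

/-!
# [H98 WH GREEDY] the adversary (abstract)

B: blocks, W: contents of the blocks, G: the yes contents, Y: queries, `ans y ζ`, σ: states of a machine, `step A s` depends only on `A (qy s)`.
`greedy`: induction on K.  K = 0: C = ∅, V = ∅, ζ the given ζ0.  Step: s = the state after K steps, y = qy s.
 Case 1: some ζ' with all G (ζ' b) = false, ζ' = ζ on C, ans y ζ' = true: take ζ', C' = C ∪ (the witness set of `hwit` for ζ'), V' = V: for ζ'' = ζ' on C' with all V-answers false: the state after K steps is s (ζ'' = ζ' = ζ on C),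
 ans y ζ'' = true, so the next state is the same.
 Case 2: no such ζ': keep ζ, C, V' = insert y V; the new element y satisfies (i) by the case assumption; in (ii) the answer of y is false.
 (`Function.iterate_succ_apply'`.)
`adversary`: card of the union bound: K * m < card of 𝔅, so some b* ∈ 𝔅 is not in C; if for all w with G w = true some y ∈ V has `ans y (ζ with b* ↦ w) = true`, then `Ψ w = decide (∃ y ∈ V, ans y (update ζ b* w) = true)` equals G:
for G w = false the world `update ζ b* w` has all G = false and agrees with ζ on C, so (i) gives Ψ w = false.  Excluded by `hno`.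
-/

set_option autoImplicit false

namespace Pool.H98.WH

open Finset

theorem greedy {B W Y σ : Type} [DecidableEq B] [DecidableEq Y] (G : W → Bool)
    (ans : Y → (B → W) → Bool) (m : ℕ)
    (hwit : ∀ y ζ, ans y ζ = true → ∃ S : Finset B, S.card ≤ m ∧
      ∀ ζ', (∀ b ∈ S, ζ' b = ζ b) → ans y ζ' = true)
    (step : (Y → Bool) → σ → σ) (qy : σ → Y)
    (hstep : ∀ (A A' : Y → Bool) (s : σ), A (qy s) = A' (qy s) → step A s = step A' s)
    (s0 : σ) (ζ0 : B → W) (hζ0 : ∀ b, G (ζ0 b) = false) (K : ℕ) :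
    ∃ (ζ : B → W) (C : Finset B) (V : Finset Y) (s : σ), (∀ b, G (ζ b) = false) ∧
      C.card ≤ K * m ∧ V.card ≤ K ∧
      (∀ y ∈ V, ∀ ζ', (∀ b, G (ζ' b) = false) → (∀ b ∈ C, ζ' b = ζ b) → ans y ζ' = false) ∧
      ∀ ζ', (∀ b ∈ C, ζ' b = ζ b) → (∀ y ∈ V, ans y ζ' = false) →
        (step (fun y => ans y ζ'))^[K] s0 = s := by
  induction K with
  | zero =>
    exact ⟨ζ0, ∅, ∅, s0, hζ0, by simp, by simp, by simp, by simp⟩
  | succ K ih =>
    obtain ⟨ζ, C, V, s, hG, hC, hV, h1, h2⟩ := ih
    by_cases hex : ∃ ζ' : B → W, (∀ b, G (ζ' b) = false) ∧ (∀ b ∈ C, ζ' b = ζ b) ∧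
        ans (qy s) ζ' = true
    · obtain ⟨ζ', hG', hag, hans⟩ := hex
      obtain ⟨S, hS, hS2⟩ := hwit _ _ hans
      refine ⟨ζ', C ∪ S, V, step (fun _ => true) s, hG', ?_, by omega, ?_, ?_⟩
      · refine (card_union_le _ _).trans ?_
        have : (K + 1) * m = K * m + m := by ring
        omega
      · intro y hy ζ'' hG'' hag'
        exact h1 y hy ζ'' hG'' (fun b hb => (hag' b (mem_union_left _ hb)).trans (hag b hb))
      · intro ζ'' hag' hV'
        rw [Function.iterate_succ_apply',
          h2 ζ'' (fun b hb => (hag' b (mem_union_left _ hb)).trans (hag b hb)) hV']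
        apply hstep
        exact hS2 ζ'' (fun b hb => hag' b (mem_union_right _ hb))
    · refine ⟨ζ, C, insert (qy s) V, step (fun _ => false) s, hG, ?_, ?_, ?_, ?_⟩
      · have : (K + 1) * m = K * m + m := by ring
        omega
      · exact (card_insert_le _ _).trans (by omega)
      · intro y hy ζ'' hG'' hag'
        rcases mem_insert.mp hy with rfl | hy
        · by_contra hne
          exact hex ⟨ζ'', hG'', hag', by simpa using hne⟩
        · exact h1 y hy ζ'' hG'' hag'
      · intro ζ'' hag' hV'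
        rw [Function.iterate_succ_apply',
          h2 ζ'' hag' (fun y hy => hV' y (mem_insert_of_mem hy))]
        apply hstep
        exact hV' _ (mem_insert_self _ _)

open Classical in
/-- two worlds, one without and one with a yes block, in which the machine ends in the same state -/
theorem adversary {B W Y σ : Type} [DecidableEq B] [DecidableEq Y] (G : W → Bool)
    (ans : Y → (B → W) → Bool) (m : ℕ)
    (hwit : ∀ y ζ, ans y ζ = true → ∃ S : Finset B, S.card ≤ m ∧
      ∀ ζ', (∀ b ∈ S, ζ' b = ζ b) → ans y ζ' = true)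
    (step : (Y → Bool) → σ → σ) (qy : σ → Y)
    (hstep : ∀ (A A' : Y → Bool) (s : σ), A (qy s) = A' (qy s) → step A s = step A' s)
    (s0 : σ) (ζ0 : B → W) (hζ0 : ∀ b, G (ζ0 b) = false) (K : ℕ)
    (𝔅 : Finset B) (h𝔅 : K * m < 𝔅.card)
    (hno : ∀ (ζ : B → W) (b : B) (V : Finset Y), V.card ≤ K →
      ∃ w, decide (∃ y ∈ V, ans y (Function.update ζ b w) = true) ≠ G w) :
    ∃ (ζ ζ' : B → W) (b : B), b ∈ 𝔅 ∧ (∀ b', G (ζ b') = false) ∧ G (ζ' b) = true ∧
      (step (fun y => ans y ζ))^[K] s0 = (step (fun y => ans y ζ'))^[K] s0 := by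
  obtain ⟨ζ, C, V, s, hG, hC, hV, h1, h2⟩ := greedy G ans m hwit step qy hstep s0 ζ0 hζ0 K
  obtain ⟨b, hb, hbC⟩ : ∃ b ∈ 𝔅, b ∉ C := by
    by_contra hn
    push Not at hn
    have := card_le_card (show 𝔅 ⊆ C from hn)
    omega
  obtain ⟨w, hw⟩ := hno ζ b V hV
  have hag : ∀ b' ∈ C, Function.update ζ b w b' = ζ b' := by
    intro b' hb'
    have : b' ≠ b := fun e => hbC (e ▸ hb')
    simp [this]
  have hGw : G w = true := by
    by_contra hGw
    have hGw' : G w = false := by simpa using hGw
    apply hw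
    rw [hGw', decide_eq_false_iff_not]
    rintro ⟨y, hy, h3⟩
    have h4 := h1 y hy (Function.update ζ b w) (by
      intro b'
      by_cases hbb : b' = b
      · subst hbb; simpa using hGw'
      · simpa [hbb] using hG b') hag
    rw [h4] at h3
    exact Bool.false_ne_true h3
  have hVf : ∀ y ∈ V, ans y (Function.update ζ b w) = false := by
    intro y hy
    by_contra hne
    apply hw
    rw [hGw, decide_eq_true_eq]
    exact ⟨y, hy, by simpa using hne⟩
  refine ⟨ζ, Function.update ζ b w, b, hb, hG, by simpa using hGw, ?_⟩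
  rw [h2 ζ (fun _ _ => rfl) (fun y hy => h1 y hy ζ hG (fun _ _ => rfl)), h2 _ hag hVf]

end Pool.H98.WH
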