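import Pool.Agent.H98.WH.Defs

/-!
# [H98 WH HARDP] a program for the matrix of the hard problem

First a function: from `num i` the tree of `[var 0, ..., var (i - 1)]`: iterate downwards: states `node (num i) list`: step `node (num i) L ↦ node (num (i-1)) (node (Wd.tr (var (i-1))) L)`,
start with i = k + t, number of steps k + t (the size grows by at most size (num i) + const per step: `FP.iterate'` with a quadratic polynomial).
The list of the matrix is `bit false :: (replicate k (bit true) ++ bit false :: [var 0, ..])`: prefix with iterated `node (Wd.tr (bit true))` (`FP.iterate_add`).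
`hardM_size`: a bit letter costs at most 6 nodes, the letter var i costs 2 i + 6; sum over i < k + t.
-/

set_option autoImplicit false

namespace Pool.H98.WH

open Pool.Agent.H88.RO Tr

/-- the matrix of the hard problem: one oracle atom -/
def hardM (t k : ℕ) : Mat :=
  .orc (Wd.bit false :: (List.replicate k (Wd.bit true) ++
    Wd.bit false :: (List.range (k + t)).map Wd.var))

/-- one step: the next variable -/
def varS (s : Tr) : Tr := node (snd (fst s)) (node (node (node leaf leaf) (snd (fst s))) (snd s))

theorem varS_fp {O : List Bool → Bool} : FP O varS := by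
  unfold varS
  (repeat (first | with_reducible exact FP.id' | assumption | with_reducible apply FP.fst' | with_reducible apply FP.snd' | with_reducible apply FP.node' | with_reducible apply FP.query' | with_reducible apply FP.ite' | with_reducible exact FP.const' _))

theorem varS_size (s : Tr) : size (varS s) ≤ size s + size (fst s) + 10 ∧
    size (fst (varS s)) ≤ size (fst s) := by
  have h1 := size_snd_le (fst s)
  cases s with
  | leaf => simp [varS, size]
  | node a b =>
    simp only [fst_node] at h1
    constructor
    · simp only [varS, fst_node, snd_node, size]; omega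
    · simp only [varS, fst_node]; exact h1

theorem varS_iter_size (s : Tr) (i : ℕ) : size (varS^[i] s) ≤ size s + i * (size s + 10) ∧
    size (fst (varS^[i] s)) ≤ size s := by
  induction i with
  | zero => exact ⟨by simp, by simpa using size_fst_le s⟩
  | succ i ih =>
    rw [Function.iterate_succ_apply']
    have h := varS_size (varS^[i] s)
    refine ⟨?_, h.2.trans ih.2⟩
    have e : (i + 1) * (size s + 10) = i * (size s + 10) + (size s + 10) := by ring
    omega

theorem varS_iter (n : ℕ) : ∀ L : List Wd, varS^[n] (node (num n) (wsTr L)) =
    node (num 0) (wsTr ((List.range n).map Wd.var ++ L)) := by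
  induction n with
  | zero => intro L; simp
  | succ n ih =>
    intro L
    rw [Function.iterate_succ_apply]
    have e : varS (node (num (n + 1)) (wsTr L)) = node (num n) (wsTr (Wd.var n :: L)) := rfl
    rw [e, ih, List.range_succ]
    simp

theorem ones_iter (n : ℕ) (L : List Wd) : (fun s => node (Wd.bit true).tr s)^[n] (wsTr L) =
    wsTr (List.replicate n (Wd.bit true) ++ L) := by
  induction n with
  | zero => simp
  | succ n ih =>
    rw [Function.iterate_succ_apply', ih, List.replicate_succ]
    rfl

theorem mat_fp (O : List Bool → Bool) (t : ℕ) :
    ∃ F : Tr → Tr, FP O F ∧ ∀ k, F (num k) = (hardM t k).tr := by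
  refine ⟨fun v => node (num 1) (node (Wd.bit false).tr
    ((fun s => node (Wd.bit true).tr s)^[len v] (node (Wd.bit false).tr
      (snd (varS^[len (addU v (num t))] (node (addU v (num t)) leaf)))))), ?_, ?_⟩
  · have hA : FP O (fun v => addU v (num t)) := FP.addU' FP.id' (FP.const' _)
    have h1 : FP O (fun v => varS^[len (addU v (num t))] (node (addU v (num t)) leaf)) := by
      refine FP.iterate' varS_fp hA (FP.node' hA FP.leaf')
        ⟨Polynomial.X + Polynomial.X * (Polynomial.X + 10), fun n x i hi => ?_⟩
      have h := (varS_iter_size x i).1
      have hl := len_le_size n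
      simp only [Polynomial.eval_add, Polynomial.eval_mul, Polynomial.eval_X,
        Polynomial.eval_ofNat]
      have : i * (size x + 10) ≤ (size n + size x) * (size n + size x + 10) :=
        Nat.mul_le_mul (by omega) (by omega)
      omega
    have h2 : FP O (fun v => (fun s => node (Wd.bit true).tr s)^[len v]
        (node (Wd.bit false).tr
        (snd (varS^[len (addU v (num t))] (node (addU v (num t)) leaf))))) := by
      refine FP.iterate_add (F := fun s => node (Wd.bit true).tr s)
        (FP.node' (FP.const' _) FP.id') FP.id' (FP.node' (FP.const' _) (FP.snd' h1)) 6 ?_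
      intro x
      simp only [Wd.tr, Tr.bit, size]
      omega
    exact FP.node' (FP.const' _) (FP.node' (FP.const' _) h2)
  · intro k
    simp only [addU_num, len_num]
    have e1 : varS^[k + t] (node (num (k + t)) leaf) =
        node (num 0) (wsTr ((List.range (k + t)).map Wd.var)) := by
      have := varS_iter (k + t) []
      simpa [wsTr] using this
    rw [e1]
    simp only [snd_node]
    have e2 : node (Wd.bit false).tr (wsTr ((List.range (k + t)).map Wd.var)) =
      wsTr (Wd.bit false :: (List.range (k + t)).map Wd.var) := rfl
    rw [e2, ones_iter]
    rfl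

theorem wsTr_append (a b : List Wd) :
    size (wsTr (a ++ b)) + 1 = size (wsTr a) + size (wsTr b) := by
  induction a with
  | nil => simp [wsTr, size]; omega
  | cons x a ih => simp only [List.cons_append, wsTr, size]; omega

theorem size_ones (k : ℕ) : size (wsTr (List.replicate k (Wd.bit true))) = 6 * k + 1 := by
  induction k with
  | zero => simp [wsTr, size]
  | succ k ih =>
    simp only [List.replicate_succ, wsTr, size, ih, Wd.tr, Tr.bit]
    omega

theorem size_vars (n : ℕ) : size (wsTr ((List.range n).map Wd.var)) ≤ n * n + 6 * n + 1 := by
  induction n with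
  | zero => simp [wsTr, size]
  | succ n ih =>
    rw [List.range_succ, List.map_append]
    have h := wsTr_append ((List.range n).map Wd.var) ([n].map Wd.var)
    have h2 : size (wsTr ([n].map Wd.var)) = 2 * n + 7 := by
      simp only [List.map_cons, List.map_nil, wsTr, Wd.tr, size, size_num]
      omega
    nlinarith

theorem hardM_size (t : ℕ) : ∀ k, size (hardM t k).tr ≤ 20 * (k + t + 1) ^ 2 := by
  intro k
  have h1 := size_ones k
  have h2 := size_vars (k + t)
  have h3 := wsTr_append (List.replicate k (Wd.bit true))
    (Wd.bit false :: (List.range (k + t)).map Wd.var)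
  have e1 : size (hardM t k).tr = 3 + (3 + size (wsTr (List.replicate k (Wd.bit true) ++
      Wd.bit false :: (List.range (k + t)).map Wd.var)) + 1) + 1 := by
    simp only [hardM, Mat.tr, wsTr, size, Wd.tr, Tr.bit, num]
  have e2 : size (wsTr (Wd.bit false :: (List.range (k + t)).map Wd.var)) =
      3 + size (wsTr ((List.range (k + t)).map Wd.var)) + 1 := by
    simp only [wsTr, size, Wd.tr, Tr.bit]
  rw [e1]
  have e3 : 20 * (k + t + 1) ^ 2 = 20 * ((k + t) * (k + t)) + 40 * (k + t) + 20 := by ring
  rw [e3]
  generalize (k + t) * (k + t) = y at *
  omega

end Pool.H98.WH
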