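import Pool.Agent.H98.WH.HgB

/-!
# [H98 WH HG] the hard problem in terms of Sipser functions (short)

`hq_gup`: `alt_gup` with qb = not^[t-1] false (`not^[t] qb = not^[2t-1] false = true`), q = false, φ ρ = patch .. (replicate k true ++ false :: ρ.flatten), z = ζ a, for a ∈ blocks ℓ k, g ∈ blocks ℓ t: a ++ g ∈ blocks ℓ (k + t),
`patch_on`: `(a ++ g).take k = a`, `.drop k = g` as a has k words.
-/

set_option autoImplicit false

namespace Pool.H98.WH

open Pool.Agent.H88.RO

theorem not_two (t : ℕ) : (not^[t + 1]) ((not^[t]) false) = true := by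
  rw [← Function.iterate_add_apply]
  induction t with
  | zero => rfl
  | succ t ih =>
    have e : t + 1 + 1 + (t + 1) = (t + 1 + t) + 1 + 1 := by ring
    rw [e, Function.iterate_succ_apply', Function.iterate_succ_apply', ih]
    rfl

theorem hq_gup {Z : List Bool → Bool} {k ℓ t : ℕ} (ht : 1 ≤ t)
    {ζ : List (List Bool) → List ℕ → Bool} {x : List Bool} (hk : lead x = k) (hℓ : lgl x = ℓ) :
    HQ (patch Z k ℓ t ζ) t x ↔ ∃ a ∈ blocks ℓ k,
      Gup ((not^[t - 1]) false) (List.replicate t (2 ^ ℓ)) (ζ a) = true := by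
  have hnot : (not^[t]) ((not^[t - 1]) false) = !false := by
    obtain ⟨s, rfl⟩ : ∃ s, t = s + 1 := ⟨t - 1, by omega⟩
    exact not_two s
  have key : ∀ a ∈ blocks ℓ k, (Alt (fun ρ => patch Z k ℓ t ζ
      (List.replicate k true ++ false :: ρ.flatten)) ℓ 1 t false a ↔
      Gup ((not^[t - 1]) false) (List.replicate t (2 ^ ℓ)) (ζ a) = true) := by
    intro a ha
    apply alt_gup t false hnot
    intro g hg
    have hag : a ++ g ∈ blocks ℓ (k + t) := by
      refine ⟨by rw [List.length_append, ha.1, hg.1], ?_⟩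
      intro w hw
      rcases List.mem_append.mp hw with hw | hw
      · exact ha.2 w hw
      · exact hg.2 w hw
    rw [patch_on hag, List.take_left' ha.1, List.drop_left' ha.1]
  unfold HQ
  rw [hk, hℓ]
  constructor
  · rintro ⟨a, ha, h'⟩
    exact ⟨a, ha, (key a ha).mp h'⟩
  · rintro ⟨a, ha, h'⟩
    exact ⟨a, ha, (key a ha).mpr h'⟩

end Pool.H98.WH
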