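import Pool.Agent.H98.WH.Defs

/-!
# [H98 WH HGA] words and numbers, blocks

`idx_lt`, `idx_surj`: induction on the word / on ℓ (`idx (b :: w) = 2 * idx w + (0 or 1)`; for `idx_surj` use `i / 2`, `i % 2`).
`chunks_flatten`: induction on ρ.  `patch_on`: the string has length k + 1 + (k+t) ℓ, its first k + 1 letters are 1^k 0 (`List.take_append`-like), the rest is ρ.flatten, `chunks_flatten`.
`hq_congr`: every word asked in HQ Z t x has the form `replicate (lead x) true ++ false :: ρ.flatten` with ρ ∈ blocks (lgl x) (lead x + t), of length lead x + 1 + (lead x + t) * lgl x; generalise `Alt φ ℓ 1 s q ρ ↔ Alt φ' ℓ 1 s q ρ` for all s, q and ρ ∈ blocks ℓ i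
with i + s = lead x + t (φ, φ' agree on blocks ℓ (lead x + t)).
`blocks_fin`: `Finset.image` of `Fin k → Fin ℓ → Bool` under g ↦ List.ofFn (fun i => List.ofFn (g i)) (injective), or induction on k.
-/

set_option autoImplicit false

namespace Pool.H98.WH

open Pool.Agent.H88.RO

/-- the number of a word -/
def idx : List Bool → ℕ
  | [] => 0
  | b :: w => 2 * idx w + (if b then 1 else 0)

/-- cutting a word into `c` words of length `ℓ` -/
def chunks (ℓ : ℕ) : ℕ → List Bool → List (List Bool)
  | 0, _ => []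
  | c + 1, w => w.take ℓ :: chunks ℓ c (w.drop ℓ)

/-- the oracle `Z` with the words `1^k 0 a b₁ ... b_t` (`a` : k words, all words of length ℓ) changed: the
value is `ζ a [idx b_t, ..., idx b₁]` -/
def patch (Z : List Bool → Bool) (k ℓ t : ℕ) (ζ : List (List Bool) → List ℕ → Bool) :
    List Bool → Bool := fun w =>
  if w.length = k + 1 + (k + t) * ℓ ∧ w.take (k + 1) = List.replicate k true ++ [false] then
    ζ ((chunks ℓ (k + t) (w.drop (k + 1))).take k)
      ((((chunks ℓ (k + t) (w.drop (k + 1))).drop k).map idx).reverse)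
  else Z w

theorem idx_lt {ℓ : ℕ} (w : List Bool) (hw : w.length = ℓ) : idx w < 2 ^ ℓ := by
  induction w generalizing ℓ with
  | nil => subst hw; simp [idx]
  | cons b w ih =>
    subst hw
    have := ih rfl
    simp only [idx, List.length_cons, pow_succ]
    split_ifs <;> omega

theorem idx_surj {ℓ : ℕ} (i : ℕ) (hi : i < 2 ^ ℓ) : ∃ w : List Bool, w.length = ℓ ∧ idx w = i := by
  induction ℓ generalizing i with
  | zero =>
    have h0 : i = 0 := by simpa using hi
    exact ⟨[], rfl, by simp [idx, h0]⟩
  | succ ℓ ih =>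
    obtain ⟨w, hw, hi'⟩ := ih (i / 2) (by rw [pow_succ] at hi; omega)
    refine ⟨decide (i % 2 = 1) :: w, by simp [hw], ?_⟩
    simp only [idx, hi']
    by_cases h : i % 2 = 1
    · simp [h]; omega
    · simp [h]; omega

theorem chunks_flatten {ℓ : ℕ} (ρ : List (List Bool)) (hρ : ∀ w ∈ ρ, w.length = ℓ) :
    chunks ℓ ρ.length ρ.flatten = ρ := by
  induction ρ with
  | nil => rfl
  | cons w ρ ih =>
    have hw : w.length = ℓ := hρ w (by simp)
    simp only [List.length_cons, List.flatten_cons, chunks]
    rw [List.take_left' hw, List.drop_left' hw, ih (fun v hv => hρ v (by simp [hv]))]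

theorem flatten_len {ℓ : ℕ} (ρ : List (List Bool)) (hρ : ∀ w ∈ ρ, w.length = ℓ) :
    ρ.flatten.length = ρ.length * ℓ := by
  induction ρ with
  | nil => simp
  | cons w ρ ih =>
    have hw : w.length = ℓ := hρ w (by simp)
    rw [List.flatten_cons, List.length_append, ih (fun v hv => hρ v (by simp [hv])), hw,
      List.length_cons]
    ring

theorem patch_off {Z : List Bool → Bool} {k ℓ t : ℕ} {ζ : List (List Bool) → List ℕ → Bool}
    {w : List Bool} (hw : w.length ≠ k + 1 + (k + t) * ℓ) : patch Z k ℓ t ζ w = Z w := by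
  unfold patch
  rw [if_neg (fun h => hw h.1)]

theorem patch_on {Z : List Bool → Bool} {k ℓ t : ℕ} {ζ : List (List Bool) → List ℕ → Bool}
    {ρ : List (List Bool)} (hρ : ρ ∈ blocks ℓ (k + t)) :
    patch Z k ℓ t ζ (List.replicate k true ++ false :: ρ.flatten) =
      ζ (ρ.take k) (((ρ.drop k).map idx).reverse) := by
  obtain ⟨h1, h2⟩ := hρ
  have e : List.replicate k true ++ false :: ρ.flatten =
      (List.replicate k true ++ [false]) ++ ρ.flatten := by simp
  have hl : (List.replicate k true ++ [false]).length = k + 1 := by simp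
  have hf := flatten_len ρ h2
  rw [e]
  unfold patch
  rw [List.take_left' hl, List.drop_left' hl, if_pos]
  · rw [← h1, chunks_flatten ρ h2]
  · refine ⟨?_, rfl⟩
    rw [List.length_append, hl, hf, h1]

theorem alt_blocks {φ φ' : List (List Bool) → Bool} {ℓ n : ℕ}
    (h : ∀ ρ ∈ blocks ℓ n, φ ρ = φ' ρ) (s : ℕ) :
    ∀ (q : Bool) (i : ℕ) (ρ : List (List Bool)), ρ ∈ blocks ℓ i → i + s = n →
    (Alt φ ℓ 1 s q ρ ↔ Alt φ' ℓ 1 s q ρ) := by
  induction s with
  | zero =>
    intro q i ρ hρ hi
    simp only [Alt]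
    rw [h ρ (by rw [← hi]; exact hρ)]
  | succ s ih =>
    intro q i ρ hρ hi
    have key : ∀ g ∈ blocks ℓ 1, ∀ q', (Alt φ ℓ 1 s q' (ρ ++ g) ↔ Alt φ' ℓ 1 s q' (ρ ++ g)) := by
      intro g hg q'
      apply ih q' (i + 1) (ρ ++ g) _ (by omega)
      refine ⟨by rw [List.length_append, hρ.1, hg.1], ?_⟩
      intro w hw
      rcases List.mem_append.mp hw with hw | hw
      · exact hρ.2 w hw
      · exact hg.2 w hw
    cases q with
    | true =>
      simp only [Alt]
      constructor
      · rintro ⟨g, hg, h'⟩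
        exact ⟨g, hg, (key g hg _).mp h'⟩
      · rintro ⟨g, hg, h'⟩
        exact ⟨g, hg, (key g hg _).mpr h'⟩
    | false =>
      simp only [Alt]
      constructor
      · intro h' g hg
        exact (key g hg _).mp (h' g hg)
      · intro h' g hg
        exact (key g hg _).mpr (h' g hg)

/-- the hard problem at `x` only depends on the words of one length -/
theorem hq_congr {Z Z' : List Bool → Bool} {t : ℕ} {x : List Bool}
    (h : ∀ w : List Bool, w.length = lead x + 1 + (lead x + t) * lgl x → Z w = Z' w) :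
    HQ Z t x ↔ HQ Z' t x := by
  have key : ∀ a ∈ blocks (lgl x) (lead x),
      (Alt (fun ρ => Z (List.replicate (lead x) true ++ false :: ρ.flatten)) (lgl x) 1 t false a ↔
      Alt (fun ρ => Z' (List.replicate (lead x) true ++ false :: ρ.flatten)) (lgl x) 1 t false a) := by
    intro a ha
    apply alt_blocks (n := lead x + t) _ t false (lead x) a ha rfl
    intro ρ hρ
    apply h
    have := flatten_len ρ hρ.2
    rw [hρ.1] at this
    simp only [List.length_append, List.length_replicate, List.length_cons, this]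
    omega
  unfold HQ
  constructor
  · rintro ⟨a, ha, h'⟩
    exact ⟨a, ha, (key a ha).mp h'⟩
  · rintro ⟨a, ha, h'⟩
    exact ⟨a, ha, (key a ha).mpr h'⟩

theorem blocks_fin (ℓ k : ℕ) : ∃ F : Finset (List (List Bool)), (∀ g ∈ F, g ∈ blocks ℓ k) ∧
    F.card = (2 ^ ℓ) ^ k := by
  refine ⟨Finset.univ.image (fun g : Fin k → Fin ℓ → Bool =>
    List.ofFn (fun i => List.ofFn (g i))), ?_, ?_⟩
  · intro g hg
    obtain ⟨f, _, rfl⟩ := Finset.mem_image.mp hg
    refine ⟨by simp, ?_⟩
    intro w hw
    rw [List.mem_ofFn] at hw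
    obtain ⟨i, rfl⟩ := hw
    simp
  · rw [Finset.card_image_of_injective]
    · simp
    · intro f f' hff
      have h1 := List.ofFn_injective hff
      funext i
      exact List.ofFn_injective (congrFun h1 i)

end Pool.H98.WH
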