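import Pool.Agent.H98.WH.HgA

/-!
# [H98 WH HGB] alternating quantifiers as Sipser functions

`gup_top`: peeling the top gate; induction on ns with q, z arbitrary: for ns = [] both sides are `Qf q n (fun b => z [b])`; for m :: ns unfold one step of `Gup` on both sides and use the
induction hypothesis for `!q` and the function `bs ↦ Qf q m (fun c => z (c :: bs))` (`Function.iterate_succ_apply`).
`alt_gup`: induction on t with q, z, a arbitrary.  t = 0: both sides say `φ a = z [] = true` (g = []).  t + 1: `Alt φ ℓ 1 (t+1) true a` is `∃ g ∈ blocks ℓ 1, Alt φ ℓ 1 t false (a ++ g)`, g = [w] with w of length ℓ;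
`List.replicate (t+1) n = List.replicate t n ++ [n]` (`List.replicate_succ'`), `gup_top`: `Qf (not^[t] qb) n (fun b => Gup qb (replicate t n) (fun bs => z (bs ++ [b])))`, and `not^[t] qb` is the given type q (from
`not^[t+1] qb = !q`, `Function.iterate_succ_apply'`); induction hypothesis for `a ++ [w]`, `z' bs = z (bs ++ [idx w])` (`List.map_cons`, `List.reverse_cons`: the list of g = w :: g' is `(g'.map idx).reverse ++ [idx w]`); the words of length ℓ
correspond to the numbers below 2 ^ ℓ (`idx_lt`, `idx_surj`).
-/

set_option autoImplicit false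

namespace Pool.H98.WH

open Pool.Agent.H88.RO

theorem gup_top (ns : List ℕ) (n : ℕ) (q : Bool) (z : List ℕ → Bool) :
    Gup q (ns ++ [n]) z =
      Qf ((not^[ns.length]) q) n (fun b => Gup q ns (fun bs => z (bs ++ [b]))) := by
  induction ns generalizing q z with
  | nil => rfl
  | cons m ns ih =>
    have e1 : Gup q (m :: ns ++ [n]) z =
        Gup (!q) (ns ++ [n]) (fun bs => Qf q m (fun c => z (c :: bs))) := rfl
    rw [e1, ih, List.length_cons, Function.iterate_succ_apply]
    rfl

theorem alt_gup {ℓ : ℕ} {qb : Bool} (t : ℕ) (q : Bool) (hq : (not^[t]) qb = !q)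
    (φ : List (List Bool) → Bool) (z : List ℕ → Bool) (a : List (List Bool))
    (h : ∀ g ∈ blocks ℓ t, φ (a ++ g) = z ((g.map idx).reverse)) :
    Alt φ ℓ 1 t q a ↔ Gup qb (List.replicate t (2 ^ ℓ)) z = true := by
  induction t generalizing q z a with
  | zero =>
    have := h [] ⟨rfl, by simp⟩
    simp only [List.append_nil, List.map_nil, List.reverse_nil] at this
    simp only [Alt, this, List.replicate_zero, Gup]
  | succ t ih =>
    have hq' : (not^[t]) qb = q := by
      rw [Function.iterate_succ_apply'] at hq
      revert hq
      generalize (not^[t]) qb = x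
      revert x q
      decide
    rw [List.replicate_succ', gup_top, List.length_replicate, hq']
    have key : ∀ w : List Bool, w.length = ℓ →
        (Alt φ ℓ 1 t (!q) (a ++ [w]) ↔
          Gup qb (List.replicate t (2 ^ ℓ)) (fun bs => z (bs ++ [idx w])) = true) := by
      intro w hw
      apply ih (!q) (by rw [hq', Bool.not_not])
      intro g hg
      have := h (w :: g) ⟨by rw [List.length_cons, hg.1], by
        intro v hv
        rcases List.mem_cons.mp hv with rfl | hv
        · exact hw
        · exact hg.2 v hv⟩
      simpa using this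
    have hsing : ∀ g ∈ blocks ℓ 1, ∃ w : List Bool, g = [w] ∧ w.length = ℓ := by
      rintro g ⟨h1, h2⟩
      obtain ⟨w, rfl⟩ := List.length_eq_one_iff.mp h1
      exact ⟨w, rfl, h2 w (by simp)⟩
    have hsing' : ∀ w : List Bool, w.length = ℓ → [w] ∈ blocks ℓ 1 := by
      intro w hw
      exact ⟨rfl, by simpa using hw⟩
    cases q with
    | true =>
      simp only [Alt, Qf]
      constructor
      · rintro ⟨g, hg, h'⟩
        obtain ⟨w, rfl, hw⟩ := hsing g hg
        rw [if_pos ⟨idx w, idx_lt w hw, (key w hw).mp h'⟩]
      · intro h'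
        by_cases hex : ∃ b < 2 ^ ℓ,
            Gup qb (List.replicate t (2 ^ ℓ)) (fun bs => z (bs ++ [b])) = true
        · obtain ⟨b, hb, h3⟩ := hex
          obtain ⟨w, hw, rfl⟩ := idx_surj b hb
          exact ⟨[w], hsing' w hw, (key w hw).mpr h3⟩
        · rw [if_neg hex] at h'
          exact absurd h' (by simp)
    | false =>
      simp only [Alt, Qf]
      constructor
      · intro h'
        rw [if_neg]
        · rfl
        · rintro ⟨b, hb, h3⟩
          obtain ⟨w, hw, rfl⟩ := idx_surj b hb
          have := (key w hw).mp (h' [w] (hsing' w hw))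
          rw [h3] at this
          exact Bool.false_ne_true this
      · intro h' g hg
        obtain ⟨w, rfl, hw⟩ := hsing g hg
        apply (key w hw).mpr
        by_contra hne
        rw [if_pos ⟨idx w, idx_lt w hw, by simpa using hne⟩] at h'
        exact Bool.false_ne_true h'

end Pool.H98.WH
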