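import Pool.Agent.H98.WH.Stage
import Pool.Agent.H98.WH.Enu

/-!
# [H98 WH LIM] the limit of the stages

Abstract part, `limit`: given for every i (stage) and every N0 a choice `lam i N0 > N0`, `Qb i N0 ≥ lam`, and for every function thr with `thr u > Qb` for u > i and every Z a change Z' of Z at length lam with the property `P i N0 thr Z'`.
Define N 0 = 0, N (i+1) = Qb i (N i) (so N is strictly increasing, `i ≤ N i`), thr u = N u + 1 (for u > i: N u ≥ N (i+1) = Qb i (N i)), Zs 0 = fun _ => false, Zs (i+1) = the Z' for Zs i (choose), Z w = Zs (w.length + 1) w.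
If `|w| ≤ N (i+1)` then `Z w = Zs (i+1) w`: for j ≥ i + 1: lam j (N j) > N j ≥ N (i+1) ≥ |w|, so Zs (j+1) w = Zs j w; and for j ≥ |w| : lam j (N j) > N j ≥ j ≥ |w|, the same (compare w.length + 1 and i + 1).
-/

set_option autoImplicit false

namespace Pool.H98.WH

open Pool.Agent.H88.RO Tr

theorem limit (P : ℕ → ℕ → (ℕ → ℕ) → (List Bool → Bool) → Prop) (lam Qb : ℕ → ℕ → ℕ)
    (h1 : ∀ i N0, N0 < lam i N0) (h2 : ∀ i N0, lam i N0 ≤ Qb i N0)
    (h3 : ∀ i N0 (thr : ℕ → ℕ), (∀ u, i < u → Qb i N0 < thr u) → ∀ Z : List Bool → Bool,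
      ∃ Z' : List Bool → Bool, (∀ w : List Bool, w.length ≠ lam i N0 → Z' w = Z w) ∧
        P i N0 thr Z') :
    ∃ (thr : ℕ → ℕ) (Z : List Bool → Bool), ∀ i, ∃ (N0 : ℕ) (Z' : List Bool → Bool),
      (∀ w : List Bool, w.length ≤ Qb i N0 → Z w = Z' w) ∧ P i N0 thr Z' := by
  let N : ℕ → ℕ := fun i => Nat.rec 0 (fun j n => Qb j n) i
  have hN : ∀ i, N (i + 1) = Qb i (N i) := fun i => rfl
  have hNl : ∀ i, N i < N (i + 1) := fun i => by
    rw [hN]
    exact (h1 i (N i)).trans_le (h2 i (N i))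
  have hmono : StrictMono N := strictMono_nat_of_lt_succ hNl
  have hid : ∀ i, i ≤ N i := fun i => hmono.le_apply
  let thr : ℕ → ℕ := fun u => N u + 1
  have hthr : ∀ i u, i < u → Qb i (N i) < thr u := fun i u hu => by
    have := hmono.monotone (Nat.succ_le_of_lt hu)
    rw [Nat.succ_eq_add_one, hN] at this
    exact Nat.lt_succ_of_le this
  choose F hF1 hF2 using fun (i : ℕ) (Z : List Bool → Bool) => h3 i (N i) thr (hthr i) Z
  let Zs : ℕ → List Bool → Bool := fun i => Nat.rec (fun _ => false) (fun j Z => F j Z) i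
  have hZs : ∀ i, Zs (i + 1) = F i (Zs i) := fun i => rfl
  have hst : ∀ j (w : List Bool), w.length < lam j (N j) → Zs (j + 1) w = Zs j w := fun j w hw => by
    rw [hZs]
    exact hF1 j (Zs j) w (by omega)
  -- Zs is constant on short words from `w.length` on
  have hs1 : ∀ (w : List Bool) j, w.length ≤ j → Zs (j + 1) w = Zs j w := fun w j hj =>
    hst j w (lt_of_le_of_lt (hj.trans (hid j)) (h1 j (N j)))
  have hs2 : ∀ (w : List Bool) d, Zs (w.length + 1 + d) w = Zs (w.length + 1) w := fun w d => by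
    induction d with
    | zero => rfl
    | succ d ih => rw [← add_assoc, hs1 w _ (by omega), ih]
  have hs3 : ∀ (w : List Bool) i, w.length ≤ N (i + 1) → ∀ d, Zs (i + 1 + d) w = Zs (i + 1) w :=
    fun w i hw d => by
    induction d with
    | zero => rfl
    | succ d ih =>
      rw [← add_assoc, hst _ w ?_, ih]
      exact lt_of_le_of_lt (hw.trans (hmono.monotone (by omega : i + 1 ≤ i + 1 + d))) (h1 _ _)
  refine ⟨thr, fun w => Zs (w.length + 1) w, fun i => ⟨N i, Zs (i + 1), fun w hw => ?_, ?_⟩⟩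
  · have e1 := hs2 w i
    have e2 := hs3 w i (by rw [hN]; exact hw) w.length
    show Zs (w.length + 1) w = Zs (i + 1) w
    rw [← e1, ← e2]
    congr 1
    omega
  · rw [hZs]
    exact hF2 i (Zs i)

/-- the oracle of the limit -/
theorem lim_oracle {t : ℕ} (ht : 1 ≤ t) (R : ℕ → Prog × ℕ × (ℕ → ℕ)) :
    ∃ (thr : ℕ → ℕ) (Z : List Bool → Bool), ∀ i, ∃ x : List Bool, ∀ (b : Bool) (τ : ℕ),
      (b = true ↔ HQ Z t x) → τ ≤ (R i).2.2 (lead x) * (x.length + 1) ^ (R i).2.1 →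
        ¬ Eval (orc thr (t - 1) Z) (R i).1 (enc x) (bit b) τ := by
  choose! Qb x hx1 hx2 hx3 hx4 hx5 using fun (i N0 : ℕ) => stage ht (R i).1 (R i).2.1 i N0
    ((R i).2.2 (((R i).2.1 + 1) * (i * (t - 1) + 2) + 1))
  obtain ⟨thr, Z, hZ⟩ := limit
    (fun i N0 thr Z' => ∀ b : Bool, ¬ ((b = true ↔ HQ Z' t (x i N0)) ∧
      U (orc thr (t - 1) Z') (code (R i).1) (enc (x i N0)) (Qb i N0) = node leaf (bit b)))
    (fun i N0 => lead (x i N0) + 1 + (lead (x i N0) + t) * lgl (x i N0)) Qb hx2 hx3 hx5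
  refine ⟨thr, Z, fun i => ?_⟩
  obtain ⟨N0, Z', h1, h2⟩ := hZ i
  refine ⟨x i N0, fun b τ hb hτ hE => h2 b ⟨?_, ?_⟩⟩
  · rw [hb]
    exact hq_congr (fun w hw => h1 w (hw ▸ hx3 i N0))
  · have h3 : U (orc thr (t - 1) Z) (code (R i).1) (enc (x i N0)) (Qb i N0) =
        node leaf (bit b) := by
      refine U_eq hE (le_trans ?_ (hx4 i N0))
      rw [hx1 i N0] at hτ
      have := Nat.mul_le_mul_left (size (code (R i).1) + 10) hτ
      omega
    rw [← h3]
    exact U_local' _ _ _ (fun q hq => (orc_loc thr (t - 1) (Qb i N0) h1 q hq).symm)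

end Pool.H98.WH
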