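import Pool.Agent.H98.WH.Glue

/-!
# [H98 WH LIVE] few blocks are alive

`live_set`: for R : Finset B: `card {ω | ∀ b ∈ R, (ω b).1 = 0} * Q ^ R.card ≤ card Ω`: the map (ω, f) ↦ (ω with the numbers on R replaced by f), f : R → Fin Q, is injective on the product
(`Fintype.card_le_of_injective`).
`live_le`: if at least r blocks of H are alive there is an injective `f : Fin r → B` with values in H, all alive; the number of `f : Fin r → H` is `H.card ^ r` (`Fintype.card_fun`), for an injective f the
event has at most `card Ω / Q ^ r` elements (`live_set` for the image of f).  Union bound: `card_biUnion_le`.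
-/

set_option autoImplicit false

namespace Pool.H98.WH

open Finset

variable {B J : Type} [Fintype B] [DecidableEq B] [Fintype J] [DecidableEq J]

open Classical in
theorem live_set {Q : ℕ} (hQ : 1 ≤ Q) (R : Finset B) :
    (univ.filter (fun ω : Om B J Q => ∀ b ∈ R, (ω b).1.val = 0)).card * Q ^ R.card ≤
      Fintype.card (Om B J Q) := by
  let _ := hQ
  let G : {ω : Om B J Q // ∀ b ∈ R, (ω b).1.val = 0} × (R → Fin Q) → Om B J Q := fun p b =>
    if h : b ∈ R then (p.2 ⟨b, h⟩, (p.1.1 b).2) else p.1.1 b
  have hG : Function.Injective G := by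
    rintro ⟨⟨ω, hω⟩, f⟩ ⟨⟨ω', hω'⟩, f'⟩ hh
    have hf : f = f' := by
      funext b
      have := congrFun hh b
      simp only [G, b.2, dif_pos, Prod.mk.injEq] at this
      exact this.1
    have hw : ω = ω' := by
      funext b
      have := congrFun hh b
      by_cases hb : b ∈ R
      · simp only [G, hb, dif_pos, Prod.mk.injEq] at this
        apply Prod.ext
        · exact Fin.ext ((hω b hb).trans (hω' b hb).symm)
        · exact this.2
      · simpa only [G, hb, dif_neg, not_false_eq_true] using this
    subst hf hw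
    rfl
  have := Fintype.card_le_of_injective G hG
  rw [Fintype.card_prod, Fintype.card_fun, Fintype.card_fin, Fintype.card_coe,
    Fintype.card_subtype] at this
  exact this

open Classical in
theorem live_le {Q : ℕ} (hQ : 1 ≤ Q) (H : Finset B) (r : ℕ) :
    ((univ.filter (fun ω : Om B J Q => r ≤ (H.filter (fun b => (ω b).1.val = 0)).card)).card : ℝ) ≤
      ((H.card : ℝ) / Q) ^ r * Fintype.card (Om B J Q) := by
  have hQ' : (0 : ℝ) < Q := by exact_mod_cast hQ
  have hsub : (univ.filter (fun ω : Om B J Q =>
      r ≤ (H.filter (fun b => (ω b).1.val = 0)).card)) ⊆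
      (H.powersetCard r).biUnion (fun R => univ.filter (fun ω : Om B J Q =>
        ∀ b ∈ R, (ω b).1.val = 0)) := by
    intro ω hω
    simp only [mem_filter, mem_univ, true_and] at hω
    obtain ⟨R, hR, hRc⟩ := Finset.exists_subset_card_eq hω
    rw [mem_biUnion]
    refine ⟨R, ?_, ?_⟩
    · rw [mem_powersetCard]
      exact ⟨hR.trans (filter_subset _ _), hRc⟩
    · simp only [mem_filter, mem_univ, true_and]
      intro b hb
      exact (mem_filter.mp (hR hb)).2
  have h1 : ∀ R ∈ H.powersetCard r, ((univ.filter (fun ω : Om B J Q =>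
        ∀ b ∈ R, (ω b).1.val = 0)).card : ℝ) ≤ Fintype.card (Om B J Q) / (Q : ℝ) ^ r := by
    intro R hR
    rw [mem_powersetCard] at hR
    rw [le_div_iff₀ (by positivity)]
    have := live_set (J := J) hQ R
    rw [hR.2] at this
    exact_mod_cast this
  calc ((univ.filter (fun ω : Om B J Q =>
      r ≤ (H.filter (fun b => (ω b).1.val = 0)).card)).card : ℝ)
      ≤ ∑ R ∈ H.powersetCard r, ((univ.filter (fun ω : Om B J Q =>
        ∀ b ∈ R, (ω b).1.val = 0)).card : ℝ) := by
        exact_mod_cast (card_le_card hsub).trans card_biUnion_le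
    _ ≤ ∑ R ∈ H.powersetCard r, Fintype.card (Om B J Q) / (Q : ℝ) ^ r := sum_le_sum h1
    _ = (H.card.choose r : ℝ) * (Fintype.card (Om B J Q) / (Q : ℝ) ^ r) := by
        rw [sum_const, card_powersetCard, nsmul_eq_mul]
    _ ≤ ((H.card : ℝ) ^ r) * (Fintype.card (Om B J Q) / (Q : ℝ) ^ r) := by
        apply mul_le_mul_of_nonneg_right _ (by positivity)
        exact_mod_cast Nat.choose_le_pow H.card r
    _ = _ := by rw [div_pow]; ring

end Pool.H98.WH
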