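import Pool.Agent.H98.WH.Swi

/-!
# [H98 WH NUMA] the numerical inequalities of the step

Notation: i = s + 1 ≥ 1 (so t = s + 2 levels), `e = 6 ^ (s+1) * a`, n = 2^(6e), n' = 2^e, g = 2^(5e), Q = 2^(3e), r = L + 1, h ≤ L, N = 2^M, M ≤ L a, `(L + s + 18) ^ 3 ≤ a` (follows from the hypothesis of `Sip`), 1 ≤ L.
D = 4^h * X with X = M (s+1) + r h + h + 5.
(1) `(1 - 1/4^h)^D ≤ exp(-X) ≤ 2^(-X)` (`Real.one_sub_div_pow_le_exp_neg`-like: `1 - x ≤ exp (-x)`, power 4^h X; exp(-1) ≤ 1/2).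
(2) `(h D / Q)^r ≤ 2^(-X)`: `h D ≤ 2^e`: h 4^h X ≤ 2^e: as h ≤ L, X ≤ L a (s+1) + (L+1) L + L + 5 ≤ 20 L² a (s+1)... , `2 L + log₂(..) ≤ e` since e ≥ a ≥ (L+s+18)^3 and `2^(a/2) ≥ a^2`-like; then (h D / Q)^r ≤ 2^(-2 e r), and
`2 e r = 2 * 6^(s+1) a (L+1) ≥ 2 (s+1) a L + 2 a ≥ X` (`6^(s+1) ≥ s+1`, 2 a ≥ r h + h + 5).
So `N^(s+1) * eps h r D Q ≤ 2^(M (s+1)) * h * 2^(r h) * 2 * 2^(-X) = 2 h 2^(-h-5) ≤ 1/16` (h ≤ 2^h), < 1/4 (also for h = 0: eps = 0).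
(3) `n^(s+1) * 2^(-n) ≤ 1/8` and `n^(s+1) * (1 - 1/Q)^g ≤ n^(s+1) exp(-2^(2e)) ≤ 1/8`: `6 e (s+1) + 3 ≤ 2^(2e)` since `s + 1 ≤ e`, `6 e^2 + 3 ≤ 4^e` for e ≥ 4; `2^(6e) ≥ 2^(2e)`.
-/

set_option autoImplicit false

namespace Pool.H98.WH

theorem osp {m : ℕ} (hm : 1 ≤ m) (k : ℕ) : (1 - 1 / (m : ℝ)) ^ (m * k) ≤ (1 / 2) ^ k := by
  have hm' : (1 : ℝ) ≤ m := by exact_mod_cast hm
  have h0 : (0 : ℝ) ≤ 1 - 1 / m := by
    have : 1 / (m : ℝ) ≤ 1 := by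
      rw [div_le_one (by linarith)]
      exact hm'
    linarith
  rw [pow_mul]
  apply pow_le_pow_left₀ (pow_nonneg h0 _)
  have h1 : 1 - 1 / (m : ℝ) ≤ Real.exp (-(1 / m)) := Real.one_sub_le_exp_neg _
  calc (1 - 1 / (m : ℝ)) ^ m ≤ (Real.exp (-(1 / m))) ^ m := pow_le_pow_left₀ h0 h1 m
    _ = Real.exp (-1) := by
        rw [← Real.exp_nat_mul]
        congr 1
        field_simp
    _ ≤ 1 / 2 := by
        rw [Real.exp_neg, one_div]
        apply inv_anti₀ (by norm_num)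
        have := Real.add_one_le_exp (1 : ℝ)
        linarith

theorem sq_le_two_pow' (m : ℕ) (hm : 4 ≤ m) : m ^ 2 ≤ 2 ^ m := by
  induction m, hm using Nat.le_induction with
  | base => norm_num
  | succ m hm ih =>
    rw [pow_succ 2 m]
    nlinarith

theorem six_sq (e : ℕ) (he : 4 ≤ e) : 6 * e ^ 2 + 3 ≤ 4 ^ e := by
  induction e, he using Nat.le_induction with
  | base => norm_num
  | succ m hm ih =>
    rw [pow_succ 4 m]
    nlinarith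

theorem six_pow (s : ℕ) : 6 * (s + 1) ≤ 6 ^ (s + 1) := by
  induction s with
  | zero => norm_num
  | succ s ih =>
    rw [pow_succ 6 (s + 1)]
    omega

theorem numA {s a L M h : ℕ} (hL : 1 ≤ L) (ha : (L + s + 18) ^ 3 ≤ a) (hM : M ≤ L * a)
    (hh : h ≤ L) : ∃ D : ℕ, 1 ≤ D ∧
      ((2 ^ M : ℕ) : ℝ) ^ (s + 1) * eps h (L + 1) D (2 ^ (3 * (6 ^ (s + 1) * a))) +
        ((2 ^ (6 * (6 ^ (s + 1) * a)) : ℕ) : ℝ) ^ (s + 1) *
          (1 / 2 ^ (2 ^ (6 * (6 ^ (s + 1) * a))) +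
            (1 - 1 / ((2 ^ (3 * (6 ^ (s + 1) * a)) : ℕ) : ℝ)) ^ (2 ^ (5 * (6 ^ (s + 1) * a)))) < 1 := by
  obtain ⟨e, he⟩ : ∃ e, e = 6 ^ (s + 1) * a := ⟨_, rfl⟩
  rw [← he]
  set X : ℕ := M * (s + 1) + (L + 1) * h + h + 5 with hX
  -- size estimates
  have hK2 : (L + s + 18) ^ 2 ≤ a := by
    refine le_trans ?_ ha
    exact Nat.pow_le_pow_right (by omega) (by norm_num)
  have hK3 : (L + s + 18) ^ 2 * (L + s + 18) ≤ a := by
    have : (L + s + 18) ^ 2 * (L + s + 18) = (L + s + 18) ^ 3 := by ring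
    omega
  have hLa : L * (s + 1) + 1 ≤ (L + s + 18) ^ 2 := by nlinarith
  have hLL : (L + 1) * L + L + 5 ≤ (L + s + 18) ^ 2 := by nlinarith
  have hXle : X ≤ L * a * (s + 1) + (L + 1) * L + L + 5 := by
    have h1 : M * (s + 1) ≤ L * a * (s + 1) := Nat.mul_le_mul_right _ hM
    have h2 : (L + 1) * h ≤ (L + 1) * L := Nat.mul_le_mul_left _ hh
    omega
  have hXa : X ≤ a ^ 2 := by
    have h1 : X ≤ (L * (s + 1) + 1) * a := by
      have : (L * (s + 1) + 1) * a = L * a * (s + 1) + a := by ring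
      omega
    have h2 : (L * (s + 1) + 1) * a ≤ a * a := Nat.mul_le_mul_right _ (hLa.trans hK2)
    calc X ≤ a * a := h1.trans h2
      _ = a ^ 2 := by ring
  have ha4 : 4 ≤ a := by nlinarith
  have h3L : 3 * L ≤ a := by nlinarith
  have h6 := six_pow s
  have hea : 6 * a ≤ e := by
    rw [he]
    have : 6 ≤ 6 ^ (s + 1) := by omega
    exact Nat.mul_le_mul_right _ this
  have hesa : 6 * (s + 1) * a ≤ e := by
    rw [he]
    exact Nat.mul_le_mul_right _ h6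
  have hse : s + 1 ≤ e := by nlinarith
  have he4 : 4 ≤ e := by omega
  have hhD : h * (4 ^ h * X) ≤ 2 ^ e := by
    have h1 : h ≤ 2 ^ L := hh.trans (Nat.lt_two_pow_self).le
    have h2 : (4 : ℕ) ^ h ≤ 2 ^ (2 * L) := by
      rw [pow_mul]
      exact Nat.pow_le_pow_right (by norm_num) hh
    have h3 : X ≤ 2 ^ a := hXa.trans (sq_le_two_pow' a ha4)
    calc h * (4 ^ h * X) ≤ 2 ^ L * (2 ^ (2 * L) * 2 ^ a) :=
          Nat.mul_le_mul h1 (Nat.mul_le_mul h2 h3)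
      _ = 2 ^ (3 * L + a) := by
          rw [← pow_add, ← pow_add]
          congr 1
          ring
      _ ≤ 2 ^ e := Nat.pow_le_pow_right (by norm_num) (by omega)
  have hXr : X ≤ 2 * e * (L + 1) := by
    have h1 : L * a * (s + 1) ≤ e * (L + 1) := by
      have : L * a * (s + 1) ≤ 6 * (s + 1) * a * (L + 1) := by
        have e1 : L * a * (s + 1) = (s + 1) * a * L := by ring
        have e2 : 6 * (s + 1) * a * (L + 1) = (s + 1) * a * L + ((s + 1) * a * (5 * L + 6)) := by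
          ring
        omega
      exact this.trans (Nat.mul_le_mul_right _ hesa)
    have h2 : (L + 1) * L + L + 5 ≤ e * (L + 1) := by
      have : e * 1 ≤ e * (L + 1) := Nat.mul_le_mul_left _ (by omega)
      omega
    have e3 : 2 * e * (L + 1) = e * (L + 1) + e * (L + 1) := by ring
    omega
  have hX5 : 1 ≤ X := by omega
  have h4p : 1 ≤ 4 ^ h := Nat.one_le_pow _ _ (by norm_num)
  refine ⟨4 ^ h * X, Nat.mul_le_mul h4p hX5, ?_⟩
  -- first term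
  have t1 : (1 - 1 / (4 : ℝ) ^ h) ^ (4 ^ h * X) ≤ (1 / 2) ^ X := by
    have := osp h4p X
    push_cast at this
    exact this
  have t2 : ((h : ℝ) * ((4 ^ h * X : ℕ) : ℝ) / ((2 ^ (3 * e) : ℕ) : ℝ)) ^ (L + 1) ≤ (1 / 2) ^ X := by
    have h1 : (h : ℝ) * ((4 ^ h * X : ℕ) : ℝ) ≤ 2 ^ e := by exact_mod_cast hhD
    have h2 : (h : ℝ) * ((4 ^ h * X : ℕ) : ℝ) / ((2 ^ (3 * e) : ℕ) : ℝ) ≤ (1 / 2) ^ (2 * e) := by
      rw [div_le_iff₀ (by positivity)]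
      refine h1.trans (le_of_eq ?_)
      push_cast
      have e1 : 3 * e = 2 * e + e := by ring
      rw [e1, pow_add, ← mul_assoc, ← mul_pow]
      norm_num
    calc _ ≤ ((1 / 2 : ℝ) ^ (2 * e)) ^ (L + 1) := pow_le_pow_left₀ (by positivity) h2 _
      _ = (1 / 2 : ℝ) ^ (2 * e * (L + 1)) := by rw [← pow_mul]
      _ ≤ _ := pow_le_pow_of_le_one (by norm_num) (by norm_num) hXr
  have T1 : ((2 ^ M : ℕ) : ℝ) ^ (s + 1) * eps h (L + 1) (4 ^ h * X) (2 ^ (3 * e)) ≤ 1 / 16 := by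
    unfold eps
    have h1 : (1 - 1 / (4 : ℝ) ^ h) ^ (4 ^ h * X) +
        ((h : ℝ) * ((4 ^ h * X : ℕ) : ℝ) / ((2 ^ (3 * e) : ℕ) : ℝ)) ^ (L + 1) ≤
        2 * (1 / 2) ^ X := by linarith
    have h2 : (h : ℝ) ≤ 2 ^ h := by exact_mod_cast (Nat.lt_two_pow_self (n := h)).le
    have h3 : ((2 ^ M : ℕ) : ℝ) ^ (s + 1) = 2 ^ (M * (s + 1)) := by
      push_cast
      rw [← pow_mul]
    rw [h3]
    calc (2 : ℝ) ^ (M * (s + 1)) * (h * 2 ^ ((L + 1) * h) *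
          ((1 - 1 / (4 : ℝ) ^ h) ^ (4 ^ h * X) +
        ((h : ℝ) * ((4 ^ h * X : ℕ) : ℝ) / ((2 ^ (3 * e) : ℕ) : ℝ)) ^ (L + 1)))
        ≤ (2 : ℝ) ^ (M * (s + 1)) * (2 ^ h * 2 ^ ((L + 1) * h) * (2 * (1 / 2) ^ X)) := by
          apply mul_le_mul_of_nonneg_left _ (by positivity)
          apply mul_le_mul _ h1 _ (by positivity)
          · exact mul_le_mul_of_nonneg_right h2 (by positivity)
          · have h4 : (0 : ℝ) ≤ 1 - 1 / 4 ^ h := by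
              have : (1 : ℝ) / 4 ^ h ≤ 1 := by
                rw [div_le_one (by positivity)]
                exact one_le_pow₀ (by norm_num)
              linarith
            positivity
      _ = 1 / 16 := by
          have e1 : X = (M * (s + 1) + ((L + 1) * h + h)) + 5 := by rw [hX]; ring
          rw [e1, pow_add (1 / 2 : ℝ), pow_add (1 / 2 : ℝ) (M * (s + 1)),
            pow_add (1 / 2 : ℝ) ((L + 1) * h)]
          have e2 : ∀ n : ℕ, (2 : ℝ) ^ n * (1 / 2) ^ n = 1 := by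
            intro n
            rw [← mul_pow]
            norm_num
          calc (2 : ℝ) ^ (M * (s + 1)) * (2 ^ h * 2 ^ ((L + 1) * h) *
              (2 * ((1 / 2) ^ (M * (s + 1)) * ((1 / 2) ^ ((L + 1) * h) * (1 / 2) ^ h) *
                (1 / 2) ^ 5)))
              = ((2 : ℝ) ^ (M * (s + 1)) * (1 / 2) ^ (M * (s + 1))) *
                ((2 : ℝ) ^ h * (1 / 2) ^ h) * ((2 : ℝ) ^ ((L + 1) * h) * (1 / 2) ^ ((L + 1) * h)) *
                (2 * (1 / 2) ^ 5) := by ring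
            _ = 1 / 16 := by rw [e2, e2, e2]; norm_num
  -- second term
  have h6e : 6 * e * (s + 1) + 3 ≤ 2 ^ (2 * e) := by
    have h1 := six_sq e he4
    have h2 : 6 * e * (s + 1) ≤ 6 * e * e := Nat.mul_le_mul_left _ hse
    have h3 : (2 : ℕ) ^ (2 * e) = 4 ^ e := by rw [pow_mul]; norm_num
    rw [h3]
    nlinarith
  have key : ∀ Y : ℕ, 2 ^ (2 * e) ≤ Y →
      ((2 ^ (6 * e) : ℕ) : ℝ) ^ (s + 1) * (1 / 2) ^ Y ≤ 1 / 8 := by
    intro Y hY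
    have h1 : ((2 ^ (6 * e) : ℕ) : ℝ) ^ (s + 1) = 2 ^ (6 * e * (s + 1)) := by
      push_cast
      rw [← pow_mul]
    rw [h1]
    have h2 : ((1 : ℝ) / 2) ^ Y ≤ (1 / 2) ^ (6 * e * (s + 1) + 3) :=
      pow_le_pow_of_le_one (by norm_num) (by norm_num) (h6e.trans hY)
    calc (2 : ℝ) ^ (6 * e * (s + 1)) * (1 / 2) ^ Y
        ≤ (2 : ℝ) ^ (6 * e * (s + 1)) * (1 / 2) ^ (6 * e * (s + 1) + 3) :=
          mul_le_mul_of_nonneg_left h2 (by positivity)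
      _ = ((2 : ℝ) ^ (6 * e * (s + 1)) * (1 / 2) ^ (6 * e * (s + 1))) * (1 / 2) ^ 3 := by
          rw [pow_add]; ring
      _ = 1 / 8 := by
          rw [← mul_pow]; norm_num
  have T2 : ((2 ^ (6 * e) : ℕ) : ℝ) ^ (s + 1) * (1 / 2 ^ (2 ^ (6 * e))) ≤ 1 / 8 := by
    have := key (2 ^ (6 * e)) (Nat.pow_le_pow_right (by norm_num) (by omega))
    rw [one_div_pow] at this
    exact this
  have T3 : ((2 ^ (6 * e) : ℕ) : ℝ) ^ (s + 1) *
      (1 - 1 / ((2 ^ (3 * e) : ℕ) : ℝ)) ^ (2 ^ (5 * e)) ≤ 1 / 8 := by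
    have h1 : (2 : ℕ) ^ (5 * e) = 2 ^ (3 * e) * 2 ^ (2 * e) := by
      rw [← pow_add]
      congr 1
      ring
    rw [h1]
    have h2 := osp (show 1 ≤ 2 ^ (3 * e) from Nat.one_le_pow _ _ (by norm_num)) (2 ^ (2 * e))
    exact le_trans (mul_le_mul_of_nonneg_left h2 (by positivity)) (key _ le_rfl)
  rw [mul_add (((2 ^ (6 * e) : ℕ) : ℝ) ^ (s + 1))]
  refine lt_of_le_of_lt (add_le_add T1 (add_le_add T2 T3)) ?_
  norm_num

end Pool.H98.WH
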