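import Pool.Agent.H98.WH.NumBA

/-!
# [H98 WH NUMB] the choice of the parameters of a stage

Everything holds for all sufficiently large a of the form a = 2 ^ b (E = (e+1) 6^t 2^b, so `b ≤ Nat.log 2 E ≤ b + b₀`, b₀ = Nat.log 2 ((e+1) 6^t) + 1).
(1) L + t + 16 ≤ A (b + 1) for a constant A, `pow_small`.  (2) U ≤ b.  (3) λ ≥ ℓ ≥ a = 2^b > N0.  (4) λ = k + 1 + (k+t) ℓ is linear in ℓ, `ℓ * C ≤ 2 ^ ℓ` for large ℓ, E ≥ ℓ.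
(5) `numB_tl` and k ≥ 2 (e+1) + 1, so k ℓ ≥ (e+1) ℓ = E.  (6) `2 ^ E = (2^ℓ)^e * 2^ℓ`, 2^ℓ ≥ C1 + 10.  (7) (k = (e+1)(U(t-1)+2)+1): k ℓ = E U (t-1) + 2 E + ℓ, `Nat.log 2 E + 1 ≤ E < 2 ^ E` (E ≥ 2), so the left side is less than
`2 ^ (2 E + E U (t-1))`.  (8) 2^ℓ ≥ k + 2.  (1)-(8) may be proved as separate lemmas `∃ b₀, ∀ b ≥ b₀, ...`.
-/

set_option autoImplicit false

namespace Pool.H98.WH

theorem sq_two (m : ℕ) (hm : 4 ≤ m) : m ^ 2 ≤ 2 ^ m := by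
  induction m, hm using Nat.le_induction with
  | base => norm_num
  | succ m hm ih =>
    rw [pow_succ 2 m]
    nlinarith

theorem numB (t e U N0 C1 : ℕ) (ht : 1 ≤ t) : ∃ (a ℓ E k L : ℕ), ℓ = 6 ^ t * a ∧
    E = (e + 1) * ℓ ∧ k = (e + 1) * (U * (t - 1) + 2) + 1 ∧
    L = (e + 1) * 6 ^ t * (Nat.log 2 E + 1) ∧
    (L + t + 16) ^ (3 ^ t) ≤ a ∧ U ≤ Nat.log 2 E ∧ N0 < k + 1 + (k + t) * ℓ ∧
    k + 1 + (k + t) * ℓ ≤ 2 ^ E ∧ tl (tl (2 ^ E)) < k + 1 + (k + t) * ℓ ∧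
    C1 * (2 ^ ℓ) ^ e + 10 ≤ 2 ^ E ∧
    2 ^ E * ((2 ^ (E * U)) ^ (t - 1) * (Nat.log 2 E + 1)) < (2 ^ ℓ) ^ k ∧ k + 2 ≤ 2 ^ ℓ := by
  obtain ⟨E₀, hE₀⟩ := numB_tl
  obtain ⟨P, hP⟩ : ∃ P, P = (e + 1) * 6 ^ t := ⟨_, rfl⟩
  obtain ⟨b₁, hb₁⟩ : ∃ b₁, b₁ = Nat.log 2 P + 1 := ⟨_, rfl⟩
  obtain ⟨b₀, hb₀⟩ := pow_small (P * (b₁ + 1) + t + 16) (3 ^ t)
  obtain ⟨k, hk⟩ : ∃ k, k = (e + 1) * (U * (t - 1) + 2) + 1 := ⟨_, rfl⟩
  obtain ⟨b, hb⟩ : ∃ b, b = b₀ + U + N0 + (2 * k + t + 1) + E₀ + C1 + 10 + 4 := ⟨_, rfl⟩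
  obtain ⟨ℓ, hℓ⟩ : ∃ ℓ, ℓ = 6 ^ t * 2 ^ b := ⟨_, rfl⟩
  obtain ⟨E, hE⟩ : ∃ E, E = (e + 1) * ℓ := ⟨_, rfl⟩
  have hEP : E = P * 2 ^ b := by rw [hE, hℓ, hP]; ring
  have h6 : 1 ≤ 6 ^ t := Nat.one_le_pow _ _ (by norm_num)
  have hP1 : 1 ≤ P := by
    rw [hP]
    calc 1 = 1 * 1 := rfl
      _ ≤ _ := Nat.mul_le_mul (by omega) h6
  have h2b : b < 2 ^ b := Nat.lt_two_pow_self
  have hℓb : 2 ^ b ≤ ℓ := by
    rw [hℓ]
    calc 2 ^ b = 1 * 2 ^ b := (one_mul _).symm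
      _ ≤ _ := Nat.mul_le_mul_right _ h6
  have hℓE : ℓ ≤ E := by
    rw [hE]
    calc ℓ = 1 * ℓ := (one_mul _).symm
      _ ≤ _ := Nat.mul_le_mul_right _ (by omega)
  have hlogE : Nat.log 2 E < b + b₁ := by
    apply Nat.log_lt_of_lt_pow (by omega)
    rw [hEP, pow_add, mul_comm]
    apply Nat.mul_lt_mul_of_pos_left _ (by positivity)
    rw [hb₁]
    exact Nat.lt_pow_succ_log_self (by norm_num) P
  have hlogE2 : b ≤ Nat.log 2 E := Nat.le_log_of_pow_le (by norm_num) (hℓb.trans hℓE)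
  have hlℓ : ℓ < 2 ^ ℓ := Nat.lt_two_pow_self
  have hek : e + 2 ≤ k := by
    rw [hk]
    have : (e + 1) * 1 ≤ (e + 1) * (U * (t - 1) + 2) := Nat.mul_le_mul_left _ (by omega)
    omega
  have hlen : (e + 1) * ℓ ≤ (k + t) * ℓ := Nat.mul_le_mul_right _ (by omega)
  have hlen2 : 1 * ℓ ≤ (k + t) * ℓ := Nat.mul_le_mul_right _ (by omega)
  refine ⟨2 ^ b, ℓ, E, k, (e + 1) * 6 ^ t * (Nat.log 2 E + 1), hℓ, hE, hk, rfl, ?_, ?_, ?_, ?_, ?_,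
    ?_, ?_, ?_⟩
  · refine le_trans (Nat.pow_le_pow_left ?_ _) (hb₀ b (by omega))
    rw [← hP]
    have h1 : P * (Nat.log 2 E + 1) ≤ P * ((b₁ + 1) * (b + 1)) := by
      apply Nat.mul_le_mul_left
      nlinarith
    calc P * (Nat.log 2 E + 1) + t + 16 ≤ P * ((b₁ + 1) * (b + 1)) + (t + 16) * (b + 1) := by
          nlinarith
      _ = _ := by ring
  · omega
  · omega
  · have h1 : k + 1 + (k + t) * ℓ ≤ (2 * k + t + 1) * ℓ := by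
      have : (2 * k + t + 1) * ℓ = (k + 1) * ℓ + (k + t) * ℓ := by ring
      have h2 : (k + 1) * 1 ≤ (k + 1) * ℓ := Nat.mul_le_mul_left _ (by omega)
      omega
    have h2 : (2 * k + t + 1) * ℓ ≤ ℓ * ℓ := Nat.mul_le_mul_right _ (by omega)
    have h3 : ℓ * ℓ ≤ 2 ^ ℓ := by
      have := sq_two ℓ (by omega)
      rw [sq] at this
      exact this
    exact h1.trans (h2.trans (h3.trans (Nat.pow_le_pow_right (by norm_num) hℓE)))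
  · have := hE₀ E (by omega)
    omega
  · have e1 : 2 ^ E = (2 ^ ℓ) ^ e * 2 ^ ℓ := by
      rw [hE, ← pow_mul, ← pow_add]
      congr 1
      ring
    rw [e1]
    have h1 : 1 ≤ (2 ^ ℓ) ^ e := Nat.one_le_pow _ _ (by positivity)
    have h2 : C1 + 10 ≤ 2 ^ ℓ := by omega
    calc C1 * (2 ^ ℓ) ^ e + 10 ≤ C1 * (2 ^ ℓ) ^ e + 10 * (2 ^ ℓ) ^ e := by omega
      _ = (2 ^ ℓ) ^ e * (C1 + 10) := by ring
      _ ≤ _ := Nat.mul_le_mul_left _ h2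
  · have h1 : Nat.log 2 E + 1 ≤ 2 ^ E := by
      have h2 := Nat.log_lt_self 2 (show E ≠ 0 by omega)
      have h3 : E < 2 ^ E := Nat.lt_two_pow_self
      omega
    have e1 : (2 ^ ℓ) ^ k = 2 ^ (E * (U * (t - 1) + 2) + ℓ) := by
      rw [← pow_mul]
      congr 1
      rw [hk, hE]
      ring
    rw [e1]
    calc 2 ^ E * ((2 ^ (E * U)) ^ (t - 1) * (Nat.log 2 E + 1))
        ≤ 2 ^ E * ((2 ^ (E * U)) ^ (t - 1) * 2 ^ E) :=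
          Nat.mul_le_mul_left _ (Nat.mul_le_mul_left _ h1)
      _ = 2 ^ (E * (U * (t - 1) + 2)) := by
          rw [← pow_mul, ← pow_add, ← pow_add]
          congr 1
          ring
      _ < 2 ^ (E * (U * (t - 1) + 2) + ℓ) :=
          Nat.pow_lt_pow_right (by norm_num) (by omega)
  · omega

end Pool.H98.WH
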