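import Pool.Agent.H98.WH.Defs

/-!
# [H98 WH NUMBA] two growth facts

`pow_small`: `tendsto_pow_const_div_const_pow_of_one_lt` (or induction).  `numB_tl`: `Nat.log 2 (2 ^ E) = E`, so `tl (2 ^ E) = Nat.log 2 E * (E + 1)`, and `Nat.log 2 (tl (2^E)) ≤ 2 Nat.log 2 E + 2` (as `tl (2^E) < 2 ^ (2 log E + 3)`), so
`tl (tl (2^E)) ≤ Nat.log 2 (2 log E + 2) (2 log E + 3) ≤ (2 log E + 3)^2 ≤ E` for E large (`pow_small` with b = Nat.log 2 E, `2 ^ b ≤ E`).
-/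

set_option autoImplicit false

namespace Pool.H98.WH

theorem pow_small (A d : ℕ) : ∃ b₀ : ℕ, ∀ b ≥ b₀, (A * (b + 1)) ^ d ≤ 2 ^ b := by
  have h := tendsto_pow_const_div_const_pow_of_one_lt d (show (1 : ℝ) < 2 by norm_num)
  have hpos : (0 : ℝ) < 1 / (2 * ((A : ℝ) ^ d + 1)) := by positivity
  have h1 := (h.eventually (gt_mem_nhds hpos)).exists_forall_of_atTop
  obtain ⟨n₀, hn₀⟩ := h1
  refine ⟨n₀, fun b hb => ?_⟩
  have h2 := hn₀ (b + 1) (by omega)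
  rw [div_lt_div_iff₀ (by positivity) (by positivity)] at h2
  have hA : (0 : ℝ) ≤ (A : ℝ) ^ d := by positivity
  have h3 : (0 : ℝ) ≤ ((b + 1 : ℕ) : ℝ) ^ d := by positivity
  have h4 : ((A * (b + 1) : ℕ) : ℝ) ^ d ≤ 2 ^ b := by
    push_cast
    rw [mul_pow]
    push_cast at h2 h3
    have e : (2 : ℝ) ^ (b + 1) = 2 * 2 ^ b := by rw [pow_succ]; ring
    rw [e] at h2
    nlinarith
  exact_mod_cast h4

theorem numB_tl : ∃ E₀ : ℕ, ∀ E ≥ E₀, tl (tl (2 ^ E)) ≤ E := by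
  obtain ⟨b₀, hb₀⟩ := pow_small 2 2
  refine ⟨2 ^ (b₀ + 1), fun E hE => ?_⟩
  have hE1 : E ≠ 0 := by
    have := Nat.one_le_pow (b₀ + 1) 2 (by norm_num)
    omega
  set b := Nat.log 2 E with hb
  have hbb : b₀ ≤ b := by
    have := Nat.le_log_of_pow_le (by norm_num) hE
    omega
  have h1 : E < 2 ^ (b + 1) := Nat.lt_pow_succ_log_self (by norm_num) E
  have h2 : 2 ^ b ≤ E := Nat.pow_log_le_self 2 hE1
  have e1 : tl (2 ^ E) = b * (E + 1) := by
    unfold tl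
    rw [Nat.log_pow (by norm_num)]
  have hbp : 1 ≤ b := by
    have := Nat.le_log_of_pow_le (by norm_num) hE
    omega
  have h3 : tl (2 ^ E) < 2 ^ (2 * b + 1) := by
    rw [e1]
    have h4 : b < 2 ^ b := Nat.lt_two_pow_self
    have e2 : 2 ^ (2 * b + 1) = 2 ^ b * 2 ^ (b + 1) := by
      rw [← pow_add]; congr 1; ring
    rw [e2]
    calc b * (E + 1) ≤ b * 2 ^ (b + 1) := Nat.mul_le_mul_left _ (by omega)
      _ < 2 ^ b * 2 ^ (b + 1) := Nat.mul_lt_mul_of_pos_right h4 (by positivity)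
  set y := tl (2 ^ E) with hy
  have h5 : Nat.log 2 y ≤ 2 * b := by
    have hy0 : y ≠ 0 := by
      rw [e1]
      positivity
    have := Nat.log_lt_of_lt_pow hy0 h3
    omega
  have h6 : tl y ≤ (2 * (b + 1)) ^ 2 := by
    unfold tl
    have h7 : Nat.log 2 (Nat.log 2 y) ≤ Nat.log 2 y := Nat.log_le_self _ _
    calc Nat.log 2 (Nat.log 2 y) * (Nat.log 2 y + 1) ≤ (2 * b) * (2 * b + 1) :=
          Nat.mul_le_mul (h7.trans h5) (by omega)
      _ ≤ _ := by nlinarith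
  exact h6.trans ((hb₀ b hbb).trans h2)

end Pool.H98.WH
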