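import Pool.Agent.H98.WH.Defs

/-!
# [H98 WH ORCA] injectivity of the codes, bounds for the queries

`num_inj`: `len_num` (H88/RO/Machine).  `tr_inj`: structural induction on the letters, lists, matrices (`num_inj`; `Tr.bit` is injective; the tags 0,1,2,3 differ), then `Inst` (cases).
`tl_le`: with `m = Nat.log 2 n`: `Nat.log 2 m * (m + 1) ≤ 2 ^ m ≤ n` (n ≥ 1; `Nat.pow_log_le_self`); for small m (say m ≤ 6) by `decide`/`interval_cases` (`Nat.log` values by `decide` or `simp`), else `Nat.log 2 m ≤ m` and `m (m+1) ≤ 2 ^ m` for m ≥ 5 by induction;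
n = 0: `tl 0 = 0`.  `tl_mono`: `Nat.log_mono_right`.
`cat_len`: induction on ws: each bit has length 1, each variable length at most ℓ.  `ws_size`: induction; `size ≥ 1`.
`ev_congr`: structural induction on m.  `alt_congr`: induction on s (q, ρ arbitrary).  `holds_congr`: both together.
`val_tl`: `Nat.le_log_of_pow_le`-like twice (`2 ^ 2 ^ par ≤ n` gives `2 ^ par ≤ Nat.log 2 n`, `par ≤ Nat.log 2 (Nat.log 2 n)`), size I.m.tr ≤ I.par.
-/

set_option autoImplicit false

namespace Pool.H98.WH

open Pool.Agent.H88.RO Tr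

theorem num_inj {a b : ℕ} (h : num a = num b) : a = b := by
  have := congrArg len h
  simpa [len_num] using this

theorem bit_inj {a b : Bool} (h : Tr.bit a = Tr.bit b) : a = b := by
  cases a <;> cases b <;> simp_all [Tr.bit]

theorem wd_inj {a b : Wd} (h : a.tr = b.tr) : a = b := by
  cases a with
  | bit x =>
    cases b with
    | bit y =>
      simp only [Wd.tr, Tr.node.injEq] at h
      rw [bit_inj h.2]
    | var j => simp [Wd.tr] at h
  | var i =>
    cases b with
    | bit y => simp [Wd.tr] at h
    | var j =>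
      simp only [Wd.tr, Tr.node.injEq] at h
      rw [num_inj h.2]

theorem ws_inj : ∀ {a b : List Wd}, wsTr a = wsTr b → a = b
  | [], [], _ => rfl
  | [], _ :: _, h => by simp [wsTr] at h
  | _ :: _, [], h => by simp [wsTr] at h
  | x :: a, y :: b, h => by
      simp only [wsTr, Tr.node.injEq] at h
      rw [wd_inj h.1, ws_inj h.2]

theorem mat_inj : ∀ {a b : Mat}, a.tr = b.tr → a = b := by
  intro a
  induction a with
  | tab ws =>
    intro b h
    cases b with
    | tab ws' => 
      simp only [Mat.tr, Tr.node.injEq] at h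
      rw [ws_inj h.2]
    | orc ws' => 
      simp only [Mat.tr, Tr.node.injEq] at h
      exact absurd (num_inj h.1) (by norm_num)
    | neg m => 
      simp only [Mat.tr, Tr.node.injEq] at h
      exact absurd (num_inj h.1) (by norm_num)
    | conj m m' => 
      simp only [Mat.tr, Tr.node.injEq] at h
      exact absurd (num_inj h.1) (by norm_num)
  | orc ws =>
    intro b h
    cases b with
    | tab ws' => 
      simp only [Mat.tr, Tr.node.injEq] at h
      exact absurd (num_inj h.1) (by norm_num)
    | orc ws' => 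
      simp only [Mat.tr, Tr.node.injEq] at h
      rw [ws_inj h.2]
    | neg m => 
      simp only [Mat.tr, Tr.node.injEq] at h
      exact absurd (num_inj h.1) (by norm_num)
    | conj m m' => 
      simp only [Mat.tr, Tr.node.injEq] at h
      exact absurd (num_inj h.1) (by norm_num)
  | neg m ih =>
    intro b h
    cases b with
    | tab ws' => 
      simp only [Mat.tr, Tr.node.injEq] at h
      exact absurd (num_inj h.1) (by norm_num)
    | orc ws' => 
      simp only [Mat.tr, Tr.node.injEq] at h
      exact absurd (num_inj h.1) (by norm_num)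
    | neg m => 
      simp only [Mat.tr, Tr.node.injEq] at h
      rw [ih h.2]
    | conj m m' => 
      simp only [Mat.tr, Tr.node.injEq] at h
      exact absurd (num_inj h.1) (by norm_num)
  | conj m m' ih ih' =>
    intro b h
    cases b with
    | tab ws' => 
      simp only [Mat.tr, Tr.node.injEq] at h
      exact absurd (num_inj h.1) (by norm_num)
    | orc ws' => 
      simp only [Mat.tr, Tr.node.injEq] at h
      exact absurd (num_inj h.1) (by norm_num)
    | neg m => 
      simp only [Mat.tr, Tr.node.injEq] at h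
      exact absurd (num_inj h.1) (by norm_num)
    | conj a a' => 
      simp only [Mat.tr, Tr.node.injEq] at h
      rw [ih h.2.1, ih' h.2.2]

theorem tr_inj {I I' : Inst} (h : I.tr = I'.tr) : I = I' := by
  obtain ⟨j, l, m, z⟩ := I
  obtain ⟨j', l', m', z'⟩ := I'
  simp only [Inst.tr, Tr.node.injEq] at h
  obtain ⟨h1, h2, h3, h4⟩ := h
  rw [num_inj h1, num_inj h2, mat_inj h3, h4]

theorem sq_le_two_pow (m : ℕ) (hm : 5 ≤ m) : m * (m + 1) ≤ 2 ^ m := by
  induction m, hm using Nat.le_induction with
  | base => norm_num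
  | succ m hm ih =>
    rw [pow_succ]
    nlinarith

theorem tl_le (n : ℕ) : tl n ≤ n := by
  rcases Nat.eq_zero_or_pos n with h0 | h0
  · subst h0; simp [tl]
  unfold tl
  have hpow : 2 ^ (Nat.log 2 n) ≤ n := Nat.pow_log_le_self 2 (by omega)
  refine le_trans ?_ hpow
  generalize Nat.log 2 n = m
  rcases le_or_gt 5 m with h5 | h5
  · refine le_trans ?_ (sq_le_two_pow m h5)
    exact Nat.mul_le_mul_right _ (Nat.log_le_self 2 m)
  · interval_cases m
    · simp
    · simp
    · have : Nat.log 2 2 = 1 := by decide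
      rw [this]; norm_num
    · have : Nat.log 2 3 = 1 := by decide
      rw [this]; norm_num
    · have : Nat.log 2 4 = 2 := by decide
      rw [this]; norm_num

theorem tl_mono {a b : ℕ} (h : a ≤ b) : tl a ≤ tl b := by
  unfold tl
  have h1 : Nat.log 2 a ≤ Nat.log 2 b := Nat.log_mono_right h
  exact Nat.mul_le_mul (Nat.log_mono_right h1) (by omega)

theorem getD_len {ℓ : ℕ} {ρ : List (List Bool)} (hρ : ∀ w ∈ ρ, w.length ≤ ℓ) (i : ℕ) :
    (ρ.getD i []).length ≤ ℓ := by
  rcases lt_or_ge i ρ.length with h | h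
  · rw [List.getD_eq_getElem _ _ h]
    exact hρ _ (List.getElem_mem h)
  · rw [List.getD_eq_default _ _ h]
    simp

theorem cat_len {ℓ : ℕ} {ρ : List (List Bool)} (hρ : ∀ w ∈ ρ, w.length ≤ ℓ) (ws : List Wd) :
    (cat ρ ws).length ≤ ws.length * (ℓ + 1) := by
  induction ws with
  | nil => simp [cat]
  | cons w ws ih =>
    cases w with
    | bit b =>
      simp only [cat, List.length_cons]
      nlinarith
    | var i =>
      simp only [cat, List.length_append, List.length_cons]
      have := getD_len hρ i
      nlinarith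

theorem one_le_size (t : Tr) : 1 ≤ size t := by
  cases t <;> simp [size]

theorem ws_size (ws : List Wd) : ws.length + 1 ≤ size (wsTr ws) := by
  induction ws with
  | nil => simp [wsTr, size]
  | cons w ws ih =>
    simp only [wsTr, size, List.length_cons]
    have := one_le_size w.tr
    omega

theorem size_pos_par (I : Inst) : 1 ≤ I.par := by
  unfold Inst.par
  have := one_le_size I.m.tr
  omega

theorem ev_congr {A B : List Bool → Bool} {ℓ : ℕ} {ρ : List (List Bool)}
    (hρ : ∀ w ∈ ρ, w.length ≤ ℓ) (z : Tr) (m : Mat)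
    (h : ∀ w : List Bool, w.length ≤ size m.tr * (ℓ + 1) → A w = B w) :
    m.ev A z ρ = m.ev B z ρ := by
  induction m with
  | tab ws => rfl
  | orc ws =>
    simp only [Mat.ev]
    apply h
    refine le_trans (cat_len hρ ws) ?_
    apply Nat.mul_le_mul_right
    simp only [Mat.tr, size]
    have := ws_size ws
    omega
  | neg m ih =>
    simp only [Mat.ev]
    rw [ih]
    intro w hw
    apply h
    refine le_trans hw (Nat.mul_le_mul_right _ ?_)
    simp only [Mat.tr, size]
    omega
  | conj m m' ih ih' =>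
    simp only [Mat.ev]
    rw [ih, ih']
    · intro w hw
      apply h
      refine le_trans hw (Nat.mul_le_mul_right _ ?_)
      simp only [Mat.tr, size]
      omega
    · intro w hw
      apply h
      refine le_trans hw (Nat.mul_le_mul_right _ ?_)
      simp only [Mat.tr, size]
      omega

theorem alt_congr {φ φ' : List (List Bool) → Bool} {ℓ u : ℕ} (s : ℕ) (q : Bool)
    (ρ : List (List Bool)) (hρ : ∀ w ∈ ρ, w.length ≤ ℓ)
    (h : ∀ ρ' : List (List Bool), (∀ w ∈ ρ', w.length ≤ ℓ) → φ ρ' = φ' ρ') :
    Alt φ ℓ u s q ρ ↔ Alt φ' ℓ u s q ρ := by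
  induction s generalizing q ρ with
  | zero => simp only [Alt]; rw [h ρ hρ]
  | succ s ih =>
    have key : ∀ g ∈ blocks ℓ u, ∀ w ∈ ρ ++ g, w.length ≤ ℓ := by
      intro g hg w hw
      rcases List.mem_append.mp hw with hw | hw
      · exact hρ w hw
      · exact (hg.2 w hw).le
    cases q with
    | true =>
      simp only [Alt]
      constructor
      · rintro ⟨g, hg, h'⟩
        exact ⟨g, hg, (ih false _ (key g hg)).mp h'⟩
      · rintro ⟨g, hg, h'⟩
        exact ⟨g, hg, (ih false _ (key g hg)).mpr h'⟩
    | false =>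
      simp only [Alt]
      constructor
      · intro h' g hg
        exact (ih true _ (key g hg)).mp (h' g hg)
      · intro h' g hg
        exact (ih true _ (key g hg)).mpr (h' g hg)

theorem holds_congr {A B : List Bool → Bool} (s u : ℕ) (I : Inst)
    (h : ∀ w : List Bool, w.length ≤ size I.m.tr * (I.ℓ + 1) → A w = B w) :
    I.Holds A s u ↔ I.Holds B s u := by
  unfold Inst.Holds
  have key : ∀ g ∈ blocks I.ℓ I.j, (Alt (fun ρ => I.m.ev A I.z ρ) I.ℓ u s false g ↔
      Alt (fun ρ => I.m.ev B I.z ρ) I.ℓ u s false g) := by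
    intro g hg
    apply alt_congr
    · intro w hw; exact (hg.2 w hw).le
    · intro ρ' hρ'
      exact ev_congr hρ' I.z I.m h
  constructor
  · rintro ⟨g, hg, h'⟩
    exact ⟨g, hg, (key g hg).mp h'⟩
  · rintro ⟨g, hg, h'⟩
    exact ⟨g, hg, (key g hg).mpr h'⟩

/-- the queries of a valid code of length `n` have length at most `tl n` -/
theorem val_tl {thr : ℕ → ℕ} {n u : ℕ} {I : Inst} (h : Val thr n u I) :
    size I.m.tr * (I.ℓ + 1) ≤ tl n ∧ I.par ≤ Nat.log 2 (Nat.log 2 n) ∧ I.ℓ ≤ Nat.log 2 n := by
  obtain ⟨_, h2, h3⟩ := h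
  have hn : n ≠ 0 := by
    intro h0
    rw [h0] at h3
    exact absurd h3 (by have := Nat.pos_of_ne_zero (pow_ne_zero I.ℓ (two_ne_zero (α := ℕ))); omega)
  have e3 : I.ℓ ≤ Nat.log 2 n := Nat.le_log_of_pow_le (by norm_num) h3
  have e2 : 2 ^ I.par ≤ Nat.log 2 n := Nat.le_log_of_pow_le (by norm_num) h2
  have hn2 : Nat.log 2 n ≠ 0 := by
    intro h0
    rw [h0] at e2
    exact absurd e2 (by have := Nat.pos_of_ne_zero (pow_ne_zero I.par (two_ne_zero (α := ℕ))); omega)
  have e1 : I.par ≤ Nat.log 2 (Nat.log 2 n) := Nat.le_log_of_pow_le (by norm_num) e2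
  refine ⟨?_, e1, e3⟩
  unfold tl
  apply Nat.mul_le_mul
  · refine le_trans ?_ e1
    unfold Inst.par
    omega
  · omega

end Pool.H98.WH
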