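import Pool.Agent.H98.WH.Defs

/-!
# [H98 WH RPN] the code of a tree is computable in polynomial time

States `node stack out`; stack = list of trees (`node item rest`).  One step: if the stack is empty nothing; item = leaf: drop it, put `false` (= leaf) in front of out;
item = node a b: put `true` (= node leaf leaf) in front of out, replace the item by a, b (a on top).  `rpn (node a b) = rpn b ++ rpn a ++ [true]`, so after
`size v` steps from `node (node v leaf) leaf` the state is `node leaf (enc (rpn v))` (prove for all stacks and outputs: after `size v` steps `node (node v st) (enc o)`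
becomes `node st (enc (rpn v ++ o))`; induction on v).  The number of steps must be given by the length of a tree: a unary numeral of length ≥ size v
(more steps do not change a state with empty stack): e.g. iterate the step once for every node in several rounds, or compute `num (size v)` first by the same technique
(`FP.iterate_add`: a stack machine that counts needs size v steps as well): use that `size v ≤ 2 ^ ..` is not available, so bound the number of steps by
a polynomial time function with `len ≥ size v`: the function `v ↦ ` one pass `cl` with `len (cl v)` large: see `sizeT`, `wstep`, `wsz` in H88/RO/Progs.lean; or the program may simply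
loop until the stack is empty (`Prog.loop`, direct cost induction instead of `FP.iterate'`; this is the easiest: `Prog.loop f` runs while the first component is not leaf and returns
the second component, exactly this machine; every state has size ≤ 3 * size v + const; cost ≤ (size v + 1) * polynomial).
`size_rpn`: (rpn v).length = size v.
-/

set_option autoImplicit false

namespace Pool.H98.WH

open Pool.Agent.H88.RO Tr

theorem size_rpn (v : Tr) : (rpn v).length = size v := by
  induction v with
  | leaf => simp [rpn, size]
  | node a b iha ihb =>
    simp only [rpn, size, List.length_append, List.length_cons, List.length_nil, iha, ihb]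
    omega

/-- one step of the machine -/
def rpnS (s : Tr) : Tr :=
  if fst (fst s) = leaf then node (snd (fst s)) (node leaf (snd s))
  else node (node (fst (fst (fst s))) (node (snd (fst (fst s))) (snd (fst s)))) (node tt (snd s))

/-- the output -/
def rpnG : Tr → Tr → Tr
  | leaf, o => node leaf o
  | node a b, o => rpnG b (rpnG a (node tt o))

theorem rpnG_enc (v : Tr) : ∀ o : List Bool, rpnG v (enc o) = enc (rpn v ++ o) := by
  induction v with
  | leaf => intro o; simp [rpnG, rpn, enc, Tr.bit]
  | node a b iha ihb =>
    intro o
    have e : node tt (enc o) = enc (true :: o) := rfl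
    simp only [rpnG, e, iha, ihb, rpn]
    simp

theorem rpnG_size (v : Tr) : ∀ o : Tr, size (rpnG v o) ≤ size o + 4 * size v := by
  induction v with
  | leaf => intro o; simp only [rpnG, size]; omega
  | node a b iha ihb =>
    intro o
    simp only [rpnG]
    have h1 := ihb (rpnG a (node tt o))
    have h2 := iha (node tt o)
    have e : size (node tt o) = size o + 4 := by simp only [tt, size]; omega
    simp only [size] at *
    omega

theorem rpn_loop {O : List Bool → Bool} {c : Prog} {q : Polynomial ℕ}
    (hc : ∀ v, ∃ t ≤ q.eval (size v), Eval O c v (rpnS v) t) (B : ℕ) (w : Tr) (v : Tr) :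
    ∀ (st o : Tr) (T : ℕ), size (node (node v st) o) + 4 * size v ≤ B →
      Eval O (Prog.loop c) (node st (rpnG v o)) w T →
      ∃ T' ≤ T + size v * (q.eval B + B + 1), Eval O (Prog.loop c) (node (node v st) o) w T' := by
  induction v with
  | leaf =>
    intro st o T hB hE
    obtain ⟨t, ht, he⟩ := hc (node (node leaf st) o)
    have e : rpnS (node (node leaf st) o) = node st (rpnG leaf o) := by simp [rpnS, rpnG]
    rw [e] at he
    refine ⟨_, ?_, Eval.loopStep (by simp) he hE⟩
    have h1 := poly_mono q (show size (node (node leaf st) o) ≤ B by omega)
    simp only [size] at *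
    omega
  | node a b iha ihb =>
    intro st o T hB hE
    obtain ⟨t, ht, he⟩ := hc (node (node (node a b) st) o)
    have e : rpnS (node (node (node a b) st) o) = node (node a (node b st)) (node tt o) := by
      simp [rpnS]
    rw [e] at he
    have hG := rpnG_size a (node tt o)
    have e2 : size (node tt o) = size o + 4 := by simp only [tt, size]; omega
    obtain ⟨T1, hT1, hE1⟩ := ihb st (rpnG a (node tt o)) T (by simp only [size] at *; omega) hE
    obtain ⟨T2, hT2, hE2⟩ := iha (node b st) (node tt o) T1 (by simp only [size] at *; omega) hE1
    refine ⟨_, ?_, Eval.loopStep (by simp) he hE2⟩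
    have h1 := poly_mono q (show size (node (node (node a b) st) o) ≤ B by omega)
    have h2 : size (node (node (node a b) st) o) ≤ B := by omega
    have e3 : size (node a b) * (q.eval B + B + 1) =
      size a * (q.eval B + B + 1) + size b * (q.eval B + B + 1) + (q.eval B + B + 1) := by
      simp only [size]; ring
    rw [e3]
    omega

theorem rpn_fp (O : List Bool → Bool) : FP O (fun v => enc (rpn v)) := by
  obtain ⟨c, q, hc⟩ : FP O rpnS := by
    unfold rpnS
    (repeat (first | with_reducible exact FP.id' | assumption | with_reducible apply FP.fst' | with_reducible apply FP.snd' | with_reducible apply FP.node' | with_reducible apply FP.query' | with_reducible apply FP.ite' | with_reducible exact FP.const' _))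
  obtain ⟨cI, qI, hI⟩ : FP O (fun v => node (node v leaf) leaf) :=
    FP.node' (FP.node' FP.id' FP.leaf') FP.leaf'
  refine ⟨Prog.comp (Prog.loop c) cI,
    qI + ((5 * Polynomial.X + 4) + 1 + Polynomial.X *
      (q.comp (5 * Polynomial.X + 4) + (5 * Polynomial.X + 4) + 1)) + Polynomial.X + 1, ?_⟩
  intro v
  obtain ⟨t1, ht1, he1⟩ := hI v
  have hd : Eval O (Prog.loop c) (node leaf (rpnG v leaf)) (rpnG v leaf)
    (size (node leaf (rpnG v leaf)) + 1) := Eval.loopDone (by simp)
  obtain ⟨t2, ht2, he2⟩ := rpn_loop hc (5 * size v + 4) (rpnG v leaf) v leaf leaf _
    (by simp only [size]; omega) hd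
  have e : rpnG v leaf = enc (rpn v) := by
    have := rpnG_enc v []
    simpa [enc] using this
  rw [e] at he2
  refine ⟨_, ?_, Eval.comp he1 he2⟩
  have hG := rpnG_size v leaf
  simp only [Polynomial.eval_add, Polynomial.eval_mul, Polynomial.eval_comp, Polynomial.eval_X,
      Polynomial.eval_one, Polynomial.eval_ofNat]
  simp only [size] at *
  omega

end Pool.H98.WH
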