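import Pool.Agent.H98.WH.Glue

/-!
# [H98 WH SAT] terms in disjoint blocks are satisfied independently

`Sat ω S a`: the term (S, a) is satisfied by the restriction for all values of the new variables.
`sat_one`: the event E: for v ∈ S the bit `(ω v.1).2 v.2` is `a v`, and `(ω b).1 ≠ 0` for the blocks b of S.  E ⊆ Sat (if a v = true: the value is true; if a v = false: bit false and dead: false).
`card Ω ≤ 4 ^ h * card E`: the map ω ↦ (forced ω, the old bits on S, for the blocks of S whether the number was 0) is injective, forced ω ∈ E: replace the bits on S by a, and the number 0 by 1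
(`2 ≤ Q`) in the blocks of S (if it was not 0 it is kept); the target has `card E * 2 ^ S.card * 2 ^ (blocks of S)` elements at most `card E * 4 ^ h`.
So `card (not Sat) ≤ card Ω - card E ≤ (1 - 1 / 4 ^ h) card Ω`.
`sat_fam`: induction on the number D of terms (`Fin.forall_fin_succ`): `glue_card` with H = the blocks of the last (or first) term: `card(A ∧ B) card Ω = card A card B`; `Sat ω S a` depends only on ω on the
blocks of S; the other events do not depend on these blocks.
-/

set_option autoImplicit false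

namespace Pool.H98.WH

open Finset

variable {B J : Type} [Fintype B] [DecidableEq B] [Fintype J] [DecidableEq J]

/-- the term `(S, a)` is satisfied -/
def Sat {Q : ℕ} (ω : Om B J Q) (S : Finset (B × J)) (a : B × J → Bool) : Prop :=
  ∀ v ∈ S, ∀ w : B → Bool, restr ω w v = a v

omit [Fintype B] [Fintype J] [DecidableEq J] in
theorem sat_congr {Q : ℕ} {ω ω' : Om B J Q} (S : Finset (B × J)) (a : B × J → Bool)
    (h : ∀ b ∈ S.image Prod.fst, ω b = ω' b) : Sat ω S a ↔ Sat ω' S a := by
  unfold Sat restr
  constructor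
  · intro h1 v hv w
    rw [← h v.1 (mem_image_of_mem _ hv)]
    exact h1 v hv w
  · intro h1 v hv w
    rw [h v.1 (mem_image_of_mem _ hv)]
    exact h1 v hv w

open Classical in
theorem sat_one {Q h : ℕ} (hQ : 2 ≤ Q) (S : Finset (B × J)) (a : B × J → Bool) (hS : S.card ≤ h) :
    ((univ.filter (fun ω : Om B J Q => ¬ Sat ω S a)).card : ℝ) ≤
      (1 - 1 / 4 ^ h) * Fintype.card (Om B J Q) := by
  let E : Om B J Q → Prop := fun ω => ∀ v ∈ S, (ω v.1).2 v.2 = a v ∧ (ω v.1).1.val ≠ 0
  let F : Om B J Q → Om B J Q := fun ω b =>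
    (if b ∈ S.image Prod.fst ∧ (ω b).1.val = 0 then ⟨1, by omega⟩ else (ω b).1,
      fun j => if (b, j) ∈ S then a (b, j) else (ω b).2 j)
  have hF : ∀ ω, E (F ω) := by
    intro ω v hv
    refine ⟨?_, ?_⟩
    · simp only [F, Prod.mk.eta, hv, if_true]
    · simp only [F]
      split_ifs with h1
      · simp
      · intro h2
        exact h1 ⟨mem_image_of_mem _ hv, h2⟩
  have hE : ∀ ω, E ω → Sat ω S a := by
    intro ω h1 v hv w
    obtain ⟨h2, h3⟩ := h1 v hv
    unfold restr
    rw [h2]
    cases ha : a v with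
    | true => simp
    | false => simp [h3]
  let G : Om B J Q → {ω // E ω} × ((S → Bool) × (S → Bool)) := fun ω =>
    (⟨F ω, hF ω⟩, (fun v => (ω v.1.1).2 v.1.2), (fun v => decide ((ω v.1.1).1.val = 0)))
  have hG : Function.Injective G := by
    intro ω ω' hh
    simp only [G, Prod.mk.injEq, Subtype.mk.injEq] at hh
    obtain ⟨h1, h2, h3⟩ := hh
    funext b
    have hb := congrFun h1 b
    simp only [F, Prod.mk.injEq] at hb
    obtain ⟨hb1, hb2⟩ := hb
    apply Prod.ext
    · by_cases hbS : b ∈ S.image Prod.fst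
      · obtain ⟨v, hv, rfl⟩ := mem_image.mp hbS
        have h4 := congrFun h3 ⟨v, hv⟩
        simp only [decide_eq_decide] at h4
        by_cases h5 : (ω v.1).1.val = 0
        · exact Fin.ext (h5.trans (h4.mp h5).symm)
        · have h6 : ¬ (ω' v.1).1.val = 0 := fun h => h5 (h4.mpr h)
          rw [if_neg (fun h => h5 h.2), if_neg (fun h => h6 h.2)] at hb1
          exact hb1
      · rw [if_neg (fun h => hbS h.1), if_neg (fun h => hbS h.1)] at hb1
        exact hb1
    · funext j
      by_cases hj : (b, j) ∈ S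
      · exact congrFun h2 ⟨(b, j), hj⟩
      · have := congrFun hb2 j
        rw [if_neg hj, if_neg hj] at this
        exact this
  have hcard := Fintype.card_le_of_injective G hG
  have ec : Fintype.card (S → Bool) = 2 ^ S.card := by simp
  rw [Fintype.card_prod, Fintype.card_prod, ec] at hcard
  have h4 : 2 ^ S.card * 2 ^ S.card ≤ 4 ^ h := by
    rw [← mul_pow]
    exact Nat.pow_le_pow_right (by norm_num) hS
  have hEc : Fintype.card {ω : Om B J Q // E ω} ≤
      (univ.filter (fun ω : Om B J Q => Sat ω S a)).card := by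
    rw [Fintype.card_subtype]
    apply card_le_card
    intro ω hω
    simp only [mem_filter, mem_univ, true_and] at hω ⊢
    exact hE ω hω
  have h5 : Fintype.card (Om B J Q) ≤
      (univ.filter (fun ω : Om B J Q => Sat ω S a)).card * 4 ^ h :=
    hcard.trans (Nat.mul_le_mul hEc h4)
  have h6 : (univ.filter (fun ω : Om B J Q => Sat ω S a)).card +
      (univ.filter (fun ω : Om B J Q => ¬ Sat ω S a)).card = Fintype.card (Om B J Q) := by
    rw [card_filter_add_card_filter_not, card_univ]
  have h5' : (Fintype.card (Om B J Q) : ℝ) ≤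
      ((univ.filter (fun ω : Om B J Q => Sat ω S a)).card : ℝ) * 4 ^ h := by exact_mod_cast h5
  have h6' : ((univ.filter (fun ω : Om B J Q => Sat ω S a)).card : ℝ) +
      ((univ.filter (fun ω : Om B J Q => ¬ Sat ω S a)).card : ℝ) =
      (Fintype.card (Om B J Q) : ℝ) := by exact_mod_cast h6
  have hp : (0 : ℝ) < 4 ^ h := by positivity
  have h7 : (Fintype.card (Om B J Q) : ℝ) / 4 ^ h ≤
      ((univ.filter (fun ω : Om B J Q => Sat ω S a)).card : ℝ) := by
    rw [div_le_iff₀ hp]
    exact h5'
  have e : (1 - 1 / (4 : ℝ) ^ h) * Fintype.card (Om B J Q) =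
      Fintype.card (Om B J Q) - (Fintype.card (Om B J Q) : ℝ) / 4 ^ h := by ring
  rw [e]
  linarith

open Classical in
theorem sat_fam {Q h : ℕ} (hQ : 2 ≤ Q) (D : ℕ) (S : Fin D → Finset (B × J))
    (a : Fin D → B × J → Bool) (hS : ∀ i, (S i).card ≤ h)
    (hd : ∀ i i', i ≠ i' → Disjoint ((S i).image Prod.fst) ((S i').image Prod.fst)) :
    ((univ.filter (fun ω : Om B J Q => ∀ i, ¬ Sat ω (S i) (a i))).card : ℝ) ≤
      (1 - 1 / 4 ^ h) ^ D * Fintype.card (Om B J Q) := by
  induction D with
  | zero =>
    simp only [pow_zero, one_mul]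
    exact_mod_cast card_le_univ _
  | succ D ih =>
    have ih' := ih (fun i => S i.succ) (fun i => a i.succ) (fun i => hS i.succ)
      (fun i i' hii => hd i.succ i'.succ (fun h => hii (Fin.succ_injective _ h)))
    have h1 := sat_one (Q := Q) hQ (S 0) (a 0) (hS 0)
    have hind := glue_card ((S 0).image Prod.fst) (fun ω : Om B J Q => ¬ Sat ω (S 0) (a 0))
      (fun ω : Om B J Q => ∀ i : Fin D, ¬ Sat ω (S i.succ) (a i.succ))
      (fun ω ω' hh => not_congr (sat_congr _ _ hh))
      (fun ω ω' hh => forall_congr' (fun i => not_congr (sat_congr _ _ (fun b hb =>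
        hh b (fun hb0 => (Finset.disjoint_left.mp (hd 0 i.succ (Fin.succ_ne_zero i).symm)) hb0 hb)))))
    have e : (univ.filter (fun ω : Om B J Q => ∀ i, ¬ Sat ω (S i) (a i))) =
        univ.filter (fun ω : Om B J Q => ¬ Sat ω (S 0) (a 0) ∧
          ∀ i : Fin D, ¬ Sat ω (S i.succ) (a i.succ)) := by
      ext ω
      simp only [mem_filter, mem_univ, true_and]
      exact Fin.forall_fin_succ
    rw [e]
    have hind' : ((univ.filter (fun ω : Om B J Q => ¬ Sat ω (S 0) (a 0) ∧
          ∀ i : Fin D, ¬ Sat ω (S i.succ) (a i.succ))).card : ℝ) * Fintype.card (Om B J Q) =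
        ((univ.filter (fun ω : Om B J Q => ¬ Sat ω (S 0) (a 0))).card : ℝ) *
        ((univ.filter (fun ω : Om B J Q => ∀ i : Fin D,
          ¬ Sat ω (S i.succ) (a i.succ))).card : ℝ) := by
      have h8 : (univ.filter (fun ω : Om B J Q => ¬ Sat ω (S 0) (a 0) ∧
          ∀ i : Fin D, ¬ Sat ω (S i.succ) (a i.succ))).card * Fintype.card (Om B J Q) =
        (univ.filter (fun ω : Om B J Q => ¬ Sat ω (S 0) (a 0))).card *
        (univ.filter (fun ω : Om B J Q => ∀ i : Fin D,
          ¬ Sat ω (S i.succ) (a i.succ))).card := by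
        convert hind
      exact_mod_cast h8
    have hne : Nonempty (Om B J Q) := ⟨fun _ => (⟨0, by omega⟩, fun _ => false)⟩
    have hpos : (0 : ℝ) < Fintype.card (Om B J Q) := by exact_mod_cast Fintype.card_pos
    have hc : (0 : ℝ) ≤ 1 - 1 / 4 ^ h := by
      have : (1 : ℝ) / 4 ^ h ≤ 1 := by
        rw [div_le_one (by positivity)]
        exact one_le_pow₀ (by norm_num)
      linarith
    refine le_of_mul_le_mul_right ?_ hpos
    rw [hind']
    calc _ ≤ ((1 - 1 / (4 : ℝ) ^ h) * Fintype.card (Om B J Q)) *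
        ((1 - 1 / 4 ^ h) ^ D * Fintype.card (Om B J Q)) :=
          mul_le_mul h1 ih' (by positivity) (by positivity)
      _ = _ := by rw [pow_succ]; ring

end Pool.H98.WH
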