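import Pool.Agent.H98.WH.Trunc

/-!
# [H98 WH SEL] the effect of a good restriction on the Sipser function

`toL_inj`: `List.ofFn_injective` and `Fin.val_injective`.  `restrL_pj`: the function `v ↦ ` (if v = j :: toL β: bit true: inr true; bit false and alive: inl (toL β); else inr false; otherwise inr false).
`restrL_apply`: the chosen j, β are the given ones (`toL_inj`).
`gate`: for a block β with some bit false: `Qf false n (fun b => restrL ω w (b :: toL β)) = (alive β && w (toL β))` (b < n is a `Fin n`): and-gate (q = false: value false iff some input is false):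
if the block is dead the variable with bit false is 0; if it is alive and w (toL β) = false the same; if w (toL β) = true all inputs are true.
`sel`: choose for γ, c' (`GoodOm`) an alive block c = S γ c' with c / g = c'.  π (c :: toL γ) = if c = S γ (c / g) then inl ((c / g) :: toL γ) else inr false; all other lists: inr false.
Then `Gup false (n :: n :: ns) (restrL ω (pj π w)) = Gup true (n :: ns) (y)` where y (c :: toL γ) = alive && pj π w (c :: toL γ), and `Gup true (n :: ns) y = Gup false ns (bs ↦ Qf true n (c ↦ y (c :: bs)))`,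
and for bs = toL γ: `Qf true n (c ↦ y (c :: bs)) = Qf true n' (c' ↦ w (c' :: bs))` (or-gates: if w (c' :: bs) = true, c' < n', take c = S γ c' < n; conversely c = S γ (c / g), c / g < n' as c < n = n' * g).
The function z of `Gup` is only used on lists of length s with entries < n: prove `gup_congr` first (induction on ns).
`sel_trunc`: `Gup true (n' :: replicate s n) w = Gup false (replicate s n) (bs ↦ Qf true n' (b ↦ w (b :: bs)))`; with π' from `trunc` (s, false) put `π (b :: bs) = inl (b :: bs')` if `π' bs = inl bs'`, `inr c` if `π' bs = inr c`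
(`qf_const`), then compose with `sel` (`pj_comp`).
-/

set_option autoImplicit false

namespace Pool.H98.WH

open Pool.Agent.H88.RO

/-- index lists -/
def toL {n t : ℕ} (β : Fin t → Fin n) : List ℕ := List.ofFn (fun i => (β i : ℕ))

open Classical in
/-- the restriction on lists -/
noncomputable def restrL {n t Q : ℕ} (ω : Om (Fin t → Fin n) (Fin n) Q) (w : List ℕ → Bool) :
    List ℕ → Bool := fun v =>
  if h : ∃ (j : Fin n) (β : Fin t → Fin n), v = (j : ℕ) :: toL β then
    restr ω (fun β => w (toL β)) (h.choose_spec.choose, h.choose) else false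

/-- a good restriction: no block has only ones, and in each group of `g` blocks one is alive -/
def GoodOm {n s Q : ℕ} (n' g : ℕ) (ω : Om (Fin (s + 1) → Fin n) (Fin n) Q) : Prop :=
  (∀ β, ∃ j, (ω β).2 j = false) ∧ ∀ (γ : Fin s → Fin n) (c' : ℕ), c' < n' →
    ∃ c : Fin n, (c : ℕ) / g = c' ∧ (ω (Fin.cons c γ)).1.val = 0

theorem toL_inj {n t : ℕ} {β β' : Fin t → Fin n} (h : toL β = toL β') : β = β' := by
  have h' := List.ofFn_injective h
  funext i
  exact Fin.ext (congrFun h' i)

open Classical in
theorem restrL_pj {n t Q : ℕ} (ω : Om (Fin t → Fin n) (Fin n) Q) :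
    ∃ π : List ℕ → List ℕ ⊕ Bool, ∀ w, restrL ω w = pj π w := by
  refine ⟨fun v => if h : ∃ (j : Fin n) (β : Fin t → Fin n), v = (j : ℕ) :: toL β then
    (if (ω h.choose_spec.choose).2 h.choose then .inr true else
      if (ω h.choose_spec.choose).1.val = 0 then .inl (toL h.choose_spec.choose)
      else .inr false) else .inr false, fun w => ?_⟩
  funext v
  unfold restrL
  by_cases h : ∃ (j : Fin n) (β : Fin t → Fin n), v = (j : ℕ) :: toL β
  · rw [dif_pos h]
    simp only [pj, dif_pos h, restr]
    by_cases h1 : (ω h.choose_spec.choose).2 h.choose = true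
    · simp only [h1, if_true]
    · by_cases h2 : (ω h.choose_spec.choose).1.val = 0
      · simp only [h1, h2, if_true]
        rfl
      · simp only [h1, h2, if_false]
        rfl
  · rw [dif_neg h]
    simp only [pj, dif_neg h]

theorem restrL_apply {n t Q : ℕ} (ω : Om (Fin t → Fin n) (Fin n) Q) (w : List ℕ → Bool)
    (j : Fin n) (β : Fin t → Fin n) :
    restrL ω w ((j : ℕ) :: toL β) = restr ω (fun β => w (toL β)) (β, j) := by
  have h : ∃ (j' : Fin n) (β' : Fin t → Fin n), (j : ℕ) :: toL β = (j' : ℕ) :: toL β' :=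
    ⟨j, β, rfl⟩
  unfold restrL
  rw [dif_pos h]
  have spec := h.choose_spec.choose_spec
  rw [List.cons.injEq] at spec
  have e1 : h.choose = j := Fin.ext spec.1.symm
  have e2 : h.choose_spec.choose = β := (toL_inj spec.2).symm
  rw [e2, e1]

theorem qf_congr {n : ℕ} (q : Bool) {f f' : ℕ → Bool} (h : ∀ b < n, f b = f' b) :
    Qf q n f = Qf q n f' := by
  unfold Qf
  have e : (∃ b < n, f b = q) ↔ (∃ b < n, f' b = q) := by
    constructor
    · rintro ⟨b, hb, h'⟩
      exact ⟨b, hb, by rw [← h b hb]; exact h'⟩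
    · rintro ⟨b, hb, h'⟩
      exact ⟨b, hb, by rw [h b hb]; exact h'⟩
  simp only [e]

theorem gup_congr {n : ℕ} (s : ℕ) (q : Bool) {z z' : List ℕ → Bool}
    (h : ∀ v : List ℕ, v.length = s → (∀ b ∈ v, b < n) → z v = z' v) :
    Gup q (List.replicate s n) z = Gup q (List.replicate s n) z' := by
  induction s generalizing q z z' with
  | zero => exact h [] rfl (by simp)
  | succ s ih =>
    rw [List.replicate_succ]
    simp only [Gup]
    apply ih
    intro v hv hb
    apply qf_congr
    intro b hb'
    apply h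
    · simp [hv]
    · intro x hx
      rcases List.mem_cons.mp hx with rfl | hx
      · exact hb'
      · exact hb x hx

theorem gate {n t Q : ℕ} (ω : Om (Fin t → Fin n) (Fin n) Q) (w : List ℕ → Bool)
    (β : Fin t → Fin n) (hβ : ∃ j, (ω β).2 j = false) :
    Qf false n (fun b => restrL ω w (b :: toL β)) =
      (decide ((ω β).1.val = 0) && w (toL β)) := by
  obtain ⟨j, hj⟩ := hβ
  have e : ∀ b : Fin n, restrL ω w ((b : ℕ) :: toL β) =
      if (ω β).2 b then true else if (ω β).1.val = 0 then w (toL β) else false := by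
    intro b
    rw [restrL_apply]
    rfl
  have hjn : ((j : ℕ)) < n := j.2
  unfold Qf
  by_cases h1 : (ω β).1.val = 0
  · cases h2 : w (toL β) with
    | true =>
      rw [if_neg]
      · simp [h1]
      · rintro ⟨b, hb, h'⟩
        have h3 : restrL ω w (b :: toL β) = false := h'
        rw [e ⟨b, hb⟩, h2] at h3
        simp [h1] at h3
    | false =>
      rw [if_pos]
      · simp
      · refine ⟨j, hjn, ?_⟩
        show restrL ω w ((j : ℕ) :: toL β) = false
        rw [e j, h2]
        simp [hj]
  · rw [if_pos]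
    · simp [h1]
    · refine ⟨j, hjn, ?_⟩
      show restrL ω w ((j : ℕ) :: toL β) = false
      rw [e j]
      simp [hj, h1]

theorem exists_toL {n s : ℕ} {v : List ℕ} (hv : v.length = s) (hb : ∀ b ∈ v, b < n) :
    ∃ γ : Fin s → Fin n, v = toL γ := by
  subst hv
  refine ⟨fun i => ⟨v.get i, hb _ (List.get_mem v i)⟩, ?_⟩
  simp [toL]

theorem toL_cons {n s : ℕ} (c : Fin n) (γ : Fin s → Fin n) :
    toL (Fin.cons c γ : Fin (s + 1) → Fin n) = (c : ℕ) :: toL γ := by
  simp [toL, List.ofFn_succ]

open Classical in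
theorem sel {n n' g s Q : ℕ} (_hg : 1 ≤ g) (_hn : n = n' * g)
    {ω : Om (Fin (s + 1) → Fin n) (Fin n) Q} (hω : GoodOm n' g ω) :
    ∃ π : List ℕ → List ℕ ⊕ Bool, ∀ w : List ℕ → Bool,
      Gup false (n :: n :: List.replicate s n) (restrL ω (pj π w)) =
        Gup true (n' :: List.replicate s n) w := by
  obtain ⟨h1, h2⟩ := hω
  choose S hS1 hS2 using h2
  refine ⟨fun v => match v with
    | [] => .inr false
    | c :: bs => if (∃ γ : Fin s → Fin n, bs = toL γ ∧
        ∃ hc : c / g < n', ((S γ (c / g) hc : Fin n) : ℕ) = c) then .inl (c / g :: bs)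
        else .inr false, fun w => ?_⟩
  set π : List ℕ → List ℕ ⊕ Bool := fun v => match v with
    | [] => .inr false
    | c :: bs => if (∃ γ : Fin s → Fin n, bs = toL γ ∧
        ∃ hc : c / g < n', ((S γ (c / g) hc : Fin n) : ℕ) = c) then .inl (c / g :: bs)
        else .inr false with hπ
  simp only [Gup, Bool.not_false, Bool.not_true]
  apply gup_congr
  intro v hv hb
  obtain ⟨γ, rfl⟩ := exists_toL hv hb
  have hpj : ∀ c : ℕ, pj π w (c :: toL γ) = true ↔
      (∃ hc : c / g < n', ((S γ (c / g) hc : Fin n) : ℕ) = c) ∧ w (c / g :: toL γ) = true := by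
    intro c
    by_cases hc : ∃ hc : c / g < n', ((S γ (c / g) hc : Fin n) : ℕ) = c
    · have : ∃ γ' : Fin s → Fin n, toL γ = toL γ' ∧
        ∃ hc : c / g < n', ((S γ' (c / g) hc : Fin n) : ℕ) = c := ⟨γ, rfl, hc⟩
      have e : π (c :: toL γ) = .inl (c / g :: toL γ) := by
        simp only [hπ]
        rw [if_pos this]
      simp only [pj, e, hc, true_and]
    · have : ¬ ∃ γ' : Fin s → Fin n, toL γ = toL γ' ∧
        ∃ hc : c / g < n', ((S γ' (c / g) hc : Fin n) : ℕ) = c := by
        rintro ⟨γ', e, h'⟩
        rw [← toL_inj e] at h'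
        exact hc h'
      have e : π (c :: toL γ) = .inr false := by
        simp only [hπ]
        rw [if_neg this]
      simp [pj, e, hc]
  have hgate : ∀ (c : ℕ) (hc : c < n), Qf false n (fun b => restrL ω (pj π w) (b :: c :: toL γ)) =
      (decide ((ω (Fin.cons ⟨c, hc⟩ γ)).1.val = 0) && pj π w (c :: toL γ)) := by
    intro c hc
    have := gate ω (pj π w) (Fin.cons ⟨c, hc⟩ γ) (h1 _)
    rw [toL_cons] at this
    exact this
  unfold Qf
  have key : (∃ c < n, (if ∃ b < n, restrL ω (pj π w) (b :: c :: toL γ) = false then false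
      else !false) = true) ↔ ∃ c' < n', w (c' :: toL γ) = true := by
    constructor
    · rintro ⟨c, hc, h'⟩
      have h3 := hgate c hc
      unfold Qf at h3
      rw [h3, Bool.and_eq_true, hpj] at h'
      obtain ⟨_, ⟨hc', _⟩, h4⟩ := h'
      exact ⟨c / g, hc', h4⟩
    · rintro ⟨c', hc', h'⟩
      refine ⟨S γ c' hc', (S γ c' hc').2, ?_⟩
      have h3 := hgate (S γ c' hc') (S γ c' hc').2
      unfold Qf at h3
      rw [h3, Bool.and_eq_true, hpj]
      refine ⟨by simpa using hS2 γ c' hc', ?_, ?_⟩
      · have e : ((S γ c' hc' : Fin n) : ℕ) / g = c' := hS1 γ c' hc'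
        simp only [e]
        exact ⟨hc', trivial⟩
      · have e : ((S γ c' hc' : Fin n) : ℕ) / g = c' := hS1 γ c' hc'
        rw [e]
        exact h'
  simp only [key]

/-- the combination of `sel` and `trunc` -/
theorem sel_trunc {n n' g s Q : ℕ} (hg : 1 ≤ g) (hn' : 1 ≤ n') (hn : n = n' * g)
    {ω : Om (Fin (s + 1) → Fin n) (Fin n) Q} (hω : GoodOm n' g ω) :
    ∃ π : List ℕ → List ℕ ⊕ Bool, ∀ w : List ℕ → Bool,
      Gup false (List.replicate (s + 2) n) (restrL ω (pj π w)) =
        Gup true (List.replicate (s + 1) n') w := by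
  obtain ⟨π₁, h1⟩ := sel hg hn hω
  obtain ⟨π', h'⟩ := trunc hn' (show n' ≤ n by rw [hn]; nlinarith) s false
  let π₂ : List ℕ → List ℕ ⊕ Bool := fun l => match l with
      | [] => .inr false
      | b :: bs => match π' bs with
        | .inr c => .inr c
        | .inl bs' => .inl (b :: bs')
  obtain ⟨π, hπ⟩ := pj_comp π₁ π₂
  refine ⟨π, fun w => ?_⟩
  rw [← hπ]
  have e1 : List.replicate (s + 2) n = n :: n :: List.replicate s n := rfl
  have e2 : List.replicate (s + 1) n' = n' :: List.replicate s n' := rfl
  rw [e1, e2, h1]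
  simp only [Gup, Bool.not_true]
  rw [← h']
  congr 1
  funext bs
  rcases h : π' bs with bs' | c
  · have e : pj π' (fun bs => Qf true n' (fun b => w (b :: bs))) bs =
        Qf true n' (fun b => w (b :: bs')) := by simp [pj, h]
    rw [e]
    congr 1
    funext b
    simp [pj, π₂, h]
  · have e : pj π' (fun bs => Qf true n' (fun b => w (b :: bs))) bs = c := by simp [pj, h]
    rw [e]
    refine Eq.trans ?_ (qf_const true c hn')
    congr 1
    funext b
    simp [pj, π₂, h]

end Pool.H98.WH
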