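import Pool.Agent.H98.WH.Step

/-!
# [H98 WH SIP] small formulas do not compute the Sipser function (assembly, short)

Induction on t ≥ 1, L, h, q arbitrary.
t = 1, q = true: φ z = true ↔ ∃ i, ψ i z = true, Cert h (ψ i), and Gup false [n] z = Qf false n (b ↦ z [b]), n = 2^(6 a) > L ≥ h.  At z = 1 the value is 1, some ψ i z = 1; its certificate S has card ≤ h < n: some b < n with
[b] ∉ S; put z' = z except z' [b] = false: ψ i z' = 1 so φ z' = 1, but Gup = 0.  q = false: by `fm_dual`, `gup_dual`, or in the same way.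
t = s + 2: `step` gives ψ with leaves (L+1) h ≤ (L+1) L =: L', and the induction hypothesis for s + 1, L' : `(L' + s + 17) ^ (3^(s+1)) ≤ ((L + s + 18)^3)^(3^(s+1)) ≤ a`, M ≤ L' a.
(`(L + s + 18)^3 ≤ (L+s+18)^(3^(s+2)) ≤ a`.)
-/

set_option autoImplicit false

namespace Pool.H98.WH

theorem sip_one {M h : ℕ} {q : Bool} {n : ℕ} (hn : h < n) (φ : (List ℕ → Bool) → Bool)
    (hφ : IsFm h M q 1 φ) (hG : ∀ z, φ z = Gup (!q) [n] z) : False := by
  obtain ⟨ι, _, ψ, _, hψ, hφ'⟩ := hφ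
  have e1 : ∀ z : List ℕ → Bool, (φ z = q ↔ ∃ i, ψ i z = q) := hφ'
  have e2 : ∀ z : List ℕ → Bool, Gup (!q) [n] z = Qf (!q) n (fun b => z [b]) := fun _ => rfl
  have e3 : φ (fun _ => q) = q := by
    rw [hG, e2, Qf, if_neg (by rintro ⟨b, _, hb⟩; cases q <;> simp at hb)]
    simp
  obtain ⟨i, hi⟩ := (e1 _).1 e3
  obtain ⟨S, hS, hS'⟩ := hψ i (fun _ => q)
  have : ∃ b, b < n ∧ [b] ∉ S := by
    by_contra hcon
    push Not at hcon
    have h1 : (Finset.range n).image (fun b => [b]) ⊆ S := by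
      intro v hv
      rw [Finset.mem_image] at hv
      obtain ⟨b, hb, rfl⟩ := hv
      exact hcon b (Finset.mem_range.1 hb)
    have h2 := Finset.card_le_card h1
    rw [Finset.card_image_of_injective _ (fun a b hab => by simpa using hab),
      Finset.card_range] at h2
    omega
  obtain ⟨b, hb, hbS⟩ := this
  have e4 : ψ i (fun v => if v = [b] then !q else q) = q := by
    rw [hS' _ (fun v hv => ?_), hi]
    rw [if_neg (fun hvb : v = [b] => hbS (hvb ▸ hv))]
  have e5 := (e1 _).2 ⟨i, e4⟩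
  rw [hG, e2, Qf, if_pos ⟨b, hb, by simp⟩] at e5
  cases q <;> simp at e5

theorem sipser (t : ℕ) (ht : 1 ≤ t) (a : ℕ) : ∀ (L M h : ℕ) (q : Bool), 1 ≤ L →
    (L + t + 16) ^ (3 ^ t) ≤ a → M ≤ L * a → h ≤ L →
    ∀ φ : (List ℕ → Bool) → Bool, IsFm h (2 ^ M) q t φ →
      ∃ z, φ z ≠ Gup (!q) (List.replicate t (2 ^ (6 ^ t * a))) z := by
  obtain ⟨s, rfl⟩ : ∃ s, t = s + 1 := ⟨t - 1, by omega⟩
  clear ht
  induction s with
  | zero =>
    intro L M h q hL ha hM hh φ hφ
    by_contra hcon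
    push Not at hcon
    refine sip_one (n := 2 ^ (6 ^ (0 + 1) * a)) ?_ φ hφ hcon
    have h1 : L ≤ a := by
      refine le_trans ?_ ha
      calc L ≤ L + (0 + 1) + 16 := by omega
        _ = (L + (0 + 1) + 16) ^ 1 := (pow_one _).symm
        _ ≤ (L + (0 + 1) + 16) ^ (3 ^ (0 + 1)) := Nat.pow_le_pow_right (by omega) (by norm_num)
    have h2 : 6 ^ (0 + 1) * a < 2 ^ (6 ^ (0 + 1) * a) := Nat.lt_two_pow_self
    omega
  | succ s ih =>
    intro L M h q hL ha hM hh φ hφ
    by_contra hcon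
    push Not at hcon
    have h0 : (L + s + 18) ^ 3 ≤ a := by
      refine le_trans ?_ ha
      have : L + (s + 1 + 1) + 16 = L + s + 18 := by omega
      rw [this]
      refine Nat.pow_le_pow_right (by omega) ?_
      calc 3 = 3 ^ 1 := (pow_one _).symm
        _ ≤ 3 ^ (s + 1 + 1) := Nat.pow_le_pow_right (by norm_num) (by omega)
    obtain ⟨ψ, hψ, hψG⟩ := step hL h0 hM hh q hφ hcon
    obtain ⟨z, hz⟩ := ih ((L + 1) * L) M ((L + 1) * h) (!q)
      (Nat.mul_pos (by omega) (by omega)) (by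
        refine le_trans ?_ ha
        have e1 : (L + (s + 1 + 1) + 16) ^ 3 ^ (s + 1 + 1) =
            ((L + (s + 1 + 1) + 16) ^ 3) ^ 3 ^ (s + 1) := by
          rw [← pow_mul, ← pow_succ']
        rw [e1]
        refine Nat.pow_le_pow_left ?_ _
        nlinarith [sq_nonneg (L : ℤ), Nat.zero_le (L * s), Nat.zero_le (L * L * s),
          Nat.zero_le (L * L * L), Nat.zero_le (s * s * s), Nat.zero_le (L * s * s),
          Nat.zero_le (L * L), Nat.zero_le (s * s)])
      (hM.trans (Nat.mul_le_mul_right _ (Nat.le_mul_of_pos_left _ (by omega))))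
      (Nat.mul_le_mul_left _ hh) ψ hψ
    rw [Bool.not_not] at hz
    exact hz (hψG z)

end Pool.H98.WH
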