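import Pool.Agent.H98.WH.Dep
import Pool.Agent.H98.WH.Frm

/-!
# [H98 WH WIT] queries answered yes have small witnesses

`alt_dep`: induction on s with q, ρ arbitrary: for s + 1 let ι, g be as in `blocks_index ℓ' u`, S the union of the S_i for `ρ ++ g i` (`Finset.card_biUnion_le`, `Fintype.card ι ≤ 2 ^ (ℓ' u)`).
`wit`: y = []: impossible (`orc_eq`: the value is false).  y = false :: w: `dir_dep`, S = the first components.  y = true :: v: `orc_true` for the world ζ: u, I valid, `I.Holds`, witness g ∈ blocks I.ℓ I.j of the first block;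
u ≤ U (otherwise thr u > Qb ≥ |v|, contradicting `Val`).  `alt_dep` for φ ζ ρ = I.m.ev (orc .. (patch .. ζ)) I.z ρ, ρ = g (all words of length I.ℓ), h = Nat.log 2 (Nat.log 2 Qb): `leaf_dep` with ℓ' = I.ℓ, n₁ = tl Qb
(`val_tl`, `tl_mono`: |v| ≤ Qb; size I.m.tr ≤ I.par), S = the first components of T.  If ζ' = ζ on S then `I.Holds` in the world ζ' with the same g, and `orc_code` gives the answer yes.
Card: `(2 ^ (I.ℓ u)) ^ s * h ≤ (2 ^ (log Qb * U)) ^ s * (h + 1)`.
-/

set_option autoImplicit false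

namespace Pool.H98.WH

open Pool.Agent.H88.RO Tr

open Classical in
theorem alt_dep {X : Type} {ℓ' u h : ℕ} (φ : (List (List Bool) → X) → List (List Bool) → Bool)
    (hφ : ∀ ρ : List (List Bool), (∀ w ∈ ρ, w.length ≤ ℓ') →
      ∃ S : Finset (List (List Bool)), S.card ≤ h ∧
        ∀ ζ ζ' : List (List Bool) → X, (∀ b ∈ S, ζ b = ζ' b) → φ ζ ρ = φ ζ' ρ)
    (s : ℕ) (q : Bool) (ρ : List (List Bool)) (hρ : ∀ w ∈ ρ, w.length ≤ ℓ') :
    ∃ S : Finset (List (List Bool)), S.card ≤ (2 ^ (ℓ' * u)) ^ s * h ∧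
      ∀ ζ ζ' : List (List Bool) → X, (∀ b ∈ S, ζ b = ζ' b) →
        (Alt (φ ζ) ℓ' u s q ρ ↔ Alt (φ ζ') ℓ' u s q ρ) := by
  induction s generalizing q ρ with
  | zero =>
    obtain ⟨S, hS, h'⟩ := hφ ρ hρ
    refine ⟨S, by simpa using hS, fun ζ ζ' hz => ?_⟩
    simp only [Alt]
    rw [h' ζ ζ' hz]
  | succ s ih =>
    obtain ⟨ι, hι, g, h1, h2, h3⟩ := blocks_index ℓ' u
    have hl : ∀ i, ∀ w ∈ ρ ++ g i, w.length ≤ ℓ' := by
      intro i w hw
      rcases List.mem_append.mp hw with hw | hw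
      · exact hρ w hw
      · exact ((h2 i).2 w hw).le
    choose S hS1 hS2 using fun i => ih (!q) (ρ ++ g i) (hl i)
    refine ⟨Finset.univ.biUnion S, ?_, fun ζ ζ' hz => ?_⟩
    · refine (Finset.card_biUnion_le_card_mul _ _ _ (fun i _ => hS1 i)).trans ?_
      rw [Finset.card_univ]
      calc Fintype.card ι * ((2 ^ (ℓ' * u)) ^ s * h) ≤
          2 ^ (ℓ' * u) * ((2 ^ (ℓ' * u)) ^ s * h) := Nat.mul_le_mul_right _ h1
        _ = _ := by rw [pow_succ]; ring
    · have key : ∀ i, (Alt (φ ζ) ℓ' u s (!q) (ρ ++ g i) ↔ Alt (φ ζ') ℓ' u s (!q) (ρ ++ g i)) :=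
        fun i => hS2 i ζ ζ' (fun b hb => hz b (Finset.mem_biUnion.mpr ⟨i, Finset.mem_univ _, hb⟩))
      cases q with
      | true =>
        simp only [Alt]
        constructor
        · rintro ⟨g', hg', h'⟩
          obtain ⟨i, rfl⟩ := h3 g' hg'
          exact ⟨g i, hg', (key i).mp h'⟩
        · rintro ⟨g', hg', h'⟩
          obtain ⟨i, rfl⟩ := h3 g' hg'
          exact ⟨g i, hg', (key i).mpr h'⟩
      | false =>
        simp only [Alt]
        constructor
        · intro h' g' hg'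
          obtain ⟨i, rfl⟩ := h3 g' hg'
          exact (key i).mp (h' (g i) hg')
        · intro h' g' hg'
          obtain ⟨i, rfl⟩ := h3 g' hg'
          exact (key i).mpr (h' (g i) hg')

/-- the number of blocks in a witness -/
def wnum (Qb U s : ℕ) : ℕ := (2 ^ (Nat.log 2 Qb * U)) ^ s * (Nat.log 2 (Nat.log 2 Qb) + 1)

theorem wnum_pos (Qb U s : ℕ) : 1 ≤ wnum Qb U s := by
  unfold wnum
  have h1 : 1 ≤ (2 ^ (Nat.log 2 Qb * U)) ^ s := Nat.one_le_pow _ _ (Nat.one_le_pow _ _ (by norm_num))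
  calc 1 = 1 * 1 := rfl
    _ ≤ _ := Nat.mul_le_mul h1 (by omega)

open Classical in
theorem wit {thr : ℕ → ℕ} {s : ℕ} {Z : List Bool → Bool} {k ℓ t U Qb : ℕ}
    (hthr : ∀ u, U < u → Qb < thr u) (hn : tl (tl Qb) < k + 1 + (k + t) * ℓ) (y : List Bool)
    (hy : y.length ≤ Qb) (ζ : List (List Bool) → List ℕ → Bool)
    (h : orc thr s (patch Z k ℓ t ζ) y = true) :
    ∃ S : Finset (List (List Bool)), S.card ≤ wnum Qb U s ∧
      ∀ ζ' : List (List Bool) → List ℕ → Bool, (∀ b ∈ S, ζ' b = ζ b) →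
        orc thr s (patch Z k ℓ t ζ') y = true := by
  cases y with
  | nil =>
    rw [orc_eq] at h
    exact absurd h (by simp [stepO])
  | cons c v =>
    simp only [List.length_cons] at hy
    cases c with
    | false =>
      obtain ⟨T, hT, hT2⟩ := dir_dep thr s Z k ℓ t v
      refine ⟨T.image Prod.fst, ?_, fun ζ' hz => ?_⟩
      · exact Finset.card_image_le.trans (hT.trans (wnum_pos _ _ _))
      · rw [← h]
        apply hT2
        intro p hp
        rw [hz p.1 (Finset.mem_image_of_mem _ hp)]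
    | true =>
      obtain ⟨u, I, hdec, hVal, g, hg, hAlt⟩ := orc_true thr s _ h
      have hu : u ≤ U := by
        by_contra hu
        have := hthr u (by omega)
        have := hVal.1
        omega
      obtain ⟨hv1, hv2, hv3⟩ := val_tl hVal
      have hm1 : Nat.log 2 v.length ≤ Nat.log 2 Qb := Nat.log_mono_right (by omega)
      have hm2 : Nat.log 2 (Nat.log 2 v.length) ≤ Nat.log 2 (Nat.log 2 Qb) :=
        Nat.log_mono_right hm1
      have hmt : tl v.length ≤ tl Qb := tl_mono (by omega)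
      have hpar : size I.m.tr ≤ I.par := by unfold Inst.par; omega
      obtain ⟨S, hS1, hS2⟩ := alt_dep (ℓ' := I.ℓ) (u := u) (h := size I.m.tr)
        (fun (ζ : List (List Bool) → List ℕ → Bool) ρ =>
          I.m.ev (orc thr s (patch Z k ℓ t ζ)) I.z ρ) (by
          intro ρ hρ
          obtain ⟨T, hT, hT2⟩ := leaf_dep thr s Z k ℓ t hn I.z ρ hρ I.m (hv1.trans hmt)
          refine ⟨T.image Prod.fst, Finset.card_image_le.trans hT, fun ζ ζ' hz => ?_⟩
          apply hT2
          intro p hp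
          rw [hz p.1 (Finset.mem_image_of_mem _ hp)]) s false g (fun w hw => (hg.2 w hw).le)
      refine ⟨S, ?_, fun ζ' hz => ?_⟩
      · refine hS1.trans ?_
        unfold wnum
        apply Nat.mul_le_mul
        · apply Nat.pow_le_pow_left
          apply Nat.pow_le_pow_right (by norm_num)
          exact Nat.mul_le_mul (by omega) hu
        · omega
      · rw [orc_code thr s _ hdec hVal]
        exact ⟨g, hg, (hS2 ζ' ζ hz).mpr hAlt⟩

end Pool.H98.WH
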