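import Pool.Agent.H98.WH.Sip
import Pool.Agent.H98.WH.Greedy
import Pool.Agent.H98.WH.Wit
import Pool.Agent.H98.WH.Fo
import Pool.Agent.H98.WH.NumB
import Pool.Agent.H88.RO.Machine

/-!
# [H98 WH STAGE] one stage of the diagonalisation (assembly)

`numB` with `C1 = (size (code c) + 10) * B` gives a, ℓ, E, k, L; Qb = 2 ^ E, s = t - 1, `Nat.log 2 Qb = E`, x = 1^k 0 0^(2^ℓ - k - 2): length 2^ℓ - 1, lead x = k, lgl x = ℓ (`stage_x`).
Given thr, Z.  `adversary` with B := List (List Bool), W := List ℕ → Bool, G w := Gup (not^[t-1] false) (replicate t (2^ℓ)) w, Y := {y // y.length ≤ Qb}, ans y ζ := orc thr s (patch Z k ℓ t ζ) y, m := wnum Qb U s (`wit`),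
σ := Tr, step A st := cstep (ext A) Qb st with `ext A w := if h : w.length ≤ Qb then A ⟨w, h⟩ else false`, qy st := if `(dec (fst (snd st))).length ≤ Qb` then this string, else [] (`cstep_congr`: if size st ≤ Qb then the string has length
≤ Qb: `length_dec`, `len_le_size`, `size_fst_le`, `size_snd_le`), s0 = node (code c) (node (enc x) leaf), ζ0 = fun _ _ => false (`gup_const`), K = Qb, 𝔅 of `blocks_fin` (`Qb * m < (2^ℓ)^k`).
hno: by `fo` (N = 2 ^ (E * Nat.log 2 E)) the function of w is `IsFm (Nat.log 2 E + 1) (2^M) (not^[s] true) (s+1)` with `2 ^ M = 2^E * N`, M = E (Nat.log 2 E + 1) = L * a; `sipser` with q = not^[s] true (`!q = not^[s] false`: `not_iter`)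
gives w with different values.
The two worlds: `step .. ^[Qb] s0` are equal, so the outputs `U (orc .. (patch ..)) (code c) (enc x) Qb` are equal (`U_local'`: `ext (fun y => ans y ζ)` agrees with the oracle on strings of length ≤ Qb; unfold U).
HQ is false for ζ and true for ζ' (`hq_gup`).  If both worlds had U = node leaf (bit b), b = HQ, then bit false = bit true.  So Z' = one of the two patches (`patch_off`).
-/

set_option autoImplicit false

namespace Pool.H98.WH

open Pool.Agent.H88.RO Tr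

theorem lead_rep (k : ℕ) (w : List Bool) : lead (List.replicate k true ++ false :: w) = k := by
  induction k with
  | zero => rfl
  | succ k ih => rw [List.replicate_succ, List.cons_append, lead, ih]

theorem stage_x {k ℓ : ℕ} (h : k + 2 ≤ 2 ^ ℓ) :
    ∃ x : List Bool, x.length + 1 = 2 ^ ℓ ∧ lead x = k ∧ lgl x = ℓ := by
  have h1 : (List.replicate k true ++ false :: List.replicate (2 ^ ℓ - k - 2) false).length + 1 =
      2 ^ ℓ := by
    simp only [List.length_append, List.length_replicate, List.length_cons]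
    omega
  refine ⟨List.replicate k true ++ false :: List.replicate (2 ^ ℓ - k - 2) false, h1,
    lead_rep _ _, ?_⟩
  rw [lgl, h1, Nat.log_pow (by norm_num)]

/-- extension of answers to short queries by false -/
def extY {Qb : ℕ} (A : {y : List Bool // y.length ≤ Qb} → Bool) (w : List Bool) : Bool :=
  if h : w.length ≤ Qb then A ⟨w, h⟩ else false

/-- the query of a state -/
def qyY (Qb : ℕ) (st : Tr) : {y : List Bool // y.length ≤ Qb} :=
  if h : (dec (fst (snd st))).length ≤ Qb then ⟨dec (fst (snd st)), h⟩ else ⟨[], Nat.zero_le _⟩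

theorem stepY {Qb : ℕ} (A A' : {y : List Bool // y.length ≤ Qb} → Bool) (st : Tr)
    (h : A (qyY Qb st) = A' (qyY Qb st)) :
    cstep (extY A) Qb st = cstep (extY A') Qb st := by
  refine cstep_congr st (fun hs => ?_)
  have h1 : (dec (fst (snd st))).length ≤ Qb := by
    rw [length_dec]
    have h1 := len_le_size (fst (snd st))
    have h2 := size_fst_le (snd st)
    have h3 := size_snd_le st
    omega
  rw [qyY, dif_pos h1] at h
  rw [extY, extY, dif_pos h1, dif_pos h1, h]

theorem stage {t : ℕ} (ht : 1 ≤ t) (c : Prog) (e u0 N0 B : ℕ) : ∃ (Qb : ℕ) (x : List Bool),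
    lead x = (e + 1) * (u0 * (t - 1) + 2) + 1 ∧
    N0 < lead x + 1 + (lead x + t) * lgl x ∧ lead x + 1 + (lead x + t) * lgl x ≤ Qb ∧
    (size (code c) + 10) * (B * (x.length + 1) ^ e) + 10 ≤ Qb ∧
    ∀ thr : ℕ → ℕ, (∀ u, u0 < u → Qb < thr u) → ∀ Z : List Bool → Bool,
      ∃ Z' : List Bool → Bool,
        (∀ w : List Bool, w.length ≠ lead x + 1 + (lead x + t) * lgl x → Z' w = Z w) ∧
        ∀ b : Bool, ¬ ((b = true ↔ HQ Z' t x) ∧
          U (orc thr (t - 1) Z') (code c) (enc x) Qb = node leaf (bit b)) := by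
  classical
  obtain ⟨a, ℓ, E, k, L, hℓ, hE, hk, hL, h1, h2, h3, h4, h5, h6, h7, h8⟩ :=
    numB t e u0 N0 ((size (code c) + 10) * B) ht
  obtain ⟨x, hx1, hx2, hx3⟩ := stage_x h8
  rw [hk] at hx2
  obtain ⟨s, rfl⟩ : ∃ s, t = s + 1 := ⟨t - 1, by omega⟩
  simp only [Nat.add_sub_cancel] at *
  rw [← hk] at hx2
  have hlog : Nat.log 2 (2 ^ E) = E := Nat.log_pow (by norm_num) E
  refine ⟨2 ^ E, x, by rw [hx2, hk], by rw [hx2, hx3]; exact h3, by rw [hx2, hx3]; exact h4, ?_, ?_⟩
  · rw [hx1, ← mul_assoc]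
    exact h6
  intro thr hthr Z
  rw [hx2, hx3]
  set G : (List ℕ → Bool) → Bool := fun w => Gup ((not^[s]) false) (List.replicate (s + 1) (2 ^ ℓ)) w
    with hG
  obtain ⟨𝔅, hB1, hB2⟩ := blocks_fin ℓ k
  have hG0 : G (fun _ => false) = false := by
    rw [hG]
    refine gup_const _ _ _ (fun n hn => ?_)
    rw [List.eq_of_mem_replicate hn]
    exact Nat.one_le_two_pow
  obtain ⟨ζ, ζ', b, hb, hz, hz', hst⟩ := adversary (B := List (List Bool)) (W := List ℕ → Bool)
    (Y := {y : List Bool // y.length ≤ 2 ^ E}) (σ := Tr) G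
    (fun y ζ => orc thr s (patch Z k ℓ (s + 1) ζ) y.1) (wnum (2 ^ E) u0 s)
    (fun y ζ hy => wit hthr h5 y.1 y.2 ζ hy)
    (fun A st => cstep (extY A) (2 ^ E) st) (qyY (2 ^ E)) stepY (node (code c) (node (enc x) leaf))
    (fun _ _ => false) (fun _ => hG0) (2 ^ E) 𝔅 (by rw [hB2, wnum, hlog]; exact h7) (by
      intro ζ b V hV
      have hf := fo (thr := thr) (s := s) (Z := Z) (k := k) (ℓ := ℓ) (t := s + 1) (U := u0)
        (Qb := 2 ^ E) (N := 2 ^ (E * Nat.log 2 E)) (K := 2 ^ E) hthr h5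
        (by rw [hlog]; exact Nat.pow_le_pow_right (by norm_num) (Nat.mul_le_mul_left E h2))
        (by rw [hlog]) ζ b V hV Nat.one_le_two_pow
      rw [hlog, ← pow_add] at hf
      have hM : E + E * Nat.log 2 E = L * a := by
        rw [hL, hE, hℓ]
        ring
      rw [hM] at hf
      obtain ⟨w, hw⟩ := sipser (s + 1) (by omega) a L (L * a) (Nat.log 2 E + 1) ((not^[s]) true)
        (by rw [hL]; exact Nat.mul_pos (by positivity) (by omega)) h1 le_rfl
        (by rw [hL]; exact Nat.le_mul_of_pos_left _ (by positivity)) _ hf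
      refine ⟨w, ?_⟩
      have hn : (!((not^[s]) true)) = (not^[s]) false := by
        rw [← not_iter]
        rfl
      rw [hn, ← hℓ] at hw
      exact hw)
  have hU : U (orc thr s (patch Z k ℓ (s + 1) ζ)) (code c) (enc x) (2 ^ E) =
      U (orc thr s (patch Z k ℓ (s + 1) ζ')) (code c) (enc x) (2 ^ E) := by
    have key : ∀ ζ : List (List Bool) → List ℕ → Bool,
        U (orc thr s (patch Z k ℓ (s + 1) ζ)) (code c) (enc x) (2 ^ E) =
        U (extY (fun y : {y : List Bool // y.length ≤ 2 ^ E} =>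
          orc thr s (patch Z k ℓ (s + 1) ζ) y.1)) (code c) (enc x) (2 ^ E) := by
      intro ζ
      refine U_local' _ _ _ (fun q hq => ?_)
      rw [extY, dif_pos hq]
    rw [key, key]
    unfold U
    rw [hst]
  have hQ0 : ¬ HQ (patch Z k ℓ (s + 1) ζ) (s + 1) x := by
    rw [hq_gup (by omega) hx2 hx3]
    rintro ⟨a', _, ha'⟩
    have h9 : false = true := (hz a').symm.trans ha'
    exact absurd h9 (by simp)
  have hQ1 : HQ (patch Z k ℓ (s + 1) ζ') (s + 1) x := by
    rw [hq_gup (by omega) hx2 hx3]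
    exact ⟨b, hB1 b hb, hz'⟩
  by_cases hc : U (orc thr s (patch Z k ℓ (s + 1) ζ)) (code c) (enc x) (2 ^ E) =
      node leaf (bit false)
  · refine ⟨patch Z k ℓ (s + 1) ζ', fun w hw => patch_off hw, fun b hb => ?_⟩
    obtain ⟨hb1, hb2⟩ := hb
    have hbt : b = true := hb1.2 hQ1
    rw [← hU, hc, hbt] at hb2
    exact absurd hb2 (by simp [bit])
  · refine ⟨patch Z k ℓ (s + 1) ζ, fun w hw => patch_off hw, fun b hb => ?_⟩
    obtain ⟨hb1, hb2⟩ := hb
    have hbt : b = false := by
      by_contra hne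
      exact hQ0 (hb1.1 (by simpa using hne))
    rw [hbt] at hb2
    exact hc hb2

end Pool.H98.WH
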