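import Pool.Agent.H98.WH.SwF
import Pool.Agent.H98.WH.Good
import Pool.Agent.H98.WH.NumA
import Pool.Agent.H98.WH.Dual

/-!
# [H98 WH STEP] one step of the reduction (assembly, short)

With e = 6^(s+1) a, n = 2^(6e) = 2^(6^(s+2) a), n' = 2^e, g = 2^(5e), Q = 2^(3e), r = L + 1, D of `numA`: `switch_fm` (i = s + 1, t = s + 1) and `good_card`: the sum of the two bad sets is smaller than card Ω, so
there is ω with `IsFm ((L+1) h) (2^M) false (s+1) (φ ∘ restrL ω)` and `GoodOm n' g ω`; π of `sel_trunc`; `fm_pj`.  The claim of `step`: if φ = Gup false (replicate (s+2) n) then the new formula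
computes `Gup true (replicate (s+1) n')`.
`step_dual`: the same with all types exchanged, by `fm_dual`, `gup_dual` (φ ↦ (z ↦ !φ(¬z)), and the resulting ψ ↦ (z ↦ !ψ(¬z))).
-/

set_option autoImplicit false

namespace Pool.H98.WH

theorem step_or {s a L M h : ℕ} (hL : 1 ≤ L) (ha : (L + s + 18) ^ 3 ≤ a) (hM : M ≤ L * a)
    (hh : h ≤ L) {φ : (List ℕ → Bool) → Bool} (hφ : IsFm h (2 ^ M) true (s + 2) φ)
    (hG : ∀ z, φ z = Gup false (List.replicate (s + 2) (2 ^ (6 ^ (s + 2) * a))) z) :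
    ∃ ψ : (List ℕ → Bool) → Bool, IsFm ((L + 1) * h) (2 ^ M) false (s + 1) ψ ∧
      ∀ w, ψ w = Gup true (List.replicate (s + 1) (2 ^ (6 ^ (s + 1) * a))) w := by
  classical
  obtain ⟨D, hD, hnum⟩ := numA (s := s) hL ha hM hh
  have ha1 : 1 ≤ a := le_trans (Nat.one_le_pow _ _ (by omega)) ha
  set e := 6 ^ (s + 1) * a with he
  have he1 : 1 ≤ e := Nat.mul_pos (by positivity) ha1
  have hn : 2 ^ (6 ^ (s + 2) * a) = 2 ^ (6 * e) := by
    congr 1
    rw [he]
    ring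
  rw [hn] at hG
  have hQ : 2 ≤ 2 ^ (3 * e) := by
    calc 2 = 2 ^ 1 := rfl
      _ ≤ 2 ^ (3 * e) := Nat.pow_le_pow_right (by norm_num) (by omega)
  have hsplit : 2 ^ (6 * e) = 2 ^ e * 2 ^ (5 * e) := by
    rw [← pow_add]
    congr 1
    ring
  have b1 := switch_fm (n := 2 ^ (6 * e)) (t := s + 1) (Q := 2 ^ (3 * e)) (r := L + 1) (D := D)
    (h := h) (N := 2 ^ M) hQ (by omega) hD (s + 1) φ hφ
  have b2 := good_card (n := 2 ^ (6 * e)) (n' := 2 ^ e) (g := 2 ^ (5 * e)) (s := s)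
    (Q := 2 ^ (3 * e)) (by omega) Nat.one_le_two_pow hsplit
  have hcard : (0 : ℝ) < Fintype.card (Om (Fin (s + 1) → Fin (2 ^ (6 * e))) (Fin (2 ^ (6 * e)))
      (2 ^ (3 * e))) := by
    have : 0 < 2 ^ (3 * e) := by positivity
    have : Nonempty (Fin (2 ^ (3 * e))) := ⟨⟨0, this⟩⟩
    exact_mod_cast Fintype.card_pos
  have hex : ∃ ω : Om (Fin (s + 1) → Fin (2 ^ (6 * e))) (Fin (2 ^ (6 * e))) (2 ^ (3 * e)),
      IsFm ((L + 1) * h) (2 ^ M) false (s + 1) (fun w => φ (restrL ω w)) ∧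
        GoodOm (2 ^ e) (2 ^ (5 * e)) ω := by
    by_contra hcon
    push Not at hcon
    have hcov : (Finset.univ : Finset (Om (Fin (s + 1) → Fin (2 ^ (6 * e))) (Fin (2 ^ (6 * e)))
        (2 ^ (3 * e)))) ⊆
        (Finset.univ.filter (fun ω => ¬ IsFm ((L + 1) * h) (2 ^ M) false (s + 1)
          (fun w => φ (restrL ω w)))) ∪
        (Finset.univ.filter (fun ω => ¬ GoodOm (2 ^ e) (2 ^ (5 * e)) ω)) := by
      intro ω _
      rw [Finset.mem_union, Finset.mem_filter, Finset.mem_filter]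
      by_cases h1 : IsFm ((L + 1) * h) (2 ^ M) false (s + 1) (fun w => φ (restrL ω w))
      · exact Or.inr ⟨Finset.mem_univ _, hcon ω h1⟩
      · exact Or.inl ⟨Finset.mem_univ _, h1⟩
    have h1 := (Finset.card_le_card hcov).trans (Finset.card_union_le _ _)
    rw [Finset.card_univ] at h1
    have h2 := (Nat.cast_le (α := ℝ)).2 h1
    rw [Nat.cast_add] at h2
    have h3 := h2.trans (add_le_add b1 b2)
    rw [← add_mul] at h3
    have h4 := mul_lt_mul_of_pos_right hnum hcard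
    rw [one_mul] at h4
    exact absurd h3 (not_le.2 h4)
  obtain ⟨ω, hω1, hω2⟩ := hex
  obtain ⟨π, hπ⟩ := sel_trunc Nat.one_le_two_pow Nat.one_le_two_pow hsplit hω2
  refine ⟨fun w => φ (restrL ω (pj π w)), fm_pj (s + 1) hω1 π, fun w => ?_⟩
  show φ (restrL ω (pj π w)) = _
  rw [hG, hπ]

/-- the step for both types of bottom gates -/
theorem step {s a L M h : ℕ} (hL : 1 ≤ L) (ha : (L + s + 18) ^ 3 ≤ a) (hM : M ≤ L * a)
    (hh : h ≤ L) (q : Bool) {φ : (List ℕ → Bool) → Bool} (hφ : IsFm h (2 ^ M) q (s + 2) φ)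
    (hG : ∀ z, φ z = Gup (!q) (List.replicate (s + 2) (2 ^ (6 ^ (s + 2) * a))) z) :
    ∃ ψ : (List ℕ → Bool) → Bool, IsFm ((L + 1) * h) (2 ^ M) (!q) (s + 1) ψ ∧
      ∀ w, ψ w = Gup q (List.replicate (s + 1) (2 ^ (6 ^ (s + 1) * a))) w := by
  cases q with
  | true => exact step_or hL ha hM hh hφ hG
  | false =>
    have h1 := fm_dual (s + 2) hφ
    obtain ⟨ψ, hψ, hψG⟩ := step_or hL ha hM hh (φ := fun z => !φ (fun v => !z v)) h1 (fun z => by
      rw [hG, gup_dual, Bool.not_not]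
      )
    refine ⟨fun z => !ψ (fun v => !z v), fm_dual (s + 1) hψ, fun w => ?_⟩
    have h2 := gup_dual (List.replicate (s + 1) (2 ^ (6 ^ (s + 1) * a))) false w
    show (!ψ (fun v => !w v)) = _
    rw [hψG, ← Bool.not_false, h2, Bool.not_not]

end Pool.H98.WH
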