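import Pool.Agent.H98.WH.Swi
import Pool.Agent.H98.WH.Sel

/-!
# [H98 WH SWF] the switching lemma for formulas

Induction on i.  i = 0: φ z = true iff some ψ a z = true, each ψ a has certificates of size ≤ h (both types).  With `ext x : List ℕ → Bool` := fun v => if v = j :: toL β then x (β, j) else false, F x = φ (ext x) satisfies
`Cert1 h F`: the certificate S of ψ a at `ext z`, only its variables of the form j :: toL β (as pairs (β, j)) are kept (the others are false in every `ext x`).  `restrL ω w = ext (restr ω (fun β => w (toL β)))`.  `switch`; if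
`Cert (r h) (w' ↦ F (restr ω w'))` then `Cert (r h) (w ↦ φ (restrL ω w))` by `cert_pull` (g = toL).
i + 1: φ z = T ↔ ∃ a, ψ a z = T with T = not^[i+1] true, ψ a : IsFm h N true (i + 1).  If all `ψ a ∘ restrL ω` are `IsFm (r h) N false i` then `φ ∘ restrL ω` is `IsFm (r h) N false (i + 1)` (T = not^[i] false); union bound over
the a (card ι ≤ N).
-/

set_option autoImplicit false

namespace Pool.H98.WH

open Finset

theorem eps_nonneg (h r D Q : ℕ) : 0 ≤ eps h r D Q := by
  unfold eps
  have hc : (0 : ℝ) ≤ 1 - 1 / 4 ^ h := by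
    have : (1 : ℝ) / 4 ^ h ≤ 1 := by
      rw [div_le_one (by positivity)]
      exact one_le_pow₀ (by norm_num)
    linarith
  positivity

open Classical in
/-- extension by zero -/
noncomputable def extL {n t : ℕ} (x : (Fin t → Fin n) × Fin n → Bool) : List ℕ → Bool := fun v =>
  if h : ∃ (j : Fin n) (β : Fin t → Fin n), v = (j : ℕ) :: toL β then
    x (h.choose_spec.choose, h.choose) else false

theorem restrL_ext {n t Q : ℕ} (ω : Om (Fin t → Fin n) (Fin n) Q) (w : List ℕ → Bool) :
    restrL ω w = extL (restr ω (fun β => w (toL β))) := rfl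

theorem extL_apply {n t : ℕ} (x : (Fin t → Fin n) × Fin n → Bool) (j : Fin n)
    (β : Fin t → Fin n) : extL x ((j : ℕ) :: toL β) = x (β, j) := by
  have h : ∃ (j' : Fin n) (β' : Fin t → Fin n), (j : ℕ) :: toL β = (j' : ℕ) :: toL β' :=
    ⟨j, β, rfl⟩
  unfold extL
  rw [dif_pos h]
  have spec := h.choose_spec.choose_spec
  rw [List.cons.injEq] at spec
  have e1 : h.choose = j := Fin.ext spec.1.symm
  have e2 : h.choose_spec.choose = β := (toL_inj spec.2).symm
  rw [e2, e1]

open Classical in
theorem cert1_ext {n t h : ℕ} {ι : Type} {ψ : ι → (List ℕ → Bool) → Bool}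
    {φ : (List ℕ → Bool) → Bool} (h1 : ∀ a, Cert h (ψ a))
    (h2 : ∀ z, (φ z = true ↔ ∃ a, ψ a z = true)) :
    Cert1 h (fun x : (Fin t → Fin n) × Fin n → Bool => φ (extL x)) := by
  intro x hx
  obtain ⟨a, ha⟩ := (h2 _).mp hx
  obtain ⟨S, hS, h3⟩ := h1 a (extL x)
  refine ⟨univ.filter (fun p : (Fin t → Fin n) × Fin n => (p.2 : ℕ) :: toL p.1 ∈ S), ?_, ?_⟩
  · refine le_trans (card_le_card_of_injOn (fun p => (p.2 : ℕ) :: toL p.1) ?_ ?_) hS
    · intro p hp
      simpa using hp
    · intro p _ p' _ hpp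
      simp only [List.cons.injEq] at hpp
      exact Prod.ext (toL_inj hpp.2) (Fin.ext hpp.1)
  · intro x' hx'
    apply (h2 _).mpr
    refine ⟨a, ?_⟩
    rw [h3 (extL x')]
    · exact ha
    · intro v hv
      by_cases hex : ∃ (j : Fin n) (β : Fin t → Fin n), v = (j : ℕ) :: toL β
      · obtain ⟨j, β, rfl⟩ := hex
        rw [extL_apply, extL_apply]
        apply hx'
        simp [hv]
      · unfold extL
        rw [dif_neg hex, dif_neg hex]

open Classical in
theorem switch_fm {n t Q r D h N : ℕ} (hQ : 2 ≤ Q) (hr : 1 ≤ r) (hD : 1 ≤ D) (i : ℕ)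
    (φ : (List ℕ → Bool) → Bool) (hφ : IsFm h N true (i + 1) φ) :
    ((univ.filter (fun ω : Om (Fin t → Fin n) (Fin n) Q =>
      ¬ IsFm (r * h) N false i (fun w => φ (restrL ω w)))).card : ℝ) ≤
      (N : ℝ) ^ i * eps h r D Q * Fintype.card (Om (Fin t → Fin n) (Fin n) Q) := by
  induction i generalizing φ with
  | zero =>
    obtain ⟨ι, _, ψ, _, h2, h3⟩ := hφ
    have hF : Cert1 h (fun x : (Fin t → Fin n) × Fin n → Bool => φ (extL x)) :=
      cert1_ext h2 (fun z => h3 z)
    have hs := switch hQ hr hD _ hF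
    rw [pow_zero, one_mul]
    refine le_trans ?_ hs
    have hsub : (univ.filter (fun ω : Om (Fin t → Fin n) (Fin n) Q =>
      ¬ IsFm (r * h) N false 0 (fun w => φ (restrL ω w)))) ⊆
      (univ.filter (fun ω : Om (Fin t → Fin n) (Fin n) Q =>
      ¬ Cert (r * h) (fun w => φ (extL (restr ω w))))) := by
      intro ω hω
      simp only [mem_filter, mem_univ, true_and] at hω ⊢
      intro hc
      apply hω
      have := cert_pull hc (toL (n := n) (t := t))
      exact this
    exact_mod_cast card_le_card hsub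
  | succ i ih =>
    obtain ⟨ι, hι, ψ, h1, h2, h3⟩ := hφ
    have hsub : (univ.filter (fun ω : Om (Fin t → Fin n) (Fin n) Q =>
      ¬ IsFm (r * h) N false (i + 1) (fun w => φ (restrL ω w)))) ⊆
      (univ : Finset ι).biUnion (fun a => univ.filter (fun ω : Om (Fin t → Fin n) (Fin n) Q =>
      ¬ IsFm (r * h) N false i (fun w => ψ a (restrL ω w)))) := by
      intro ω hω
      simp only [mem_filter, mem_univ, true_and] at hω
      rw [mem_biUnion]
      by_contra hn
      apply hω
      have hall : ∀ a, IsFm (r * h) N false i (fun w => ψ a (restrL ω w)) := by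
        intro a
        by_contra ha
        exact hn ⟨a, mem_univ _, by simpa using ha⟩
      exact ⟨ι, hι, fun a w => ψ a (restrL ω w), h1, hall, fun w => h3 (restrL ω w)⟩
    have hb : ((univ.filter (fun ω : Om (Fin t → Fin n) (Fin n) Q =>
      ¬ IsFm (r * h) N false (i + 1) (fun w => φ (restrL ω w)))).card : ℝ) ≤
      ∑ a : ι, ((univ.filter (fun ω : Om (Fin t → Fin n) (Fin n) Q =>
      ¬ IsFm (r * h) N false i (fun w => ψ a (restrL ω w)))).card : ℝ) := by
      exact_mod_cast (card_le_card hsub).trans card_biUnion_le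
    refine hb.trans ((sum_le_sum (fun a _ => ih (ψ a) (h2 a))).trans ?_)
    rw [sum_const, card_univ, nsmul_eq_mul]
    have hN : (Fintype.card ι : ℝ) ≤ N := by exact_mod_cast h1
    have he := eps_nonneg h r D Q
    calc (Fintype.card ι : ℝ) * ((N : ℝ) ^ i * eps h r D Q *
        Fintype.card (Om (Fin t → Fin n) (Fin n) Q))
        ≤ (N : ℝ) * ((N : ℝ) ^ i * eps h r D Q *
        Fintype.card (Om (Fin t → Fin n) (Fin n) Q)) :=
          mul_le_mul_of_nonneg_right hN (by positivity)
      _ = _ := by rw [pow_succ]; ring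

end Pool.H98.WH
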