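import Pool.Agent.H98.WH.SwiA

/-!
# [H98 WH SWI] the weak switching lemma (assembly)

Induction on h with the base `4 ^ k` fixed: for `h ≤ k` and `δ = (1 - 1/4^k)^D + (k D / Q)^r` the bad ω (`¬ Cert (r h)`) are at most `h 2^(r h) δ card Ω`.
h = 0: a 1-certificate of size 0 makes F constant, so `Cert 0`.
h + 1 (`h + 1 ≤ k`): `fam F (h+1) D`.
First case: if some term is satisfied (`Sat ω (S i) (z i)`) then F (restr ω w) = 1 for all w, `Cert 0`; so bad ω are in the event of `sat_fam` with `h := k` (card ≤ h + 1 ≤ k): at most `(1-1/4^k)^D card Ω`.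
Second case: H.  Bad ω are (by `fix_cert` with m = r h) in the union of (1) `r ≤` number of alive blocks in H: `live_le`, `H.card ≤ (h+1) D ≤ k D`; (2) the event of `fix_bound` with m = r h, c = h 2^(r h) δ (`cert1_fix` and the induction hypothesis).
Total: `δ + 2^r h 2^(r h) δ ≤ (h+1) 2^(r (h+1)) δ`.
-/

set_option autoImplicit false

namespace Pool.H98.WH

open Finset

/-- the failure probability -/
noncomputable def eps (h r D Q : ℕ) : ℝ :=
  h * 2 ^ (r * h) * ((1 - 1 / 4 ^ h) ^ D + ((h : ℝ) * D / Q) ^ r)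

variable {B J : Type} [Fintype B] [DecidableEq B] [Fintype J] [DecidableEq J]

open Classical in
theorem switch_aux {Q r D k : ℕ} (hQ : 2 ≤ Q) (h : ℕ) : h ≤ k →
    ∀ (F : (B × J → Bool) → Bool), Cert1 h F →
    ((univ.filter (fun ω : Om B J Q => ¬ Cert (r * h) (fun w => F (restr ω w)))).card : ℝ) ≤
      h * 2 ^ (r * h) * ((1 - 1 / 4 ^ k) ^ D + ((k : ℝ) * D / Q) ^ r) *
        Fintype.card (Om B J Q) := by
  have hc : (0 : ℝ) ≤ 1 - 1 / 4 ^ k := by
    have : (1 : ℝ) / 4 ^ k ≤ 1 := by
      rw [div_le_one (by positivity)]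
      exact one_le_pow₀ (by norm_num)
    linarith
  have hd1 : (0 : ℝ) ≤ (1 - 1 / 4 ^ k) ^ D := by positivity
  have hd2 : (0 : ℝ) ≤ ((k : ℝ) * D / Q) ^ r := by positivity
  induction h with
  | zero =>
    intro _ F hF
    have e : (univ.filter (fun ω : Om B J Q =>
        ¬ Cert (r * 0) (fun w => F (restr ω w)))) = ∅ := by
      rw [filter_eq_empty_iff]
      intro ω _ hn
      apply hn
      intro w
      refine ⟨∅, by simp, fun z' _ => ?_⟩
      by_cases hex : ∃ z, F z = true
      · obtain ⟨z, hz⟩ := hex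
        obtain ⟨S, hS, h1⟩ := hF z hz
        have hS0 : S = ∅ := card_eq_zero.mp (by omega)
        subst hS0
        have h2 : ∀ z', F z' = true := fun z' => h1 z' (by simp)
        simp only [h2]
      · push Not at hex
        have h2 : ∀ z', F z' = false := fun z' => by simpa using hex z'
        simp only [h2]
    rw [e]
    simp
  | succ h ih =>
    intro hk F hF
    have hδ : (0 : ℝ) ≤ (1 - 1 / 4 ^ k) ^ D + ((k : ℝ) * D / Q) ^ r := by positivity
    set δ : ℝ := (1 - 1 / 4 ^ k) ^ D + ((k : ℝ) * D / Q) ^ r with hδd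
    set C : ℝ := (Fintype.card (Om B J Q) : ℝ) with hC
    have hC0 : 0 ≤ C := by positivity
    have hone : (1 : ℝ) ≤ ((h + 1 : ℕ) : ℝ) * 2 ^ (r * (h + 1)) := by
      have h1 : (1 : ℝ) ≤ ((h + 1 : ℕ) : ℝ) := by push_cast; linarith [Nat.cast_nonneg (α := ℝ) h]
      have h2 : (1 : ℝ) ≤ 2 ^ (r * (h + 1)) := one_le_pow₀ (by norm_num)
      nlinarith
    rcases fam F (h + 1) D with ⟨S, z, h1, h2⟩ | ⟨H, hH, hhit⟩
    · have hsub : (univ.filter (fun ω : Om B J Q =>
          ¬ Cert (r * (h + 1)) (fun w => F (restr ω w)))) ⊆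
          (univ.filter (fun ω : Om B J Q => ∀ i, ¬ Sat ω (S i) (z i))) := by
        intro ω hω
        simp only [mem_filter, mem_univ, true_and] at hω ⊢
        intro i hsat
        apply hω
        intro w
        refine ⟨∅, by simp, fun z' _ => ?_⟩
        have h3 : ∀ w, F (restr ω w) = true := fun w => (h1 i).2 _ (fun v hv => hsat v hv w)
        simp only [h3]
      have h3 := sat_fam (Q := Q) (h := k) hQ D S z (fun i => (h1 i).1.trans hk) h2
      have h4 : ((univ.filter (fun ω : Om B J Q =>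
          ¬ Cert (r * (h + 1)) (fun w => F (restr ω w)))).card : ℝ) ≤
          (1 - 1 / 4 ^ k) ^ D * C := le_trans (by exact_mod_cast card_le_card hsub) h3
      refine h4.trans ?_
      have h5 : (1 - 1 / 4 ^ k) ^ D ≤ δ := by linarith
      have h6 : δ ≤ ((h + 1 : ℕ) : ℝ) * 2 ^ (r * (h + 1)) * δ := by nlinarith
      exact mul_le_mul_of_nonneg_right (h5.trans h6) hC0
    · have hfix : ∀ y : B × J → Bool,
          ((univ.filter (fun ω : Om B J Q =>
            ¬ Cert (r * h) (fun w => fixF F H y (restr ω w)))).card : ℝ) ≤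
          (h * 2 ^ (r * h) * δ) * C := fun y => ih (by omega) _ (cert1_fix hF hhit y)
      have hb := fix_bound (r := r) (m := r * h) (by omega : 1 ≤ Q) F H (h * 2 ^ (r * h) * δ)
        (by positivity) hfix
      have hl := live_le (J := J) (by omega : 1 ≤ Q) H r
      have hsub : (univ.filter (fun ω : Om B J Q =>
          ¬ Cert (r * (h + 1)) (fun w => F (restr ω w)))) ⊆
          (univ.filter (fun ω : Om B J Q =>
            r ≤ (H.filter (fun b => (ω b).1.val = 0)).card)) ∪
          (univ.filter (fun ω : Om B J Q => (H.filter (fun b => (ω b).1.val = 0)).card < r ∧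
            ∃ w : B → Bool, ¬ Cert (r * h) (fun w' => fixF F H (restr ω w) (restr ω w')))) := by
        intro ω hω
        simp only [mem_filter, mem_univ, true_and] at hω
        rw [mem_union]
        simp only [mem_filter, mem_univ, true_and]
        by_contra hn
        push Not at hn
        obtain ⟨hn1, hn2⟩ := hn
        apply hω
        have := fix_cert F H ω hn1 (hn2 hn1)
        rw [mul_add, mul_one, add_comm]
        exact this
      have h4 : ((univ.filter (fun ω : Om B J Q =>
          ¬ Cert (r * (h + 1)) (fun w => F (restr ω w)))).card : ℝ) ≤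
          ((H.card : ℝ) / Q) ^ r * C + 2 ^ r * (h * 2 ^ (r * h) * δ) * C := by
        refine le_trans ?_ (add_le_add hl hb)
        exact_mod_cast (card_le_card hsub).trans (card_union_le _ _)
      refine h4.trans ?_
      have hHk : (H.card : ℝ) ≤ (k : ℝ) * D := by
        have : H.card ≤ k * D := hH.trans (Nat.mul_le_mul_right _ hk)
        exact_mod_cast this
      have h5 : ((H.card : ℝ) / Q) ^ r ≤ ((k : ℝ) * D / Q) ^ r := by
        apply pow_le_pow_left₀ (by positivity)
        exact div_le_div_of_nonneg_right hHk (by positivity)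
      have h6 : ((H.card : ℝ) / Q) ^ r ≤ 2 ^ (r * (h + 1)) * δ := by
        have h7 : (1 : ℝ) ≤ 2 ^ (r * (h + 1)) := one_le_pow₀ (by norm_num)
        have h8 : ((H.card : ℝ) / Q) ^ r ≤ δ := by linarith
        nlinarith
      have h9 : (2 : ℝ) ^ r * (h * 2 ^ (r * h) * δ) = h * (2 ^ (r * (h + 1)) * δ) := by
        have e7 : r * (h + 1) = r * h + r := by ring
        rw [e7, pow_add]
        ring
      have h10 : ((H.card : ℝ) / Q) ^ r + 2 ^ r * (h * 2 ^ (r * h) * δ) ≤
          ((h + 1 : ℕ) : ℝ) * 2 ^ (r * (h + 1)) * δ := by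
        rw [h9]
        push_cast
        linarith
      calc ((H.card : ℝ) / Q) ^ r * C + 2 ^ r * (h * 2 ^ (r * h) * δ) * C =
          (((H.card : ℝ) / Q) ^ r + 2 ^ r * (h * 2 ^ (r * h) * δ)) * C := by ring
        _ ≤ _ := mul_le_mul_of_nonneg_right h10 hC0

open Classical in
theorem switch {Q r D h : ℕ} (hQ : 2 ≤ Q) (_hr : 1 ≤ r) (_hD : 1 ≤ D) (F : (B × J → Bool) → Bool)
    (hF : Cert1 h F) :
    ((univ.filter (fun ω : Om B J Q => ¬ Cert (r * h) (fun w => F (restr ω w)))).card : ℝ) ≤
      eps h r D Q * Fintype.card (Om B J Q) := by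
  unfold eps
  exact switch_aux (r := r) (D := D) hQ h le_rfl F hF

end Pool.H98.WH
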