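import Pool.Agent.H98.WH.Sat
import Pool.Agent.H98.WH.Live
import Pool.Agent.H98.WH.Fam

/-!
# [H98 WH SWIA] fixing the blocks of a small set

`fix_cert`: for w: y = restr ω w.  F (restr ω w') = fixF F H y (restr ω w') if w' = w on the alive blocks of H (then restr ω w' v = restr ω w v = y v for v with v.1 ∈ H: dead blocks do not depend on w); so S = the certificate (card ≤ m) of
`w' ↦ fixF F H y (restr ω w')` at w together with the alive blocks of H (card < r) is a certificate: for w' = w on S: F (restr ω w') = fixF .. (restr ω w') = fixF .. (restr ω w) = F (restr ω w).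
`fix_bound`: P y ω := ¬ Cert m (fun w => fixF F H y (restr ω w)) depends on ω only outside H (fixF ignores the variables in H), and y only matters on the variables v with v.1 ∈ H.  The event E: with ω = glue H ω₁ ω₂: the function
restr ω w on the variables of H depends on ω₁ and on the values of w on the < r alive blocks of H of ω₁: at most 2^r possibilities, the set Y(ω₁) = image of the functions from the alive blocks of H to Bool (if there are at least r alive blocks, Y(ω₁) = ∅).
By `glue_sum` with f = indicator of E: `card Ω * card E = ∑_{ω₁} ∑_{ω₂} 1[glue H ω₁ ω₂ ∈ E] ≤ ∑_{ω₁} ∑_{y ∈ Y(ω₁)} card {ω₂ | P y ω₂} ≤ card Ω * 2^r * (c card Ω)`.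
-/

set_option autoImplicit false

namespace Pool.H98.WH

open Finset

variable {B J : Type} [Fintype B] [DecidableEq B] [Fintype J] [DecidableEq J]

omit [Fintype B] [DecidableEq B] [Fintype J] [DecidableEq J] in
theorem restr_congr {Q : ℕ} {ω ω' : Om B J Q} {w w' : B → Bool} {v : B × J}
    (h : ω v.1 = ω' v.1) (h2 : (ω v.1).1.val = 0 → w v.1 = w' v.1) :
    restr ω w v = restr ω' w' v := by
  unfold restr
  rw [← h]
  by_cases h3 : (ω v.1).1.val = 0
  · rw [h2 h3]
  · simp only [h3, if_false]

omit [Fintype B] [Fintype J] [DecidableEq J] in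
open Classical in
theorem fix_cert {Q r m : ℕ} (F : (B × J → Bool) → Bool) (H : Finset B) (ω : Om B J Q)
    (h1 : (H.filter (fun b => (ω b).1.val = 0)).card < r)
    (h2 : ∀ w : B → Bool, Cert m (fun w' => fixF F H (restr ω w) (restr ω w'))) :
    Cert (r + m) (fun w => F (restr ω w)) := by
  intro w
  obtain ⟨S, hS, h3⟩ := h2 w w
  refine ⟨H.filter (fun b => (ω b).1.val = 0) ∪ S, ?_, ?_⟩
  · refine (card_union_le _ _).trans ?_
    omega
  · intro z' hz'
    have h4 := h3 z' (fun v hv => hz' v (mem_union_right _ hv))
    have e : ∀ z : B → Bool, (∀ b ∈ H, (ω b).1.val = 0 → w b = z b) →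
        fixF F H (restr ω w) (restr ω z) = F (restr ω z) := by
      intro z hz
      unfold fixF
      congr 1
      funext v
      by_cases hv : v.1 ∈ H
      · rw [if_pos hv]
        exact restr_congr rfl (hz v.1 hv)
      · rw [if_neg hv]
    have e1 := e z' (fun b hb hb0 => (hz' b (mem_union_left _ (mem_filter.mpr ⟨hb, hb0⟩))).symm)
    have e2 := e w (fun b _ _ => rfl)
    simp only at h4
    rw [e1, e2] at h4
    exact h4

omit [Fintype B] [Fintype J] [DecidableEq J] in
theorem fixF_congr {F : (B × J → Bool) → Bool} {H : Finset B} {y y' x x' : B × J → Bool}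
    (h1 : ∀ v : B × J, v.1 ∈ H → y v = y' v) (h2 : ∀ v : B × J, v.1 ∉ H → x v = x' v) :
    fixF F H y x = fixF F H y' x' := by
  unfold fixF
  congr 1
  funext v
  by_cases hv : v.1 ∈ H
  · rw [if_pos hv, if_pos hv, h1 v hv]
  · rw [if_neg hv, if_neg hv, h2 v hv]

open Classical in
theorem fix_bound {Q r m : ℕ} (hQ : 1 ≤ Q) (F : (B × J → Bool) → Bool) (H : Finset B) (c : ℝ)
    (hc : 0 ≤ c) (h : ∀ y : B × J → Bool,
      ((univ.filter (fun ω : Om B J Q => ¬ Cert m (fun w => fixF F H y (restr ω w)))).card : ℝ) ≤
        c * Fintype.card (Om B J Q)) :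
    ((univ.filter (fun ω : Om B J Q => (H.filter (fun b => (ω b).1.val = 0)).card < r ∧
      ∃ w : B → Bool, ¬ Cert m (fun w' => fixF F H (restr ω w) (restr ω w')))).card : ℝ) ≤
        2 ^ r * c * Fintype.card (Om B J Q) := by
  have hne : Nonempty (Om B J Q) := ⟨fun _ => (⟨0, by omega⟩, fun _ => false)⟩
  have hpos : (0 : ℝ) < Fintype.card (Om B J Q) := by exact_mod_cast Fintype.card_pos
  let E : Om B J Q → Prop := fun ω => (H.filter (fun b => (ω b).1.val = 0)).card < r ∧
      ∃ w : B → Bool, ¬ Cert m (fun w' => fixF F H (restr ω w) (restr ω w'))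
  have hsum := glue_sum H (fun ω : Om B J Q => if E ω then 1 else 0)
  have hin : ∀ ω₁ : Om B J Q,
      ((∑ ω₂ : Om B J Q, (if E (glue H ω₁ ω₂) then 1 else 0) : ℕ) : ℝ) ≤
        2 ^ r * c * Fintype.card (Om B J Q) := by
    intro ω₁
    rw [← card_filter]
    set Lv := H.filter (fun b => (ω₁ b).1.val = 0) with hLv
    by_cases hr : Lv.card < r
    · let ex : (Lv → Bool) → B → Bool := fun f b => if hb : b ∈ Lv then f ⟨b, hb⟩ else false
      have hsub : (univ.filter (fun ω₂ : Om B J Q => E (glue H ω₁ ω₂))) ⊆
          (univ : Finset (Lv → Bool)).biUnion (fun f => univ.filter (fun ω₂ : Om B J Q =>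
            ¬ Cert m (fun w => fixF F H (restr ω₁ (ex f)) (restr ω₂ w)))) := by
        intro ω₂ hω₂
        simp only [mem_filter, mem_univ, true_and] at hω₂
        obtain ⟨_, w, hw⟩ := hω₂
        rw [mem_biUnion]
        refine ⟨fun b => w b, mem_univ _, ?_⟩
        simp only [mem_filter, mem_univ, true_and]
        intro hcert
        apply hw
        have e : (fun w' => fixF F H (restr (glue H ω₁ ω₂) w) (restr (glue H ω₁ ω₂) w')) =
            (fun w' => fixF F H (restr ω₁ (ex (fun b => w b))) (restr ω₂ w')) := by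
          funext w'
          apply fixF_congr
          · intro v hv
            apply restr_congr
            · simp [glue, hv]
            · intro h0
              have h0' : (ω₁ v.1).1.val = 0 := by simpa [glue, hv] using h0
              have hmem : v.1 ∈ Lv := mem_filter.mpr ⟨hv, h0'⟩
              simp [ex, hmem]
          · intro v hv
            apply restr_congr
            · simp [glue, hv]
            · intro _; rfl
        rw [e]
        exact hcert
      have h1 : ((univ.filter (fun ω₂ : Om B J Q => E (glue H ω₁ ω₂))).card : ℝ) ≤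
          ∑ f : Lv → Bool, ((univ.filter (fun ω₂ : Om B J Q =>
            ¬ Cert m (fun w => fixF F H (restr ω₁ (ex f)) (restr ω₂ w)))).card : ℝ) := by
        exact_mod_cast (card_le_card hsub).trans card_biUnion_le
      refine h1.trans ((sum_le_sum (fun f _ => h (restr ω₁ (ex f)))).trans ?_)
      rw [sum_const, card_univ, nsmul_eq_mul]
      have ec : Fintype.card (Lv → Bool) = 2 ^ Lv.card := by simp
      rw [ec, mul_assoc]
      apply mul_le_mul_of_nonneg_right _ (by positivity)
      push_cast
      exact pow_le_pow_right₀ (by norm_num) hr.le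
    · have : (univ.filter (fun ω₂ : Om B J Q => E (glue H ω₁ ω₂))) = ∅ := by
        rw [filter_eq_empty_iff]
        intro ω₂ _ hE
        apply hr
        have e : (H.filter (fun b => (glue H ω₁ ω₂ b).1.val = 0)) = Lv := by
          rw [hLv]
          apply filter_congr
          intro b hb
          simp [glue, hb]
        rw [← e]
        exact hE.1
      rw [this]
      simp only [card_empty, Nat.cast_zero]
      positivity
  have hcast : (Fintype.card (Om B J Q) : ℝ) * ((univ.filter E).card : ℝ) =
      ∑ ω₁ : Om B J Q, ((∑ ω₂ : Om B J Q, (if E (glue H ω₁ ω₂) then 1 else 0) : ℕ) : ℝ) := by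
    have h8 : Fintype.card (Om B J Q) * (univ.filter E).card =
        ∑ ω₁ : Om B J Q, ∑ ω₂ : Om B J Q, (if E (glue H ω₁ ω₂) then 1 else 0) := by
      rw [card_filter]
      exact hsum.symm
    exact_mod_cast h8
  have hfin : (Fintype.card (Om B J Q) : ℝ) * ((univ.filter E).card : ℝ) ≤
      (Fintype.card (Om B J Q) : ℝ) * (2 ^ r * c * Fintype.card (Om B J Q)) := by
    rw [hcast]
    refine (sum_le_sum (fun ω₁ _ => hin ω₁)).trans ?_
    rw [sum_const, card_univ, nsmul_eq_mul]
  exact le_of_mul_le_mul_left hfin hpos

end Pool.H98.WH
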