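import Pool.Agent.H98.WH.Frm

/-!
# [H98 WH TRUNC] smaller fan-ins by projections

`qf_const`: `Qf q n (fun _ => c) = c` if `1 ≤ n` (cases c = q or not).  `gup_const`: induction.
`trunc`: induction on s.  s = 0: π v = inl v.  s + 1: let π' be the projection for (!q, s).  `π (b :: bs) = match π' bs with | inr c => inr c | inl bs' => if b < n' then inl (b :: bs') else inr (!q)`
(the constant `!q` is neutral for a gate of type q), π [] = inl [].  For w: `(pj π w) (b :: bs)` for all b < n: if `π' bs = inr c`: the gate has value c (`qf_const`); if `π' bs = inl bs'`: `Qf q n (b ↦ if b < n' then w (b :: bs') else !q)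
= Qf q n' (b ↦ w (b :: bs'))`.  So the function bs ↦ Qf q n (..) equals `pj π' (fun bs' => Qf q n' (fun b => w (b :: bs')))`; apply the induction hypothesis (`List.replicate_succ`).
-/

set_option autoImplicit false

namespace Pool.H98.WH

open Pool.Agent.H88.RO

theorem qf_const (q c : Bool) {n : ℕ} (hn : 1 ≤ n) : Qf q n (fun _ => c) = c := by
  unfold Qf
  by_cases h : c = q
  · rw [if_pos ⟨0, by omega, h⟩, h]
  · rw [if_neg (by rintro ⟨_, _, h'⟩; exact h h')]
    revert h
    revert c q
    decide

theorem gup_const (q c : Bool) (ns : List ℕ) (hn : ∀ n ∈ ns, 1 ≤ n) :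
    Gup q ns (fun _ => c) = c := by
  induction ns generalizing q with
  | nil => rfl
  | cons n ns ih =>
    simp only [Gup]
    have e : (fun _ : List ℕ => Qf q n (fun _ => c)) = fun _ => c := by
      funext _
      exact qf_const q c (hn n (by simp))
    rw [e]
    exact ih (!q) (fun m hm => hn m (by simp [hm]))

theorem qf_cut {n n' : ℕ} (hnn : n' ≤ n) (q : Bool) (f : ℕ → Bool) :
    Qf q n (fun b => if b < n' then f b else !q) = Qf q n' f := by
  unfold Qf
  have e : (∃ b < n, (if b < n' then f b else !q) = q) ↔ (∃ b < n', f b = q) := by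
    constructor
    · rintro ⟨b, hb, h⟩
      by_cases h' : b < n'
      · rw [if_pos h'] at h
        exact ⟨b, h', h⟩
      · rw [if_neg h'] at h
        cases q <;> simp at h
    · rintro ⟨b, hb, h⟩
      exact ⟨b, by omega, by rw [if_pos hb]; exact h⟩
  simp only [e]

theorem trunc {n n' : ℕ} (hn' : 1 ≤ n') (hnn : n' ≤ n) (s : ℕ) (q : Bool) :
    ∃ π : List ℕ → List ℕ ⊕ Bool, ∀ w : List ℕ → Bool,
      Gup q (List.replicate s n) (pj π w) = Gup q (List.replicate s n') w := by
  induction s generalizing q with
  | zero => exact ⟨Sum.inl, fun w => rfl⟩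
  | succ s ih =>
    obtain ⟨π', hπ'⟩ := ih (!q)
    refine ⟨fun l => match l with
      | [] => .inl []
      | b :: bs => match π' bs with
        | .inr c => .inr c
        | .inl bs' => if b < n' then .inl (b :: bs') else .inr (!q), fun w => ?_⟩
    rw [List.replicate_succ, List.replicate_succ]
    simp only [Gup]
    rw [← hπ']
    congr 1
    funext bs
    rcases h : π' bs with bs' | c
    · have e : pj π' (fun bs => Qf q n' (fun b => w (b :: bs))) bs =
          Qf q n' (fun b => w (b :: bs')) := by simp [pj, h]
      rw [e, ← qf_cut hnn]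
      congr 1
      funext b
      simp only [pj, h]
      by_cases hb : b < n'
      · simp [hb]
      · simp [hb]
    · have e : pj π' (fun bs => Qf q n' (fun b => w (b :: bs))) bs = c := by simp [pj, h]
      rw [e]
      have e2 := qf_const q c (show 1 ≤ n by omega)
      refine Eq.trans ?_ e2
      congr 1
      funext b
      simp [pj, h]

end Pool.H98.WH
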